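import Pool.Agent.H35.UB.Ext

/-!
# H35-UX-DEFS: the exact upper bound (UBX, MP_b39724_nt): configurations with weights at all primes, arbitrary words

* `SAx S L A X N R M T Zw E e W V Y`: the sum over the configurations with pattern `R` and honest reduction modulo `N`, of the weights `W x y_v` over the large
  primes of rich classes and `V x y_v` over the other primes, `y_v` the value of the word `X v`. (`R = univ`: `V` is the weight of the small primes.)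
* `BLbX`, `BLatX`: the box lemma for the words `X` (in `H35/UB/Box` for the words `wdE`).
-/

set_option autoImplicit false

open scoped NumberField
open IsDedekindDomain
open scoped Classical

noncomputable section

namespace H35.UX

open H63.MA H38.BB H38.BG H57.PC H57.BRA H77.WD H77.WE H77.PC3 H35.CF H35.UB

variable {K : Type} [Field K] [NumberField K] {Ω : Type} [Field Ω] [Algebra K Ω]
  {p : ℕ} {ζ : K} {D : RD0 K p ζ} {P : Type} [Group P]

/-- the sum over the configurations with pattern `R`, weights at all primes -/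
def SAx {Nc : ℕ} {Λ : Type} [Fintype Λ] [Fintype P] (S : LS Nc P Λ) (L : LDs D Ω) (A : GS D Ω)
    (X : Pl K → FW A) (N : Subgroup P) [N.Normal] (R : Finset (Fin Nc)) (M : ℕ) (T : ℝ)
    (Zw E : Finset (Pl K)) (e : Pl K → P) (W V : Λ → P → ℝ) (Y : ℝ) : ℝ :=
  ∑ f ∈ Cf (Zg D Zw E) Λ, ∑ α : Fin A.g → P,
    if Pat S.cls R (Zg D Zw E) T M f ∧
        Hs L A E N (sp (Zg D Zw E) f) (ev A (lab E e S.val f) α) then
      psi (nc (Zg D Zw E) f / Y) * om (Zg D Zw E) (fun v x =>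
        if RL S.cls R T v x then W x (ev A (lab E e S.val f) α (X v))
        else V x (ev A (lab E e S.val f) α (X v))) f
    else 0

/-- the sum over the box, words `X` -/
def smX {A : GS D Ω} {N : Subgroup P} [N.Normal] {n : ℕ} (B : Bd A P N n) (X : Pl K → FW A)
    (Zw : Finset (Pl K)) (l : Fin (n + 2) → Lt p P N) (Gk : Fin (n + 2) → P → ℂ) : ℂ :=
  ∑ q ∈ B.bx Zw, (∏ v ∈ B.s, B.G v (B.th l q (X v))) * ∏ k, Gk k (B.th l q (X (q k)))

/-- the box inequality for the tuple `l` and for fixed `Y`, words `X` -/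
def BLbX (L : LDs D Ω) (A : GS D Ω) (X : Pl K → FW A) (Zw E : Finset (Pl K)) (N : Subgroup P)
    [N.Normal] (n : ℕ) (C₁ A₀ ε Y : ℝ) (l : Fin (n + 2) → Lt p P N) : Prop :=
  ∀ Gk : Fin (n + 2) → P → ℂ, (∀ k x, ‖Gk k x‖ ≤ 1) →
    (∀ k x, Gk k x ≠ 0 → (x : P ⧸ N) = (l k).f) →
    (∀ k x, ∀ u ∈ Nk N n, Gk k (x * u) = ep p ((l k).χ u) * Gk k x) →
    ∀ (ι : Type) (I : Finset ι) (B : ι → Bd A P N n),
    (∀ i ∈ I, E ⊆ (B i).s ∧ (B i).s ⊆ Zw ∧ nr (B i).s ≤ Y ^ C₁ ∧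
      ((B i).s.card : ℝ) ≤ C₁ * Real.log (Real.log Y)) →
    (∀ i ∈ I, (∀ v, v ∉ (B i).s → (B i).g v = 1) ∧ HonE L E (B i).s (B i).φ ∧
      Function.Surjective (B i).φ ∧
      hat L A (B i).φ = (QuotientGroup.mk' N).comp (ev A (B i).g (B i).α) ∧
      ∀ v x, ‖(B i).G v x‖ ≤ 1) →
    (∀ i ∈ I, ∀ k, T0 ε Y ≤ (B i).lo k ∧ (B i).lo k ≤ (B i).hi k ∧
      (B i).hi k ≤ 2 * (B i).lo k ∧ (B i).hi k ≤ Y ^ C₁) →
    (∀ m : Finset (Pl K), ((I.filter fun i => (B i).s = m).card : ℝ) ≤ Real.log Y ^ C₁) →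
    ∑ i ∈ I, (nr (B i).s)⁻¹ * (∏ k, (B i).lo k)⁻¹ * ‖smX (B i) X Zw l Gk‖ ≤
      Real.log Y ^ (-A₀)

/-- the box lemma for fixed `Y`, words `X` -/
def BLatX (L : LDs D Ω) (A : GS D Ω) (X : Pl K → FW A) (Zw E : Finset (Pl K)) (N : Subgroup P)
    [N.Normal] (n : ℕ) (C₁ A₀ ε Y : ℝ) : Prop :=
  ∃ Lkd : (Fin (n + 2) → Lt p P N) → Prop,
    (∀ (l : Fin (n + 2) → Lt p P N) (χ' : P → ZMod p), (∀ k, (l k).ok n) →
      (Lt.mk (l 0).g (l 0).f χ').ok n → (∃ u, (l 0).χ (bru l u) ≠ χ' (bru l u)) →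
      Lkd l ∨ Lkd (Function.update l 0 ⟨(l 0).g, (l 0).f, χ'⟩)) ∧
    ∀ l : Fin (n + 2) → Lt p P N, (∀ k, (l k).ok n) → Lkd l →
      BLbX L A X Zw E N n C₁ A₀ ε Y l

end H35.UX
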