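import Pool.Agent.H35.UX.Top
import Pool.Agent.H70.UX.Box

/-!
# H35-UX-U4S: the sums of the levels and the statement U4 of UBX (MP_b39724_nt, think 1733 (4))

* `exE E e`: the extension of `e : E → P` by `1`. `Sx L A W c M T Zw E k j Y`: the sum over `e : E → P` and the class-rich configurations, `N` the normal subgroup of all classes,
  weights `Gd N k` at the primes `> T`, `Gd N j` at the other primes.
* `U4st`: the step at the small primes, `Sx k (k+1) ≤ Sx k k + Y (log Y)^(-A₂)` from the box lemma BG for `P ⧸ Nk N (k+1)` (module U4, helper70).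
-/

set_option autoImplicit false

open scoped NumberField
open IsDedekindDomain
open scoped Classical

noncomputable section

namespace H35.UX

open H38.ML H63.MA H38.BB H38.BG H57.PC H57.BRA H77.WD H77.WE H77.PC3 H35.CF H35.UB

variable {K : Type} [Field K] [NumberField K] {Ω : Type} [Field Ω] [Algebra K Ω]
  {p : ℕ} {ζ : K} {D : RD0 K p ζ} {P : Type} [Group P] {Nc : ℕ}

/-- the extension by `1` -/
def exE (E : Finset (Pl K)) (e : E → P) (v : Pl K) : P := if h : v ∈ E then e ⟨v, h⟩ else 1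

/-- the sum of level `k` (large primes) and `j` (small primes) -/
def Sx [Fintype P] (L : LDs D Ω) (A : GS D Ω) (W : Pl K → FW A) (c : CL p Nc P) (M : ℕ) (T : ℝ)
    (Zw E : Finset (Pl K)) (k j : ℕ) (Y : ℝ) : ℝ :=
  ∑ e : E → P, SAx (LSx c) L A W (NR c Finset.univ) Finset.univ M T Zw E (exE E e)
    (WG c (NR c Finset.univ) (fun _ _ => 1) k) (fun x => Gd (NR c Finset.univ) j x.1) Y

/-- U4: the step at the small primes -/
def U4st [Fintype P] (A : GS D Ω) {Q : DP K Ω} (B : H77.S3.SD D Q A) (c : CL p Nc P)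
    (kw Mw k M : ℕ) : Prop :=
  ∀ A₁ A₂ ε : ℝ, 0 < ε → ε < 1 → ∃ C₁ A₀ Y₀ : ℝ, 2 ≤ C₁ ∧ 0 ≤ A₀ ∧ 3 ≤ Y₀ ∧
    ∀ C₁' A₀' : ℝ, C₁ ≤ C₁' → A₀ ≤ A₀' → ∀ Y : ℝ, Y₀ ≤ Y →
    ∀ (L : LDs D Ω) (Fr : FR L) (W : Pl K → FW A) (Yw : Fin A.g → FW A) (Zw E : Finset (Pl K)),
      ZwOk D C₁' Y Zw → EOk A₁ Y Zw E → H77.S3.Wds kw Mw L Fr A B Zw W Yw →
      (∀ v ∈ Zw, W v ∈ OnZ A Zw) →
      H70.UX.BGb Fr A W Zw E
        ((NR c Finset.univ).map (QuotientGroup.mk' (Nk (NR c Finset.univ) (k + 1)))) k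
        C₁' A₀' ε Y →
      Sx L A W c M (T0 ε Y) Zw E k (k + 1) Y ≤
        Sx L A W c M (T0 ε Y) Zw E k k Y + Y * Real.log Y ^ (-A₂)

end H35.UX
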