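import Pool.Agent.H35.UX.Sim
import Pool.Agent.H35.UX.U4s
import Pool.Agent.H1.UX.Uf
import Pool.Agent.H51.F3.Defs
import Pool.Agent.H35.NS2.Lo

/-!
# H35-UX-FIN: THE EXACT UPPER BOUND OF THE GROUP LEVEL FROM THE INPUT AND U4 (UBX, MP_b39724_nt, think 1733)

* `chx`: all level steps (`stpx` = U3 and `U4st`). `mnx`: the number of the homomorphisms with all classes rich (`topx`, `chx`, `u5_sum`).
* `apx`: `APu3 p` from `UX2 p` and U4.
-/

set_option autoImplicit false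

open scoped NumberField
open IsDedekindDomain
open scoped Classical

noncomputable section

namespace H35.UX

open H38.ML H63.MA H38.BB H38.BG H57.PC H57.BRA H77.WD H77.WE H77.PC3 H35.CF H35.UB H77.PLF

section gen

variable {K : Type} [Field K] [NumberField K] {Ω : Type} [Field Ω] [Algebra K Ω]
  {p : ℕ} {ζ : K} {D : RD0 K p ζ} {P : Type} [Group P] {Nc : ℕ}

theorem sx_nonneg [Fintype P] (L : LDs D Ω) (A : GS D Ω) (W : Pl K → FW A) (c : CL p Nc P)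
    (M : ℕ) (T : ℝ) (Zw E : Finset (Pl K)) (k j : ℕ) (Y : ℝ) :
    0 ≤ Sx L A W c M T Zw E k j Y := by
  unfold Sx SAx
  refine Finset.sum_nonneg fun e _ => Finset.sum_nonneg fun f _ => Finset.sum_nonneg fun α _ => ?_
  split_ifs
  · refine mul_nonneg (psi_nonneg _) (om_nonneg _ _ (fun v x => ?_) _)
    split_ifs
    · exact (wg_bd c _ _ (fun _ _ => ⟨zero_le_one, le_rfl⟩) _ _ _).1
    · exact gd_nonneg _ _ _ _
  · exact le_rfl

theorem two_pow_le (m : Finset (Pl K)) : (2 : ℝ) ^ m.card ≤ nr m := by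
  unfold nr
  rw [← Finset.prod_const]
  refine Finset.prod_le_prod (fun _ _ => by norm_num) fun v _ => ?_
  have := one_lt_nm v
  exact_mod_cast (by omega : 2 ≤ nm v)

/-- the number of labels at `E` against a power of the logarithm -/
theorem pw_E (n : ℕ) (A₁ : ℝ) : ∃ A₂ : ℝ, ∀ (E : Finset (Pl K)) (Y : ℝ), 3 ≤ Y →
    nr E ≤ Real.log Y ^ A₁ → (n : ℝ) ^ E.card * (Y * Real.log Y ^ (-A₂)) ≤ Y := by
  refine ⟨A₁ * n, fun E Y hY hE => ?_⟩
  have hY0 : (0 : ℝ) < Y := by linarith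
  have hl : 0 < Real.log Y := Real.log_pos (by linarith)
  have h1 : (n : ℝ) ^ E.card ≤ Real.log Y ^ (A₁ * n) := by
    calc (n : ℝ) ^ E.card ≤ ((2 : ℝ) ^ n) ^ E.card := by
          refine pow_le_pow_left₀ (Nat.cast_nonneg _) ?_ _
          exact_mod_cast (Nat.lt_two_pow_self (n := n)).le
      _ = ((2 : ℝ) ^ E.card) ^ n := by rw [← pow_mul, ← pow_mul, mul_comm]
      _ ≤ (nr E) ^ n := pow_le_pow_left₀ (by positivity) (two_pow_le E) _
      _ ≤ (Real.log Y ^ A₁) ^ n :=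
          pow_le_pow_left₀ ((pow_nonneg zero_le_two _).trans (two_pow_le E)) hE _
      _ = _ := by rw [← Real.rpow_natCast, ← Real.rpow_mul hl.le]
  calc (n : ℝ) ^ E.card * (Y * Real.log Y ^ (-(A₁ * n))) ≤
        Real.log Y ^ (A₁ * n) * (Y * Real.log Y ^ (-(A₁ * n))) :=
        mul_le_mul_of_nonneg_right h1 (by positivity)
    _ = Y * (Real.log Y ^ (A₁ * n) * Real.log Y ^ (-(A₁ * n))) := by ring
    _ = Y := by rw [← Real.rpow_add hl, add_neg_cancel, Real.rpow_zero, mul_one]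

/-- all level steps -/
theorem chx [Fintype P] [NeZero p] (hp : p.Prime) {A : GS D Ω} {Q : DP K Ω} (B : H77.S3.SD D Q A)
    (c : CL p Nc P) (kw Mw k₀ M : ℕ) (hM : ∀ k < k₀, (k + 2) * (Nc * Nat.card P ^ 3) ≤ M)
    (hU : ∀ k < k₀, U4st A B c kw Mw k M) (A₁ ε : ℝ) (hε : 0 < ε) (hε1 : ε < 1) (j : ℕ)
    (hj : j ≤ k₀) :
    ∃ C C₁ A₀ Y₀ : ℝ, 1 ≤ C ∧ 2 ≤ C₁ ∧ 0 ≤ A₀ ∧ 3 ≤ Y₀ ∧ ∀ C₁' A₀' : ℝ, C₁ ≤ C₁' → A₀ ≤ A₀' →
      ∀ Y : ℝ, Y₀ ≤ Y → ∀ (L : LDs D Ω) (Fr : FR L) (W : Pl K → FW A) (Yw : Fin A.g → FW A)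
      (Zw E : Finset (Pl K)), ZwOk D C₁' Y Zw → EOk A₁ Y Zw E →
      H77.S3.Wds kw Mw L Fr A B Zw W Yw → (∀ v ∈ Zw, W v ∈ OnZ A Zw) →
      (∀ k < j, BLatX L A W Zw E ((NR c Finset.univ).map
          (QuotientGroup.mk' (Nk (NR c Finset.univ) (k + 1)))) k C₁' A₀' ε Y ∧
        H70.UX.BGb Fr A W Zw E ((NR c Finset.univ).map
          (QuotientGroup.mk' (Nk (NR c Finset.univ) (k + 1)))) k C₁' A₀' ε Y) →
      Sx L A W c M (T0 ε Y) Zw E j j Y ≤ C * (Sx L A W c M (T0 ε Y) Zw E 0 0 Y + Y) := by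
  induction j with
  | zero =>
    refine ⟨1, 2, 0, 3, le_rfl, le_rfl, le_rfl, le_rfl, ?_⟩
    intro C₁' A₀' _ _ Y hY L Fr W Yw Zw E _ _ _ _ _
    linarith
  | succ j ih =>
    obtain ⟨C, C₁, A₀, Y₀, hC, hC₁, hA₀, hY₀, h⟩ := ih (by omega)
    obtain ⟨A₂, hA₂⟩ := pw_E (K := K) (Nat.card P) A₁
    obtain ⟨C', C₂, A₂', Y₀', hC', hC₂, hA₂', hY₀', h'⟩ :=
      stpx hp D A c Finset.univ j M (hM j (by omega)) (fun _ _ => 1)
        (fun _ _ => ⟨zero_le_one, le_rfl⟩) (fun _ _ _ _ _ _ => rfl)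
        (fun x => Gd (NR c Finset.univ) (j + 1) x.1)
        (fun x y => ⟨gd_nonneg _ _ _ _, gd_le_one _ _ _ _⟩)
        (fun g x u hu => gd_inv _ _ _ _ _ hu) A₁ A₂ ε hε hε1
    obtain ⟨C₃, A₃, Y₃, hC₃, hA₃, hY₃, h₃⟩ := hU j (by omega) A₁ 0 ε hε hε1
    refine ⟨C' * (C + 1) + 1, max C₁ (max C₂ C₃), max A₀ (max A₂' A₃), max Y₀ (max Y₀' Y₃), ?_,
      hC₁.trans (le_max_left _ _), hA₀.trans (le_max_left _ _), hY₀.trans (le_max_left _ _), ?_⟩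
    · have : 0 ≤ C' * (C + 1) := mul_nonneg (by linarith) (by linarith)
      linarith
    intro C₁' A₀' hC₁' hA₀' Y hY L Fr W Yw Zw E hZ hE hW hWZ hB
    have hY1 : Y₀ ≤ Y := (le_max_left _ _).trans hY
    have hY2 : Y₀' ≤ Y := (le_max_left _ _).trans ((le_max_right _ _).trans hY)
    have hY3 : Y₃ ≤ Y := (le_max_right _ _).trans ((le_max_right _ _).trans hY)
    have hYp : 3 ≤ Y := hY₀.trans hY1
    have k1 := h C₁' A₀' ((le_max_left _ _).trans hC₁') ((le_max_left _ _).trans hA₀') Y hY1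
      L Fr W Yw Zw E hZ hE hW hWZ fun k hk => hB k (by omega)
    have k2 : ∀ e : E → P, _ := fun e => h' C₁' A₀'
      ((le_max_left _ _).trans ((le_max_right _ _).trans hC₁'))
      ((le_max_left _ _).trans ((le_max_right _ _).trans hA₀')) Y hY2 L W Zw E (exE E e) hE
      (hB j (by omega)).1
    have k3 := h₃ C₁' A₀' ((le_max_right _ _).trans ((le_max_right _ _).trans hC₁'))
      ((le_max_right _ _).trans ((le_max_right _ _).trans hA₀')) Y hY3 L Fr W Yw Zw E hZ hE hW hWZ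
      (hB j (by omega)).2
    have k4 : Sx L A W c M (T0 ε Y) Zw E (j + 1) (j + 1) Y ≤
        C' * Sx L A W c M (T0 ε Y) Zw E j (j + 1) Y + Y := by
      have h1 : Sx L A W c M (T0 ε Y) Zw E (j + 1) (j + 1) Y ≤
          ∑ e : E → P, (C' * SAx (LSx c) L A W (NR c Finset.univ) Finset.univ M (T0 ε Y) Zw E
            (exE E e) (WG c (NR c Finset.univ) (fun _ _ => 1) j)
            (fun x => Gd (NR c Finset.univ) (j + 1) x.1) Y + Y * Real.log Y ^ (-A₂)) :=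
        Finset.sum_le_sum fun e _ => k2 e
      refine h1.trans ?_
      rw [Finset.sum_add_distrib, ← Finset.mul_sum]
      refine add_le_add (le_refl _) ?_
      rw [Finset.sum_const, Finset.card_univ, Fintype.card_fun, Fintype.card_coe, nsmul_eq_mul,
        Nat.cast_pow, ← Nat.card_eq_fintype_card]
      exact hA₂ E Y hYp hE.2
    rw [neg_zero, Real.rpow_zero, mul_one] at k3
    have h0 := sx_nonneg L A W c M (T0 ε Y) Zw E 0 0 Y
    obtain ⟨S0, hS0⟩ : ∃ S0 : ℝ, S0 = Sx L A W c M (T0 ε Y) Zw E 0 0 Y := ⟨_, rfl⟩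
    rw [← hS0] at h0 k1 ⊢
    calc _ ≤ C' * Sx L A W c M (T0 ε Y) Zw E j (j + 1) Y + Y := k4
      _ ≤ C' * (C * (S0 + Y) + Y) + Y := by
          have : Sx L A W c M (T0 ε Y) Zw E j (j + 1) Y ≤ C * (S0 + Y) + Y := by linarith
          have h2 := mul_le_mul_of_nonneg_left this (by linarith : 0 ≤ C')
          linarith
      _ ≤ C' * (C * (S0 + Y) + (S0 + Y)) + (S0 + Y) := by
          have h2 := mul_le_mul_of_nonneg_left
            (by linarith : C * (S0 + Y) + Y ≤ C * (S0 + Y) + (S0 + Y)) (by linarith : 0 ≤ C')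
          linarith
      _ = _ := by ring

/-- level zero -/
theorem lv0x [Fintype P] [IsAlgClosure K Ω] [NeZero Nc] (hp : p.Prime) (hp2 : MOne p K)
    (hζ : IsPrimitiveRoot ζ p) (D : RD0 K p ζ) (hP : IsPGroup p P) (c : CL p Nc P) :
    ∃ (C : ℝ) (A' : ℕ), 1 ≤ C ∧ ∀ (L : LDs D Ω) (Fr : FR L) (A : GS D Ω) (Zw E : Finset (Pl K)),
      E ⊆ Zw → ∀ W : Pl K → FW A,
      (∀ φ : Gal(Ω/K) →* P ⧸ NR c Finset.univ, Unz L Zw φ → ∀ v ∈ Zw,
        hat L A φ (W v) = φ (Fr.F v)) →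
      ∀ (M : ℕ) (T Y : ℝ), 3 ≤ Y → Sx L A W c M T Zw E 0 0 Y ≤
        (Nat.card P : ℝ) ^ (E.card + A.g) *
          (C * (1 + Real.log (nr E)) ^ A' * (Y * Real.log Y ^ (Nc - 1))) := by
  obtain ⟨C, A', hC, h⟩ := H1.UX.u5_sum (Ω := Ω) hp hp2 hζ D hP c (NR c Finset.univ)
    (fun i => Subgroup.subset_normalClosure ⟨i, Finset.mem_univ _, IsConj.refl _⟩)
  refine ⟨C, A', hC, fun L Fr A Zw E hE W hW M T Y hY => ?_⟩
  refine le_trans (le_of_eq ?_) (h L Fr A Zw E hE W hW M T Y hY)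
  unfold Sx SAx H1.UX.U5s exE
  refine Finset.sum_congr rfl fun e _ => ?_
  rw [Finset.sum_comm]
  refine Finset.sum_congr rfl fun α _ => Finset.sum_congr rfl fun f _ => ?_
  have h1 : ∀ (v : Pl K) (x : Px c) (y : P), (if RL (LSx c).cls Finset.univ T v x then
      WG c (NR c Finset.univ) (fun _ _ => 1) 0 x y else Gd (NR c Finset.univ) 0 x.1 y) =
      Gd (NR c Finset.univ) 0 x.1 y := by
    intro v x y
    unfold WG
    rw [one_mul, ite_self]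
  simp only [h1]
  rfl

/-- a set all of whose finite subsets are bounded -/
theorem fin_of_bd {α : Type} {S : Set α} {b : ℝ}
    (h : ∀ Rs : Finset α, (↑Rs : Set α) ⊆ S → (Rs.card : ℝ) ≤ b) :
    S.Finite ∧ (S.ncard : ℝ) ≤ b := by
  have hf : S.Finite := by
    by_contra hS
    obtain ⟨n, hn⟩ := exists_nat_gt b
    obtain ⟨Rs, h1, h2⟩ := Set.Infinite.exists_subset_card_eq hS n
    have := h Rs h1
    rw [h2] at this
    linarith
  refine ⟨hf, ?_⟩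
  have h1 := h hf.toFinset (by rw [Set.Finite.coe_toFinset])
  rwa [← Set.ncard_eq_toFinset_card S hf] at h1

/-- the power of `1 + log` -/
theorem log_pw (A' : ℕ) {η : ℝ} (hη : 0 < η) : ∃ C : ℝ, 1 ≤ C ∧ ∀ x : ℝ, 1 ≤ x →
    (1 + Real.log x) ^ A' ≤ C * x ^ η := by
  obtain ⟨d, hd⟩ : ∃ d : ℝ, d = η / (A' + 1) := ⟨_, rfl⟩
  have hA : (0 : ℝ) ≤ A' := Nat.cast_nonneg _
  have hd0 : 0 < d := by
    rw [hd]
    positivity
  have hdA : d * A' ≤ η := by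
    rw [hd, div_mul_eq_mul_div, div_le_iff₀ (by linarith)]
    nlinarith
  refine ⟨(1 + 1 / d) ^ A', one_le_pow₀ ?_, fun x hx => ?_⟩
  · have : 0 ≤ 1 / d := by positivity
    linarith
  have hx0 : 0 < x := by linarith
  have h1 : Real.log x ≤ x ^ d / d := Real.log_le_rpow_div hx0.le hd0
  have h2 : 1 ≤ x ^ d := Real.one_le_rpow hx hd0.le
  have h3 : 1 + Real.log x ≤ (1 + 1 / d) * x ^ d := by
    have : (1 + 1 / d) * x ^ d = x ^ d + x ^ d / d := by ring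
    linarith
  have h4 : 0 ≤ 1 + Real.log x := by
    have := Real.log_nonneg hx
    linarith
  calc (1 + Real.log x) ^ A' ≤ ((1 + 1 / d) * x ^ d) ^ A' := pow_le_pow_left₀ h4 h3 _
    _ = (1 + 1 / d) ^ A' * x ^ (d * A') := by
        rw [mul_pow, ← Real.rpow_natCast (x ^ d), ← Real.rpow_mul hx0.le]
    _ ≤ _ := by
        refine mul_le_mul_of_nonneg_left (Real.rpow_le_rpow_of_exponent_le hx hdA) ?_
        positivity

/-- the homomorphisms with all classes rich -/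
theorem mnx [Fintype P] [IsAlgClosure K Ω] [NeZero p] (hp : p.Prime) (hp2 : MOne p K)
    (hζ : IsPrimitiveRoot ζ p) (D : RD0 K p ζ) (hP : IsPGroup p P) (κ : ℕ)
    (hκ : ∀ x : P, x ^ p ^ κ = 1) (j : ℕ) (z : K) (hN : 1 ≤ Nc) (c : CL p Nc P)
    (hX : H70.UX.UXst D Ω κ (Nat.card P) j z)
    (hU : ∀ (A : GS D Ω) (Q : DP K Ω) (B : H77.S3.SD D Q A) (kw Mw : ℕ),
      H77.S3.Sml p kw Mw P → ∀ k, ∃ M₀, ∀ M, M₀ ≤ M → U4st A B c kw Mw k M) :
    ∃ M : ℕ, ∀ (L₀ : LDs D Ω) (_ : H24.RK.NL j z L₀) (A₁ ε η : ℝ), 0 < ε → ε < 1 → 0 < η →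
      ∃ C Y₀ : ℝ, 1 ≤ C ∧ 3 ≤ Y₀ ∧ ∀ (E : Finset (Pl K)) (Y : ℝ), Y₀ ≤ Y →
        nr E ≤ Real.log Y ^ A₁ → (∀ v ∈ E, v ∉ D.S0) → ∀ Rs : Finset (Gal(Ω/K) →* P),
        (∀ φ ∈ Rs, φ ∈ PU L₀ c E Y ∧ ∀ i, M ≤ tyn L₀ c E (T0 ε Y) φ i) →
        (Rs.card : ℝ) ≤ C ^ (E.card + 1) * nr E ^ η * Y * Real.log Y ^ (Nc - 1) := by
  haveI : NeZero Nc := ⟨by omega⟩
  obtain ⟨A, Q, B, kw, Mw, hMw, hkw, hX⟩ := hX
  have hpow : ∀ x : P, x ^ p ^ kw = 1 := by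
    intro x
    obtain ⟨d, hd⟩ := Nat.exists_eq_add_of_le hkw
    rw [hd, pow_add, pow_mul, hκ, one_pow]
  have hS : H77.S3.Sml p kw Mw P := ⟨hP, hMw, hpow⟩
  choose M₀ hM₀ using hU A Q B kw Mw hS
  obtain ⟨k₀, hk₀⟩ := nk_bot hp hP (NR c Finset.univ)
  obtain ⟨M, hMd⟩ : ∃ M : ℕ, M = ∑ k ∈ Finset.range k₀, M₀ k +
    (k₀ + 2) * (Nc * Nat.card P ^ 3) := ⟨_, rfl⟩
  have hM1 : ∀ k < k₀, (k + 2) * (Nc * Nat.card P ^ 3) ≤ M := by
    intro k hk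
    rw [hMd]
    have : (k + 2) * (Nc * Nat.card P ^ 3) ≤ (k₀ + 2) * (Nc * Nat.card P ^ 3) :=
      Nat.mul_le_mul_right _ (by omega)
    omega
  have hM2 : ∀ k < k₀, U4st A B c kw Mw k M := by
    intro k hk
    refine hM₀ k M ?_
    rw [hMd]
    have : M₀ k ≤ ∑ k ∈ Finset.range k₀, M₀ k :=
      Finset.single_le_sum (fun _ _ => Nat.zero_le _) (Finset.mem_range.2 hk)
    omega
  obtain ⟨C₀, A', hC₀, h₀⟩ := lv0x (Ω := Ω) hp hp2 hζ D hP c
  refine ⟨M, fun L₀ hL₀ A₁ ε η hε hε1 hη => ?_⟩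
  obtain ⟨C, C₁, A₀, Y₀, hC, hC₁, hA₀, hY₀, h⟩ :=
    chx hp B c kw Mw k₀ M hM1 hM2 A₁ ε hε hε1 k₀ le_rfl
  obtain ⟨Y₁, hY₁, hX⟩ := hX C₁ A₀ ε hε
  obtain ⟨Cη, hCη, hη2⟩ := log_pw A' hη
  obtain ⟨q, hq⟩ : ∃ q : ℝ, q = Nat.card P := ⟨_, rfl⟩
  have hq1 : 1 ≤ q := by
    rw [hq]
    exact_mod_cast Nat.card_pos
  obtain ⟨W₁, hW₁⟩ : ∃ W₁ : ℝ, W₁ = C * (q ^ A.g * (C₀ * Cη) + 1) := ⟨_, rfl⟩
  have hW₁0 : 1 ≤ W₁ := by
    rw [hW₁]
    have : 0 ≤ q ^ A.g * (C₀ * Cη) := by positivity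
    nlinarith
  refine ⟨q + W₁, max Y₀ Y₁, by linarith, hY₀.trans (le_max_left _ _), ?_⟩
  intro E Y hY hE hES Rs hRs
  have hYa : Y₀ ≤ Y := (le_max_left _ _).trans hY
  have hYb : Y₁ ≤ Y := (le_max_right _ _).trans hY
  have hY3 : 3 ≤ Y := hY₀.trans hYa
  have hY0 : (0 : ℝ) < Y := by linarith
  have hl : 1 ≤ Real.log Y := by
    rw [Real.le_log_iff_exp_le hY0]
    exact (Real.exp_one_lt_d9.le.trans (by norm_num)).trans hY3
  obtain ⟨L, Fr, hs, hXL⟩ := hX Y hYb L₀ hL₀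
  -- the set of primes
  obtain ⟨Zw, hZw⟩ : ∃ Zw : Finset (Pl K), Zw =
    E ∪ (H57.AN.PB K (Y ^ C₁)).filter (fun v => D.Gd v) := ⟨_, rfl⟩
  have hZ : ZwOk D C₁ Y Zw := by
    refine ⟨fun v hv => ?_, fun v hv hn => ?_⟩
    · rw [hZw, Finset.mem_union, Finset.mem_filter] at hv
      rcases hv with hv | ⟨-, hv⟩
      · exact hES v hv
      · exact hv.1
    · rw [hZw, Finset.mem_union, Finset.mem_filter]
      exact Or.inr ⟨H57.AN.mem_PB.2 hn, hv⟩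
  have hEZ : E ⊆ Zw := by
    rw [hZw]
    exact Finset.subset_union_left
  obtain ⟨W, Yw, hWd, hWo, hXB⟩ := hXL Zw hZ.1 hZ.2
  have hWP : ∀ φ : Gal(Ω/K) →* P, Unz L Zw φ → ∀ v ∈ Zw, hat L A φ (W v) = φ (Fr.F v) :=
    fun φ hφ => (hWd P hS φ hφ).1
  have hSq : H77.S3.Sml p kw Mw (P ⧸ NR c Finset.univ) := by
    refine ⟨hP.to_quotient _, ?_, fun x => ?_⟩
    · exact (Nat.card_le_card_of_surjective _ (QuotientGroup.mk'_surjective _)).trans hMw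
    · obtain ⟨y, rfl⟩ := QuotientGroup.mk'_surjective _ x
      rw [← map_pow, hpow, map_one]
  have hWq : ∀ φ : Gal(Ω/K) →* P ⧸ NR c Finset.univ, Unz L Zw φ → ∀ v ∈ Zw,
      hat L A φ (W v) = φ (Fr.F v) := fun φ hφ => (hWd _ hSq φ hφ).1
  -- the box lemmas
  have hBB : ∀ k < k₀, BLatX L A W Zw E ((NR c Finset.univ).map
      (QuotientGroup.mk' (Nk (NR c Finset.univ) (k + 1)))) k C₁ A₀ ε Y ∧
      H70.UX.BGb Fr A W Zw E ((NR c Finset.univ).map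
        (QuotientGroup.mk' (Nk (NR c Finset.univ) (k + 1)))) k C₁ A₀ ε Y := by
    intro k _
    refine hXB (P ⧸ Nk (NR c Finset.univ) (k + 1)) ?_ ?_ _ k ?_ ?_ E hEZ
    · exact Nat.card_le_card_of_surjective _
        (QuotientGroup.mk'_surjective (Nk (NR c Finset.univ) (k + 1)))
    · intro x
      obtain ⟨y, rfl⟩ := QuotientGroup.mk'_surjective (Nk (NR c Finset.univ) (k + 1)) x
      rw [← map_pow, hκ, map_one]
    · rw [nk_map, QuotientGroup.map_mk'_self]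
    · refine le_antisymm ?_ ((Subgroup.closure_le _).2 fun x hx => hx.1)
      calc (NR c Finset.univ).map (QuotientGroup.mk' (Nk (NR c Finset.univ) (k + 1))) =
            (Subgroup.closure {x | x ∈ NR c Finset.univ ∧ x ^ p = 1}).map
              (QuotientGroup.mk' (Nk (NR c Finset.univ) (k + 1))) :=
            congrArg (fun N : Subgroup P => N.map
              (QuotientGroup.mk' (Nk (NR c Finset.univ) (k + 1)))) (nr_cl c Finset.univ)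
        _ = Subgroup.closure ((QuotientGroup.mk' (Nk (NR c Finset.univ) (k + 1))) ''
              {x | x ∈ NR c Finset.univ ∧ x ^ p = 1}) := MonoidHom.map_closure _ _
        _ ≤ _ := by
            refine Subgroup.closure_mono ?_
            rintro _ ⟨y, ⟨hy1, hy2⟩, rfl⟩
            exact ⟨Subgroup.mem_map_of_mem _ hy1, by rw [← map_pow, hy2, map_one]⟩
  -- the top level
  have ht : (Rs.card : ℝ) ≤ Sx L A W c M (T0 ε Y) Zw E k₀ k₀ Y := by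
    obtain ⟨Re, hRe⟩ : ∃ Re : (E → P) → Finset (Gal(Ω/K) →* P), Re = fun e =>
      Rs.filter fun φ => φ ∈ PE L c E (exE E e) Finset.univ M (T0 ε Y) Y := ⟨_, rfl⟩
    have h1 : Rs ⊆ Finset.univ.biUnion Re := by
      intro φ hφ
      rw [Finset.mem_biUnion]
      refine ⟨fun v => φ (L.t v.1), Finset.mem_univ _, ?_⟩
      obtain ⟨h2, h3⟩ := hRs φ hφ
      obtain ⟨p1, p2, p3, p4⟩ := sim_pu hs c E Y φ h2
      rw [hRe]
      beta_reduce
      rw [Finset.mem_filter]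
      refine ⟨hφ, p1, p2, fun v hv => ?_, p3, p4, fun i => ?_⟩
      · unfold exE
        rw [dif_pos hv]
      · rw [sim_tyn hs]
        exact ⟨fun _ => h3 i, fun _ => Finset.mem_univ _⟩
    have h2 : (Rs.card : ℝ) ≤ ∑ e : E → P, ((Re e).card : ℝ) := by
      exact_mod_cast (Finset.card_le_card h1).trans Finset.card_biUnion_le
    refine h2.trans ?_
    unfold Sx
    refine Finset.sum_le_sum fun e _ => ?_
    have h3 := topx hp hζ hP L A Fr c ⟨0, hN⟩ Finset.univ k₀ M hk₀ (fun _ _ => 1)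
      (fun _ _ => ⟨zero_le_one, le_rfl⟩) (fun x => Gd (NR c Finset.univ) k₀ x.1)
      (fun g x => gd_nonneg _ _ _ _) (fun g x hgx => by
        rw [gd_bot _ _ hk₀, if_pos hgx]) (T0 ε Y) C₁ Y hY3 (by linarith) Zw E (exE E e) hZ hEZ W
      hWP (fun _ => 1) (Re e) (fun φ hφ => by
        rw [hRe] at hφ
        beta_reduce at hφ
        rw [Finset.mem_filter] at hφ
        exact ⟨hφ.2, fun s j _ => by rw [Finset.prod_const_one]⟩)
    rwa [Finset.sum_const, nsmul_eq_mul, mul_one] at h3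
  have h5 := h C₁ A₀ le_rfl le_rfl Y hYa L Fr W Yw Zw E hZ ⟨hEZ, hE⟩ hWd hWo hBB
  have h6 := h₀ L Fr A Zw E hEZ W hWq M (T0 ε Y) Y hY3
  have hnr : 1 ≤ nr E := (one_le_pow₀ (by norm_num : (1 : ℝ) ≤ 2)).trans (two_pow_le E)
  have hnη : 1 ≤ nr E ^ η := Real.one_le_rpow hnr hη.le
  obtain ⟨b, hb⟩ : ∃ b : ℝ, b = Y * Real.log Y ^ (Nc - 1) := ⟨_, rfl⟩
  have hb0 : 0 ≤ b := by
    rw [hb]
    positivity
  have hYb' : Y ≤ b := by
    rw [hb]
    exact le_mul_of_one_le_right hY0.le (one_le_pow₀ hl)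
  rw [← hb, ← hq] at h6
  have h7 : C₀ * (1 + Real.log (nr E)) ^ A' * b ≤ C₀ * (Cη * nr E ^ η) * b :=
    mul_le_mul_of_nonneg_right (mul_le_mul_of_nonneg_left (hη2 _ hnr) (by linarith)) hb0
  have hqE : 1 ≤ q ^ E.card := one_le_pow₀ hq1
  have h8 : Sx L A W c M (T0 ε Y) Zw E 0 0 Y + Y ≤
      (q ^ A.g * (C₀ * Cη) + 1) * (q ^ E.card * nr E ^ η * b) := by
    have h9 : Y ≤ q ^ E.card * nr E ^ η * b := by
      refine hYb'.trans (le_mul_of_one_le_left hb0 ?_)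
      exact one_le_mul_of_one_le_of_one_le hqE hnη
    have h10 : Sx L A W c M (T0 ε Y) Zw E 0 0 Y ≤
        q ^ (E.card + A.g) * (C₀ * (Cη * nr E ^ η) * b) :=
      h6.trans (mul_le_mul_of_nonneg_left h7 (by positivity))
    calc _ ≤ q ^ (E.card + A.g) * (C₀ * (Cη * nr E ^ η) * b) + q ^ E.card * nr E ^ η * b :=
          add_le_add h10 h9
      _ = _ := by
          rw [pow_add]
          ring
  calc (Rs.card : ℝ) ≤ Sx L A W c M (T0 ε Y) Zw E k₀ k₀ Y := ht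
    _ ≤ C * (Sx L A W c M (T0 ε Y) Zw E 0 0 Y + Y) := h5
    _ ≤ C * ((q ^ A.g * (C₀ * Cη) + 1) * (q ^ E.card * nr E ^ η * b)) :=
        mul_le_mul_of_nonneg_left h8 (by linarith)
    _ = q ^ E.card * W₁ * nr E ^ η * b := by
        rw [hW₁]
        ring
    _ ≤ (q + W₁) ^ (E.card + 1) * nr E ^ η * b := by
        refine mul_le_mul_of_nonneg_right (mul_le_mul_of_nonneg_right ?_ (by linarith)) hb0
        rw [pow_succ]
        exact mul_le_mul (pow_le_pow_left₀ (by linarith) (by linarith) _) (by linarith)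
          (by linarith) (by positivity)
    _ = _ := by
        rw [hb]
        ring

end gen

/-- U4 for all groups -/
def U4All (p : ℕ) : Prop :=
  ∀ (K : IntermediateField ℚ QBar) [NumberField K] (ζ : K) (_ : IsPrimitiveRoot ζ p)
    (D : RD0 K p ζ) (P : Type) [Group P] [Fintype P] (Nc : ℕ) (c : CL p Nc P) (_ : 1 ≤ Nc)
    (A : GS D QBar) (Q : DP K QBar) (B : H77.S3.SD D Q A) (kw Mw : ℕ),
    H77.S3.Sml p kw Mw P → ∀ k, ∃ M₀, ∀ M, M₀ ≤ M → U4st A B c kw Mw k M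

/-- THE GOAL from the input and U4 -/
theorem apx {p : ℕ} (hp : p.Prime) (hX : H70.UX.UX2 p) (hU : U4All p) : H51.F3.APu3 p := by
  intro P _ _ hP
  haveI : NeZero p := ⟨hp.ne_zero⟩
  haveI : Fintype P := Fintype.ofFinite P
  obtain ⟨κ, hκ⟩ : ∃ κ : ℕ, ∀ x : P, x ^ (p ^ κ) = 1 := by
    haveI : Fact p.Prime := ⟨hp⟩
    obtain ⟨κ, hκ⟩ := IsPGroup.iff_card.1 hP
    exact ⟨κ, fun x => by rw [← hκ]; exact pow_card_eq_one'⟩
  obtain ⟨m, hm⟩ := hX κ (Nat.card P)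
  refine ⟨m + 1, fun N c hN K _ ζ hζ z hz hzζ D => ?_⟩
  have hz1 : IsPrimitiveRoot (z ^ p ^ 1) (p ^ (m + 1)) := by
    refine hz.pow (pow_pos hp.pos _) ?_
    rw [← pow_add]
    congr 1
    omega
  have hz2 : (z ^ p ^ 1) ^ p ^ m = ζ := by
    rw [← pow_mul, ← pow_add, ← hzζ]
    congr 2
    omega
  have hmo : MOne p K := by
    have h1 := H35.NS2.mone_pow (k := 1) hp (by omega : 1 + 1 ≤ m + 1 + 1) hz
    rwa [pow_one] at h1
  obtain ⟨M, hM⟩ := mnx hp hmo hζ D.toRD0 hP κ hκ (m + 1) (z ^ p ^ 1) hN c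
    (hm K ζ hζ (z ^ p ^ 1) hz1 hz2 D) (hU K ζ hζ D.toRD0 P N c hN)
  refine ⟨M, fun L hL A₁ ε η hε hε1 hη => ?_⟩
  have hL' : H24.RK.NL (m + 1) (z ^ p ^ 1) L := by
    have h1 := hL.mono (m := m + 1) (by omega)
    have h2 : m + 1 + 1 - (m + 1) = 1 := by omega
    rwa [h2] at h1
  obtain ⟨C, Y₀, hC, hY₀, h⟩ := hM L hL' A₁ ε η hε hε1 hη
  refine ⟨C, Y₀, hC, hY₀, fun E Y hY hE hES => fin_of_bd fun Rs hRs => ?_⟩
  exact h E Y hY hE hES Rs fun φ hφ => hRs hφ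

end H35.UX
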