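import Pool.Agent.H35.UX.Als
import Pool.Agent.H35.UB.Stp

/-!
# H35-UX-STP: the level step at the large primes for the exact labels, WITHOUT LOSS (U3 of UBX)

`WG c N ω k x y = ω x (y mod N) * Gd N k x y`: the weights, `ω` a weight of level 0, `0 ≤ ω ≤ 1`, invariant under conjugation of the label by `N` (`OI`).
`stpx`: `SAx(WG (k+1), V) ≤ C SAx(WG k, V) + Y (log Y)^(-A₂)` for every weight `V` at the other primes (of poor classes or small) which depends on the value modulo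
`Nk N (k+1)` only, given `BLatX` for the group `P ⧸ Nk N (k+1)`.
-/

set_option autoImplicit false

open scoped NumberField
open IsDedekindDomain
open scoped Classical

noncomputable section

namespace H35.UX

open H63.MA H38.BB H38.BG H57.PC H57.BRA H77.WD H77.WE H77.PC3 H35.CF H35.UB

/-- the sum of a function of the image -/
private theorem sum_hom {G H : Type} [Group G] [Group H] [Fintype G] [Fintype H] (f : G →* H)
    (hf : Function.Surjective f) (Φ : H → ℝ) :
    ∑ g, Φ (f g) = ((Nat.card G : ℝ) / Nat.card H) * ∑ h, Φ h := by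
  have h1 : ∀ Ψ : H → ℝ, ∑ g, Ψ (f g) =
      ((Finset.univ.filter fun g => f g = 1).card : ℝ) * ∑ h, Ψ h := by
    intro Ψ
    rw [← Finset.sum_fiberwise Finset.univ f (fun g => Ψ (f g)), Finset.mul_sum]
    refine Finset.sum_congr rfl fun h _ => ?_
    have h2 : ∑ g ∈ Finset.univ.filter (fun g => f g = h), Ψ (f g) =
        ∑ g ∈ Finset.univ.filter (fun g => f g = h), Ψ h :=
      Finset.sum_congr rfl fun g hg => by rw [(Finset.mem_filter.1 hg).2]
    rw [h2, Finset.sum_const, nsmul_eq_mul,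
      MonoidHom.card_fiber_eq_of_mem_range f (x := h) (y := 1) (hf h) (hf 1)]
  have h3 := h1 fun _ => 1
  rw [Finset.sum_const, Finset.sum_const, Finset.card_univ, Finset.card_univ, nsmul_eq_mul,
    nsmul_eq_mul, mul_one, mul_one, ← Nat.card_eq_fintype_card, ← Nat.card_eq_fintype_card] at h3
  have h4 : (Nat.card H : ℝ) ≠ 0 := Nat.cast_ne_zero.2 Nat.card_pos.ne'
  rw [h1 Φ, h3, mul_div_assoc, div_self h4, mul_one]

section grp

variable {P Q : Type} [Group P] [Group Q] {p Nc : ℕ}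

/-- the isomorphism of the quotients -/
private theorem quo (π : P →* Q) (hπ : Function.Surjective π) (N : Subgroup P) [N.Normal]
    [(N.map π).Normal] (hN : π.ker ≤ N) :
    ∃ j : P ⧸ N ≃* Q ⧸ N.map π, ∀ x : P, j (x : P ⧸ N) = (π x : Q ⧸ N.map π) := by
  refine ⟨MulEquiv.ofBijective (QuotientGroup.map N (N.map π) π (Subgroup.le_comap_map π N))
    ⟨?_, ?_⟩, fun x => ?_⟩
  · rw [injective_iff_map_eq_one]
    intro x
    induction x using QuotientGroup.induction_on with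
    | H x =>
      intro h
      rw [QuotientGroup.map_mk, QuotientGroup.eq_one_iff] at h
      obtain ⟨y, hy, hxy⟩ := h
      rw [QuotientGroup.eq_one_iff]
      have h1 : y⁻¹ * x ∈ π.ker := by
        rw [MonoidHom.mem_ker, map_mul, map_inv, hxy, inv_mul_cancel]
      have h2 := N.mul_mem hy (hN h1)
      rwa [mul_inv_cancel_left] at h2
  · intro y
    induction y using QuotientGroup.induction_on with
    | H y =>
      obtain ⟨x, rfl⟩ := hπ y
      exact ⟨(x : P ⧸ N), rfl⟩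
  · rfl

/-- the map of the labels -/
private def vp (c : CL p Nc P) (π : P →* Q) (x : Px c) : Fin Nc × Q := (cid x, π x.1)

/-- the labels modulo the kernel -/
private def LSq (c : CL p Nc P) (_π : P →* Q) : LS Nc Q (Fin Nc × Q) :=
  ⟨Prod.snd, Prod.fst, fun _ => 1⟩

/-- the sums of the weights -/
private def Wq [Fintype P] (c : CL p Nc P) (π : P →* Q) (hπ : Function.Surjective π)
    (G : Px c → P → ℝ) (y : Fin Nc × Q) (z : Q) : ℝ :=
  ∑ x ∈ Finset.univ.filter (fun x : Px c => vp c π x = y), G x (Function.surjInv hπ z)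

end grp

section loc

variable {K : Type} [Field K] [NumberField K] {Ω : Type} [Field Ω] [Algebra K Ω]
  {p : ℕ} {ζ : K} {D : RD0 K p ζ} {P Q : Type} [Group P] [Group Q] {Nc : ℕ}

private theorem ev_map (A : GS D Ω) (π : P →* Q) (g : Pl K → P) (α : Fin A.g → P) :
    π.comp (ev A g α) = ev A (fun v => π (g v)) (fun i => π (α i)) := by
  refine FreeGroup.ext_hom _ _ fun x => ?_
  unfold ev
  rw [MonoidHom.comp_apply, FreeGroup.lift_apply_of, FreeGroup.lift_apply_of]
  rcases x with v | i <;> rfl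

private theorem lab_map (c : CL p Nc P) (π : P →* Q) (E : Finset (Pl K)) (e : Pl K → P)
    (f : Pl K → Option (Px c)) (v : Pl K) :
    π (lab E e (LSx c).val f v) =
      lab E (fun v => π (e v)) (Prod.snd : Fin Nc × Q → Q) (mp (vp c π) f) v := by
  unfold lab mp
  by_cases h : v ∈ E
  · rw [if_pos h, if_pos h]
  · rw [if_neg h, if_neg h]
    cases hf : f v with
    | none => exact map_one π
    | some x => rfl

private theorem ev_lab (A : GS D Ω) (c : CL p Nc P) (π : P →* Q) (E : Finset (Pl K))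
    (e : Pl K → P) (f : Pl K → Option (Px c)) (α : Fin A.g → P) :
    π.comp (ev A (lab E e (LSx c).val f) α) =
      ev A (lab E (fun v => π (e v)) (Prod.snd : Fin Nc × Q → Q) (mp (vp c π) f))
        (fun i => π (α i)) := by
  rw [ev_map]
  congr 1
  exact funext fun v => lab_map c π E e f v

private theorem hs_map (π : P →* Q) (hπ : Function.Surjective π) (N : Subgroup P) [N.Normal]
    [(N.map π).Normal] (hN : π.ker ≤ N) (L : LDs D Ω) (A : GS D Ω) (E n : Finset (Pl K))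
    (θ : FW A →* P) : Hs L A E N n θ ↔ Hs L A E (N.map π) n (π.comp θ) := by
  obtain ⟨j, hj⟩ := quo π hπ N hN
  have hj1 : j.toMonoidHom.comp (QuotientGroup.mk' N) = (QuotientGroup.mk' (N.map π)).comp π :=
    MonoidHom.ext fun x => hj x
  have hj2 : j.symm.toMonoidHom.comp ((QuotientGroup.mk' (N.map π)).comp π) =
      QuotientGroup.mk' N := by
    rw [← hj1]
    refine MonoidHom.ext fun x => ?_
    exact j.symm_apply_apply _
  constructor
  · rintro ⟨φ, h1, h2, h3⟩
    refine ⟨j.toMonoidHom.comp φ, h1.comp _, j.surjective.comp h2, ?_⟩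
    rw [hat_comp, h3, ← MonoidHom.comp_assoc, hj1, MonoidHom.comp_assoc]
  · rintro ⟨φ, h1, h2, h3⟩
    refine ⟨j.symm.toMonoidHom.comp φ, h1.comp _, j.symm.surjective.comp h2, ?_⟩
    rw [hat_comp, h3, ← MonoidHom.comp_assoc θ π (QuotientGroup.mk' (N.map π)),
      ← MonoidHom.comp_assoc, hj2]

private theorem cn_map (c : CL p Nc P) (π : P →* Q) (Z : Finset (Pl K)) (T : ℝ)
    (f : Pl K → Option (Px c)) (i : Fin Nc) :
    cn (LSx c).cls Z T f i = cn (Prod.fst : Fin Nc × Q → Fin Nc) Z T (mp (vp c π) f) i := by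
  unfold cn
  congr 1
  refine Finset.filter_congr fun v _ => ?_
  have h : (mp (vp c π) f v).map (Prod.fst : Fin Nc × Q → Fin Nc) = (f v).map (LSx c).cls := by
    unfold mp
    rw [Option.map_map]
    rfl
  rw [h]

private theorem sp_map {V Λ Λ' : Type} (Z : Finset V) (π : Λ → Λ') (f : V → Option Λ) :
    sp Z (mp π f) = sp Z f := by
  unfold sp mp
  refine Finset.filter_congr fun v _ => ?_
  rw [Ne, Ne, Option.map_eq_none_iff]

/-- the reduction of the labels modulo the kernel -/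
private theorem sa_red [Fintype P] [Fintype Q] (π : P →* Q) (hπ : Function.Surjective π)
    (N : Subgroup P) [N.Normal] [(N.map π).Normal] (hN : π.ker ≤ N) (c : CL p Nc P)
    (L : LDs D Ω) (A : GS D Ω) (X : Pl K → FW A) (R : Finset (Fin Nc)) (M : ℕ) (T : ℝ)
    (Zw E : Finset (Pl K)) (e : Pl K → P) (G V : Px c → P → ℝ)
    (hG : ∀ g x y, π x = π y → G g x = G g y) (hV : ∀ g x y, π x = π y → V g x = V g y) (Y : ℝ) :
    SAx (LSx c) L A X N R M T Zw E e G V Y =
      ((Nat.card (Fin A.g → P) : ℝ) / Nat.card (Fin A.g → Q)) *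
        SAx (LSq c π) L A X (N.map π) R M T Zw E (fun v => π (e v)) (Wq c π hπ G)
          (Wq c π hπ V) Y := by
  set Z := Zg D Zw E with hZ
  -- the local weights
  set a : (Fin A.g → Q) → (Pl K → Option (Fin Nc × Q)) → Pl K → Px c → ℝ := fun β f v x =>
    if RL (LSx c).cls R T v x then G x (Function.surjInv hπ
      (ev A (lab E (fun v => π (e v)) (LSq c π).val f) β (X v)))
    else V x (Function.surjInv hπ
      (ev A (lab E (fun v => π (e v)) (LSq c π).val f) β (X v))) with ha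
  set F : (Fin A.g → Q) → (Pl K → Option (Fin Nc × Q)) → ℝ := fun β f =>
    if Pat (LSq c π).cls R Z T M f ∧
      Hs L A E (N.map π) (sp Z f) (ev A (lab E (fun v => π (e v)) (LSq c π).val f) β) then
      psi (nc Z f / Y) else 0 with hF
  have h1 : ∀ f ∈ Cf Z (Px c), ∀ α : Fin A.g → P,
      (if Pat (LSx c).cls R Z T M f ∧
        Hs L A E N (sp Z f) (ev A (lab E e (LSx c).val f) α) then
        psi (nc Z f / Y) * om Z (fun v x =>
          if RL (LSx c).cls R T v x then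
            G x (ev A (lab E e (LSx c).val f) α (X v))
          else V x (ev A (lab E e (LSx c).val f) α (X v))) f
      else 0) = F (fun i => π (α i)) (mp (vp c π) f) *
        om Z (a (fun i => π (α i)) (mp (vp c π) f)) f := by
    intro f _ α
    have hev : π.comp (ev A (lab E e (LSx c).val f) α) =
        ev A (lab E (fun v => π (e v)) (LSq c π).val (mp (vp c π) f)) (fun i => π (α i)) :=
      ev_lab A c π E e f α
    have e1 : (Pat (LSx c).cls R Z T M f ∧
        Hs L A E N (sp Z f) (ev A (lab E e (LSx c).val f) α)) ↔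
        (Pat (LSq c π).cls R Z T M (mp (vp c π) f) ∧ Hs L A E (N.map π) (sp Z (mp (vp c π) f))
          (ev A (lab E (fun v => π (e v)) (LSq c π).val (mp (vp c π) f)) (fun i => π (α i)))) := by
      rw [sp_map, ← hev, ← hs_map π hπ N hN]
      refine and_congr_left fun _ => ?_
      unfold Pat
      refine forall_congr' fun i => ?_
      rw [cn_map c π]
      rfl
    have e2 : nc Z (mp (vp c π) f) = nc Z f := by
      unfold nc
      rw [sp_map]
    have e3 : om Z (fun v x =>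
          if RL (LSx c).cls R T v x then
            G x (ev A (lab E e (LSx c).val f) α (X v))
          else V x (ev A (lab E e (LSx c).val f) α (X v))) f = om Z (a (fun i => π (α i)) (mp (vp c π) f)) f := by
      congr 1
      funext v x
      rw [ha]
      beta_reduce
      split_ifs with hRL
      · refine hG _ _ _ ?_
        rw [Function.surjInv_eq hπ, ← hev]
        rfl
      · refine hV _ _ _ ?_
        rw [Function.surjInv_eq hπ, ← hev]
        rfl
    rw [hF]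
    beta_reduce
    rw [e3, e2]
    by_cases h : Pat (LSx c).cls R Z T M f ∧
        Hs L A E N (sp Z f) (ev A (lab E e (LSx c).val f) α)
    · rw [if_pos h, if_pos (e1.1 h)]
    · rw [if_neg h, if_neg (fun h' => h (e1.2 h')), zero_mul]
  have h2 : SAx (LSx c) L A X N R M T Zw E e G V Y = ∑ α : Fin A.g → P,
      ∑ f ∈ Cf Z (Fin Nc × Q), F (fun i => π (α i)) f *
        om Z (fun v y => ∑ x ∈ Finset.univ.filter (fun x => vp c π x = y),
          a (fun i => π (α i)) f v x) f := by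
    unfold SAx
    rw [Finset.sum_comm]
    refine Finset.sum_congr rfl fun α _ => ?_
    refine (Finset.sum_congr rfl fun f hf => h1 f hf α).trans
      ((cf_fib Z (vp c π) (F fun i => π (α i)) (a fun i => π (α i))).trans ?_)
    refine Finset.sum_congr rfl fun f _ => ?_
    congr!
  have h3 : SAx (LSq c π) L A X (N.map π) R M T Zw E (fun v => π (e v)) (Wq c π hπ G)
      (Wq c π hπ V) Y =
      ∑ β : Fin A.g → Q, ∑ f ∈ Cf Z (Fin Nc × Q), F β f *
        om Z (fun v y => ∑ x ∈ Finset.univ.filter (fun x => vp c π x = y), a β f v x) f := by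
    unfold SAx
    rw [Finset.sum_comm]
    refine Finset.sum_congr rfl fun β _ => Finset.sum_congr rfl fun f _ => ?_
    have e3 : om Z (fun v x =>
          if RL (LSq c π).cls R T v x then
            Wq c π hπ G x (ev A (lab E (fun v => π (e v)) (LSq c π).val f) β (X v))
          else Wq c π hπ V x (ev A (lab E (fun v => π (e v)) (LSq c π).val f) β (X v))) f =
        om Z (fun v y => ∑ x ∈ Finset.univ.filter (fun x => vp c π x = y), a β f v x) f := by
      congr 1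
      funext v y
      have h4 : ∀ x ∈ Finset.univ.filter (fun x : Px c => vp c π x = y),
          (RL (LSx c).cls R T v x ↔ RL (LSq c π).cls R T v y) := by
        intro x hx
        rw [← (Finset.mem_filter.1 hx).2]
        rfl
      split_ifs with hRL
      · unfold Wq
        refine Finset.sum_congr rfl fun x hx => ?_
        rw [ha]
        beta_reduce
        rw [if_pos ((h4 x hx).2 hRL)]
      · unfold Wq
        refine Finset.sum_congr rfl fun x hx => ?_
        rw [ha]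
        beta_reduce
        rw [if_neg fun h => hRL ((h4 x hx).1 h)]
    rw [e3, hF]
    beta_reduce
    by_cases h : Pat (LSq c π).cls R Z T M f ∧
      Hs L A E (N.map π) (sp Z f) (ev A (lab E (fun v => π (e v)) (LSq c π).val f) β)
    · rw [if_pos h, if_pos h]
    · rw [if_neg h, if_neg h, zero_mul]
  rw [h2, h3]
  exact sum_hom (MonoidHom.pi fun i => π.comp (Pi.evalMonoidHom (fun _ : Fin A.g => P) i))
    (fun β => ⟨fun i => Function.surjInv hπ (β i), funext fun i => Function.surjInv_eq hπ (β i)⟩)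
    (fun β => ∑ f ∈ Cf Z (Fin Nc × Q), F β f *
        om Z (fun v y => ∑ x ∈ Finset.univ.filter (fun x => vp c π x = y), a β f v x) f)

end loc

section wok

variable {P Q : Type} [Group P] [Group Q] {p Nc : ℕ}

private theorem gd_ker [Fintype P] (π : P →* Q) (N : Subgroup P) (k : ℕ) (hk : π.ker ≤ Nk N k)
    (g x y : P) (h : π x = π y) : Gd N k g x = Gd N k g y := by
  have h1 : x⁻¹ * y ∈ Nk N k := by
    refine hk ?_
    rw [MonoidHom.mem_ker, map_mul, map_inv, h, inv_mul_cancel]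
  have h2 := gd_inv N k g x _ h1
  rwa [mul_inv_cancel_left, eq_comm] at h2

private theorem nr_mem (c : CL p Nc P) (R : Finset (Fin Nc)) (x : Px c) (h : cid x ∈ R) :
    x.1 ∈ NR c R := Subgroup.subset_normalClosure ⟨cid x, h, cid_spec x⟩

private theorem px_pow (c : CL p Nc P) (x : Px c) : x.1 ^ p = 1 := by
  obtain ⟨i, hi⟩ := x.2
  obtain ⟨a, ha⟩ := isConj_iff.1 hi.symm
  rw [← ha, conj_pow, c.pow, mul_one, mul_inv_cancel]

private theorem wq_ne [Fintype P] (c : CL p Nc P) (π : P →* Q) (hπ : Function.Surjective π)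
    (G : Px c → P → ℝ) (y : Fin Nc × Q) (z : Q) (h : Wq c π hπ G y z ≠ 0) :
    ∃ x : Px c, cid x = y.1 ∧ π x.1 = y.2 ∧ G x (Function.surjInv hπ z) ≠ 0 := by
  obtain ⟨x, hx, hx2⟩ := Finset.exists_ne_zero_of_sum_ne_zero h
  have h1 := (Finset.mem_filter.1 hx).2
  exact ⟨x, congrArg Prod.fst h1, congrArg Prod.snd h1, hx2⟩

private theorem px_card [Fintype P] (c : CL p Nc P) (s : Finset (Px c)) :
    (s.card : ℝ) ≤ Nat.card P := by
  rw [Nat.cast_le]
  refine (Finset.card_le_univ s).trans ?_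
  rw [← Nat.card_eq_fintype_card]
  exact Nat.card_le_card_of_injective _ Subtype.val_injective

/-- the weights `ω · Gd` -/
def WG [Fintype P] (c : CL p Nc P) (N : Subgroup P) [N.Normal] (ω : Px c → P ⧸ N → ℝ) (k : ℕ)
    (x : Px c) (y : P) : ℝ := ω x (y : P ⧸ N) * Gd N k x.1 y

/-- `ω` is invariant under conjugation of the label by `N` -/
def OI (c : CL p Nc P) (N : Subgroup P) [N.Normal] (ω : Px c → P ⧸ N → ℝ) : Prop :=
  ∀ (x x' : Px c) (u : P) (q : P ⧸ N), u ∈ N → x'.1 = u * x.1 * u⁻¹ → ω x' q = ω x q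

theorem wg_bd [Fintype P] (c : CL p Nc P) (N : Subgroup P) [N.Normal] (ω : Px c → P ⧸ N → ℝ)
    (hω : ∀ i q, 0 ≤ ω i q ∧ ω i q ≤ 1) (k : ℕ) (x : Px c) (y : P) :
    0 ≤ WG c N ω k x y ∧ WG c N ω k x y ≤ 1 := by
  unfold WG
  exact ⟨mul_nonneg (hω _ _).1 (gd_nonneg _ _ _ _),
    mul_le_one₀ (hω _ _).2 (gd_nonneg _ _ _ _) (gd_le_one _ _ _ _)⟩

theorem wg_ker [Fintype P] (c : CL p Nc P) (π : P →* Q) (N : Subgroup P) [N.Normal]
    (ω : Px c → P ⧸ N → ℝ) (k : ℕ) (hN : π.ker ≤ N) (hk : π.ker ≤ Nk N k) (g : Px c) (x y : P)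
    (h : π x = π y) : WG c N ω k g x = WG c N ω k g y := by
  unfold WG
  rw [gd_ker π N k hk g.1 x y h]
  congr 2
  refine QuotientGroup.eq.2 (hN ?_)
  rw [MonoidHom.mem_ker, map_mul, map_inv, h, inv_mul_cancel]

theorem wg_gd [Fintype P] (c : CL p Nc P) (N : Subgroup P) [N.Normal] (ω : Px c → P ⧸ N → ℝ)
    (k : ℕ) (x : Px c) (y : P) (h : WG c N ω k x y ≠ 0) : Gd N k x.1 y ≠ 0 := by
  unfold WG at h
  exact right_ne_zero_of_mul h

private theorem wq_bd [Fintype P] (c : CL p Nc P) (π : P →* Q) (hπ : Function.Surjective π)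
    (G : Px c → P → ℝ) (hG : ∀ x y, 0 ≤ G x y ∧ G x y ≤ 1) (y : Fin Nc × Q) (z : Q) :
    0 ≤ Wq c π hπ G y z ∧ Wq c π hπ G y z ≤ Nat.card P := by
  refine ⟨Finset.sum_nonneg fun x _ => (hG _ _).1, ?_⟩
  refine le_trans (Finset.sum_le_sum fun x _ => (hG x _).2) ?_
  rw [Finset.sum_const, nsmul_eq_mul, mul_one]
  exact px_card c _

open scoped commutatorElement in
private theorem wok [Fintype P] (c : CL p Nc P) (R : Finset (Fin Nc)) (π : P →* Q)
    (hπ : Function.Surjective π) [((NR c R).map π).Normal] (k : ℕ)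
    (hk : π.ker = Nk (NR c R) (k + 1)) (ω : Px c → P ⧸ NR c R → ℝ)
    (hω : ∀ i q, 0 ≤ ω i q ∧ ω i q ≤ 1) (hωN : OI c (NR c R) ω) :
    WOk p (LSq c π) ((NR c R).map π) k R (Wq c π hπ (WG c (NR c R) ω (k + 1)))
      (Nat.card P) := by
  have hkN : π.ker ≤ NR c R := by
    rw [hk]
    exact nk_anti (NR c R) (Nat.zero_le _)
  have hker : ∀ (g : Px c) (x y : P), π x = π y →
      WG c (NR c R) ω (k + 1) g x = WG c (NR c R) ω (k + 1) g y :=
    fun g x y h => wg_ker c π (NR c R) ω (k + 1) hkN hk.le g x y h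
  refine ⟨?_, fun y => ⟨zero_le_one, Nat.one_le_cast.2 Nat.card_pos⟩, fun y z => ⟨?_, ?_⟩,
    ?_, ?_, ?_, ?_⟩
  · exact Nat.one_le_cast.2 Nat.card_pos
  · exact (wq_bd c π hπ _ (wg_bd c _ ω hω _) y z).1
  · exact (wq_bd c π hπ _ (wg_bd c _ ω hω _) y z).2
  · rintro y hy ⟨z, hz⟩
    obtain ⟨x, hx1, hx2, -⟩ := wq_ne c π hπ _ y z hz
    have h1 : cid x ∈ R := by
      rw [hx1]
      exact hy
    refine ⟨?_, ?_⟩
    · change y.2 ∈ (NR c R).map π
      rw [← hx2]
      exact Subgroup.mem_map_of_mem π (nr_mem c R x h1)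
    · change y.2 ^ p = 1
      rw [← hx2, ← map_pow, px_pow, map_one]
  · intro y hy z hz w
    rw [nk_map] at hz
    obtain ⟨z0, hz0, rfl⟩ := hz
    unfold Wq
    set w0 := Function.surjInv hπ w with hw0
    have hw : π w0 = w := Function.surjInv_eq hπ w
    -- conjugation by `z0` on the labels
    have hc : ∀ x : Px c, ∀ t : P, ∃ i, IsConj (t * x.1 * t⁻¹) (c.g i) := fun x t =>
      ⟨cid x, IsConj.trans (isConj_iff.2 ⟨t⁻¹, by group⟩) (cid_spec x)⟩
    have hcid : ∀ (x : Px c) (t : P), cid (⟨t * x.1 * t⁻¹, hc x t⟩ : Px c) = cid x := by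
      intro x t
      rw [cid_iff]
      exact IsConj.trans (isConj_iff.2 ⟨t⁻¹, by group⟩) (cid_spec x)
    have hvp : ∀ x : Px c, ∀ t ∈ Nk (NR c R) k, cid x ∈ R →
        vp c π (⟨t * x.1 * t⁻¹, hc x t⟩ : Px c) = vp c π x := by
      intro x t ht hx
      unfold vp
      rw [hcid]
      congr 1
      have h1 : ⁅t, x.1⁆ ∈ Nk (NR c R) (k + 1) :=
        Subgroup.commutator_mem_commutator ht (nr_mem c R x hx)
      rw [← hk, MonoidHom.mem_ker, commutatorElement_def, map_mul, map_inv] at h1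
      exact mul_inv_eq_one.1 h1
    refine Eq.symm (Finset.sum_bij' (fun x _ => (⟨z0 * x.1 * z0⁻¹, hc x z0⟩ : Px c))
      (fun x _ => (⟨z0⁻¹ * x.1 * z0⁻¹⁻¹, hc x z0⁻¹⟩ : Px c)) ?_ ?_ ?_ ?_ ?_)
    · intro x hx
      rw [Finset.mem_filter] at hx ⊢
      refine ⟨Finset.mem_univ _, ?_⟩
      rw [hvp x z0 hz0 ?_, hx.2]
      have h1 := congrArg Prod.fst hx.2
      change cid x = y.1 at h1
      rw [h1]
      exact hy
    · intro x hx
      rw [Finset.mem_filter] at hx ⊢
      refine ⟨Finset.mem_univ _, ?_⟩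
      rw [hvp x z0⁻¹ ((Nk (NR c R) k).inv_mem hz0) ?_, hx.2]
      have h1 := congrArg Prod.fst hx.2
      change cid x = y.1 at h1
      rw [h1]
      exact hy
    · intro x _
      refine Subtype.ext ?_
      change z0⁻¹ * (z0 * x.1 * z0⁻¹) * z0⁻¹⁻¹ = x.1
      group
    · intro x _
      refine Subtype.ext ?_
      change z0 * (z0⁻¹ * x.1 * z0⁻¹⁻¹) * z0⁻¹ = x.1
      group
    · intro x _
      have h5 : WG c (NR c R) ω (k + 1) x w0 =
          WG c (NR c R) ω (k + 1) ⟨z0 * x.1 * z0⁻¹, hc x z0⟩ (z0 * w0 * z0⁻¹) := by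
        unfold WG
        rw [gd_conj (NR c R) (k + 1) z0 x.1 w0,
          hωN x ⟨z0 * x.1 * z0⁻¹, hc x z0⟩ z0 _ (nk_anti (NR c R) (Nat.zero_le k) hz0) rfl]
        congr 2
        have h6 : ((z0 : P) : P ⧸ NR c R) = 1 :=
          (QuotientGroup.eq_one_iff _).2 (nk_anti (NR c R) (Nat.zero_le k) hz0)
        rw [QuotientGroup.mk_mul, QuotientGroup.mk_mul, QuotientGroup.mk_inv, h6, one_mul,
          inv_one, mul_one]
      change WG c (NR c R) ω (k + 1) x w0 = WG c (NR c R) ω (k + 1) ⟨z0 * x.1 * z0⁻¹, hc x z0⟩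
        (Function.surjInv hπ (π z0 * w * (π z0)⁻¹))
      rw [h5]
      refine hker _ _ _ ?_
      rw [Function.surjInv_eq hπ, map_mul, map_mul, map_inv, hw]
  · intro y z hy hz
    obtain ⟨x, hx1, hx2, hx3⟩ := wq_ne c π hπ _ y z hz
    have h1 : cid x ∈ R := by
      rw [hx1]
      exact hy
    have h2 := gd_fix (NR c R) (k + 1) x.1 _ (nr_mem c R x h1) (wg_gd c _ ω _ _ _ hx3)
    rw [nk_map]
    refine ⟨_, h2, ?_⟩
    change π _ = z * y.2 * z⁻¹ * y.2⁻¹
    rw [← hx2, map_mul, map_mul, map_mul, map_inv, map_inv, Function.surjInv_eq hπ]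
  · intro s hs
    refine le_trans ?_ le_sup_left
    rw [Subgroup.map_le_iff_le_comap]
    refine Subgroup.normalClosure_le_normal ?_
    rintro x ⟨i, hi, hx⟩
    obtain ⟨hs1, z, hz⟩ := hs i hi
    obtain ⟨g, hg1, hg2, -⟩ := wq_ne c π hπ _ (s i) z hz
    have h1 : cid g = i := hg1.trans hs1
    have h2 : IsConj g.1 x := (cid_spec g).trans (by rw [h1]; exact hx.symm)
    obtain ⟨a, ha⟩ := isConj_iff.1 h2
    change π x ∈ Subgroup.normalClosure _
    rw [← ha, map_mul, map_mul, map_inv]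
    refine Subgroup.normalClosure_normal.conj_mem _ ?_ _
    rw [hg2]
    exact Subgroup.subset_normalClosure ⟨i, hi, rfl⟩

private theorem wav_q [Fintype P] [Fintype Q] (c : CL p Nc P) (N : Subgroup P) [N.Normal]
    (π : P →* Q) (hπ : Function.Surjective π) (k : ℕ) (hk : π.ker = Nk N (k + 1))
    (ω : Px c → P ⧸ N → ℝ) (y : Fin Nc × Q) (z : Q) :
    wav (N.map π) k (Wq c π hπ (WG c N ω (k + 1)) y) z =
      Wq c π hπ (WG c N ω k) y z := by
  unfold wav Wq
  rw [Finset.sum_comm, Finset.sum_div]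
  refine Finset.sum_congr rfl fun x _ => ?_
  have hom : ∀ u : Nk (N.map π) k, WG c N ω (k + 1) x (Function.surjInv hπ (z * u)) =
      ω x (Function.surjInv hπ z : P) * Gd N (k + 1) x.1 (Function.surjInv hπ (z * u)) := by
    intro u
    unfold WG
    congr 2
    have h0 : (u : Q) ∈ (Nk N k).map π := by
      have h00 := u.2
      exact (nk_map π N k) ▸ h00
    obtain ⟨u0, hu0, hu1⟩ := h0
    have h1 : (Function.surjInv hπ (z * u))⁻¹ * (Function.surjInv hπ z * u0) ∈ N := by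
      refine (hk.le.trans (nk_anti N (Nat.zero_le _))) ?_
      rw [MonoidHom.mem_ker, map_mul, map_inv, map_mul, Function.surjInv_eq hπ,
        Function.surjInv_eq hπ, hu1, inv_mul_cancel]
    have h2 : ((u0 : P) : P ⧸ N) = 1 :=
      (QuotientGroup.eq_one_iff u0).2 (nk_anti N (Nat.zero_le k) hu0)
    rw [QuotientGroup.eq.2 h1, QuotientGroup.mk_mul, h2, mul_one]
  rw [Finset.sum_congr rfl fun u _ => hom u, ← Finset.mul_sum, mul_div_assoc]
  unfold WG
  congr 1
  beta_reduce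
  rw [gd_avg N k x.1 (Function.surjInv hπ z)]
  have h1 : (Nk N k).map π = Nk (N.map π) k := (nk_map π N k).symm
  set r : Nk N k →* Nk (N.map π) k :=
    (MulEquiv.subgroupCongr h1).toMonoidHom.comp (π.subgroupMap (Nk N k)) with hr
  have hr1 : ∀ u : Nk N k, (r u : Q) = π u := fun u => rfl
  have hr2 : Function.Surjective r :=
    (MulEquiv.subgroupCongr h1).surjective.comp (π.subgroupMap_surjective (Nk N k))
  have h2 := sum_hom r hr2
    (fun u : Nk (N.map π) k => Gd N (k + 1) x.1 (Function.surjInv hπ (z * u)))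
  have h3 : ∑ u : Nk N k, Gd N (k + 1) x.1 (Function.surjInv hπ (z * (r u : Q))) =
      ∑ u : Nk N k, Gd N (k + 1) x.1 (Function.surjInv hπ z * u) := by
    refine Finset.sum_congr rfl fun u _ => ?_
    refine gd_ker π N (k + 1) hk.le _ _ _ ?_
    rw [Function.surjInv_eq hπ, map_mul, Function.surjInv_eq hπ, hr1]
  rw [← h3, h2]
  have h4 : (Nat.card (Nk N k) : ℝ) ≠ 0 := Nat.cast_ne_zero.2 Nat.card_pos.ne'
  have h5 : (Nat.card (Nk (N.map π) k) : ℝ) ≠ 0 := Nat.cast_ne_zero.2 Nat.card_pos.ne'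
  field_simp

end wok

private theorem le_q {P Q : Type} [Group P] [Group Q] [Fintype P] [Fintype Q] {p Nc : ℕ}
    [NeZero p] (hp : p.Prime) (π : P →* Q) (hπ : Function.Surjective π) (N : Subgroup Q)
    [N.Normal] (k : ℕ) (hn : Nk N (k + 1) = ⊥) (hV : ∀ u ∈ Nk N k, u ^ p = 1) :
    Fintype.card (Le p (Fin Nc × Q) N k) ≤ Nc * Nat.card P ^ 3 := by
  have h1 : Nat.card Q ≤ Nat.card P := Nat.card_le_card_of_surjective π hπ
  have h2 : Nat.card (Q ⧸ N) ≤ Nat.card P :=
    (Nat.card_le_card_of_surjective _ (QuotientGroup.mk'_surjective N)).trans h1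
  have h3 : Nat.card (Nk N k) ≤ Nat.card P :=
    (Nat.card_le_card_of_injective _ Subtype.val_injective).trans h1
  rw [← Nat.card_eq_fintype_card, Nat.card_prod, Nat.card_prod, Nat.card_prod,
    Nat.card_eq_fintype_card (α := Xc p N k), xc_card hp N k hn hV, Nat.card_eq_fintype_card
    (α := Fin Nc), Fintype.card_fin]
  calc Nc * Nat.card Q * (Nat.card (Q ⧸ N) * Nat.card (Nk N k))
      ≤ Nc * Nat.card P * (Nat.card P * Nat.card P) :=
        Nat.mul_le_mul (Nat.mul_le_mul le_rfl h1) (Nat.mul_le_mul h2 h3)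
    _ = Nc * Nat.card P ^ 3 := by ring

section main

variable {K : Type} [Field K] [NumberField K] {Ω : Type} [Field Ω] [Algebra K Ω]
  {p : ℕ} [NeZero p] {ζ : K} {P Q : Type} [Group P] [Group Q] [Fintype P] [Fintype Q] {Nc : ℕ}

private theorem stpx_q (hp : p.Prime) (D : RD0 K p ζ) (A : GS D Ω)
    (c : CL p Nc P) (R : Finset (Fin Nc)) (k M : ℕ) (π : P →* Q) (hπ : Function.Surjective π)
    [((NR c R).map π).Normal] (hk : π.ker = Nk (NR c R) (k + 1))
    (hM : (k + 2) * (Nc * Nat.card P ^ 3) ≤ M) (ω : Px c → P ⧸ NR c R → ℝ)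
    (hω : ∀ i q, 0 ≤ ω i q ∧ ω i q ≤ 1) (hωN : OI c (NR c R) ω) (V : Px c → P → ℝ) (hV0 : ∀ x y, 0 ≤ V x y ∧ V x y ≤ 1)
    (hVK : ∀ (g : Px c) (x y : P), π x = π y → V g x = V g y) (A₁ A₂ ε : ℝ) (hε : 0 < ε) (hε1 : ε < 1) :
    ∃ C C₁ A₀ Y₀ : ℝ, 1 ≤ C ∧ 2 ≤ C₁ ∧ 0 ≤ A₀ ∧ 3 ≤ Y₀ ∧ ∀ C₁' A₀' : ℝ, C₁ ≤ C₁' → A₀ ≤ A₀' →
      ∀ Y : ℝ, Y₀ ≤ Y → ∀ (L : LDs D Ω) (X : Pl K → FW A) (Zw E : Finset (Pl K)) (e : Pl K → P),
      EOk A₁ Y Zw E → BLatX L A X Zw E ((NR c R).map π) k C₁' A₀' ε Y →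
      SAx (LSx c) L A X (NR c R) R M (T0 ε Y) Zw E e (WG c (NR c R) ω (k + 1)) V Y ≤
        C * SAx (LSx c) L A X (NR c R) R M (T0 ε Y) Zw E e (WG c (NR c R) ω k) V Y +
          Y * Real.log Y ^ (-A₂) := by
  have hn : Nk ((NR c R).map π) (k + 1) = ⊥ := by
    rw [nk_map, ← hk]
    exact (Subgroup.map_eq_bot_iff _).2 le_rfl
  have hcl : (NR c R).map π = Subgroup.closure {x | x ∈ (NR c R).map π ∧ x ^ p = 1} := by
    refine le_antisymm ?_ ?_
    · conv_lhs => rw [nr_cl c R]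
      rw [MonoidHom.map_closure]
      refine Subgroup.closure_mono ?_
      rintro _ ⟨x, ⟨hx1, hx2⟩, rfl⟩
      refine ⟨Subgroup.mem_map_of_mem π hx1, ?_⟩
      rw [← map_pow, hx2, map_one]
    · rw [Subgroup.closure_le]
      exact fun x hx => hx.1
  have hV := nk_exp ((NR c R).map π) k hn hcl
  have hker : π.ker ≤ NR c R := by
    rw [hk]
    exact nk_anti (NR c R) (Nat.zero_le _)
  obtain ⟨C, C₁, A₀, Y₀, h1, h2, h3, h4, h⟩ := alsx hp D A (LSq c π) ((NR c R).map π) hn hV R M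
    ((Nat.mul_le_mul le_rfl (le_q hp π hπ _ k hn hV)).trans hM)
    (Wq c π hπ (WG c (NR c R) ω (k + 1))) (Wq c π hπ V) (Nat.card P) (wok c R π hπ k hk ω hω hωN)
    (fun y z => wq_bd c π hπ V hV0 y z) A₁ (A₂ + 1) ε hε hε1
  set κ : ℝ := (Nat.card (Fin A.g → P) : ℝ) / Nat.card (Fin A.g → Q) with hκ
  have hκ0 : 0 ≤ κ := div_nonneg (Nat.cast_nonneg _) (Nat.cast_nonneg _)
  refine ⟨C, C₁, A₀, max Y₀ (Real.exp κ), h1, h2, h3, h4.trans (le_max_left _ _), ?_⟩
  intro C₁' A₀' hC hA Y hY L X Zw E e hE hB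
  have hY0 : Y₀ ≤ Y := (le_max_left _ _).trans hY
  have hY1 : Real.exp κ ≤ Y := (le_max_right _ _).trans hY
  have hYp : 0 < Y := by linarith
  have hl1 : κ ≤ Real.log Y := (Real.le_log_iff_exp_le hYp).2 hY1
  have hl0 : 0 < Real.log Y := Real.log_pos (by linarith)
  have h5 := h C₁' A₀' hC hA Y hY0 L X Zw E (fun v => π (e v)) hE hB
  have h6 : (fun y => wav ((NR c R).map π) k
      (Wq c π hπ (WG c (NR c R) ω (k + 1)) y)) = Wq c π hπ (WG c (NR c R) ω k) := by
    funext y z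
    exact wav_q c (NR c R) π hπ k hk ω y z
  rw [h6] at h5
  rw [sa_red π hπ (NR c R) hker c L A X R M (T0 ε Y) Zw E e
      (WG c (NR c R) ω (k + 1)) V (fun g x y h => wg_ker c π _ ω _ hker hk.le _ _ _ h) hVK Y,
    sa_red π hπ (NR c R) hker c L A X R M (T0 ε Y) Zw E e
      (WG c (NR c R) ω k) V
      (fun g x y h => wg_ker c π _ ω _ hker (hk.le.trans (nk_le (NR c R) k)) _ _ _ h) hVK Y,
    ← hκ]
  have h7 : Y * Real.log Y ^ (-A₂) = Real.log Y * (Y * Real.log Y ^ (-(A₂ + 1))) := by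
    have h8 : Real.log Y ^ (-A₂) = Real.log Y ^ (-(A₂ + 1)) * Real.log Y := by
      rw [← Real.rpow_add_one hl0.ne']
      congr 1
      ring
    rw [h8]
    ring
  have h9 : 0 ≤ Y * Real.log Y ^ (-(A₂ + 1)) :=
    mul_nonneg hYp.le (Real.rpow_nonneg hl0.le _)
  rw [h7]
  have h10 := mul_le_mul_of_nonneg_left h5 hκ0
  have h11 := mul_le_mul_of_nonneg_right hl1 h9
  refine h10.trans ?_
  rw [mul_add]
  refine add_le_add (le_of_eq (by ring)) ?_
  linarith

end main

variable {K : Type} [Field K] [NumberField K] {Ω : Type} [Field Ω] [Algebra K Ω]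
  {p : ℕ} [NeZero p] {ζ : K} {P : Type} [Group P] [Fintype P] {Nc : ℕ}

theorem stpx (hp : p.Prime) (D : RD0 K p ζ) (A : GS D Ω)
    (c : CL p Nc P) (R : Finset (Fin Nc)) (k M : ℕ)
    (hM : (k + 2) * (Nc * Nat.card P ^ 3) ≤ M) (ω : Px c → P ⧸ NR c R → ℝ)
    (hω : ∀ i q, 0 ≤ ω i q ∧ ω i q ≤ 1) (hωN : OI c (NR c R) ω) (V : Px c → P → ℝ) (hV0 : ∀ x y, 0 ≤ V x y ∧ V x y ≤ 1)
    (hVK : ∀ (g : Px c) (x : P), ∀ u ∈ Nk (NR c R) (k + 1), V g (x * u) = V g x) (A₁ A₂ ε : ℝ) (hε : 0 < ε) (hε1 : ε < 1) :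
    ∃ C C₁ A₀ Y₀ : ℝ, 1 ≤ C ∧ 2 ≤ C₁ ∧ 0 ≤ A₀ ∧ 3 ≤ Y₀ ∧ ∀ C₁' A₀' : ℝ, C₁ ≤ C₁' → A₀ ≤ A₀' →
      ∀ Y : ℝ, Y₀ ≤ Y → ∀ (L : LDs D Ω) (X : Pl K → FW A) (Zw E : Finset (Pl K)) (e : Pl K → P),
      EOk A₁ Y Zw E →
      BLatX L A X Zw E ((NR c R).map (QuotientGroup.mk' (Nk (NR c R) (k + 1)))) k C₁' A₀' ε Y →
      SAx (LSx c) L A X (NR c R) R M (T0 ε Y) Zw E e (WG c (NR c R) ω (k + 1)) V Y ≤
        C * SAx (LSx c) L A X (NR c R) R M (T0 ε Y) Zw E e (WG c (NR c R) ω k) V Y +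
          Y * Real.log Y ^ (-A₂) :=
  stpx_q hp D A c R k M (QuotientGroup.mk' (Nk (NR c R) (k + 1)))
    (QuotientGroup.mk'_surjective _) (QuotientGroup.ker_mk' _) hM ω hω hωN V hV0
    (fun g x y h => by
      have h1 : x⁻¹ * y ∈ Nk (NR c R) (k + 1) := QuotientGroup.eq.1 h
      have h2 := hVK g x _ h1
      rwa [mul_inv_cancel_left, eq_comm] at h2) A₁ A₂ ε hε hε1

end H35.UX
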