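import Pool.Agent.H35.UB.Fin

/-!
# H35-UX-SIM: a change of the places above the primes (MP_b39724_nt)

The types, the unramified primes and `PU` do not change (as in H35/UB/Fin).
-/

set_option autoImplicit false

open scoped NumberField
open IsDedekindDomain
open scoped Classical

noncomputable section

namespace H35.UX

open H38.ML H63.MA H38.BB H38.BG H57.PC H57.BRA H77.WD H77.WE H77.PC3 H35.CF H35.UB H77.PLF

section sim

variable {K : Type} [Field K] [NumberField K] {Ω : Type} [Field Ω] [Algebra K Ω]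
  {p : ℕ} {ζ : K} {D : RD0 K p ζ} {P : Type} [Group P] {Nc : ℕ}

omit [NumberField K] in
theorem sim_cj (φ : Gal(Ω/K) →* P) (s τ : Gal(Ω/K)) :
    φ τ = φ s * φ (s⁻¹ * τ * s) * (φ s)⁻¹ := by
  rw [map_mul, map_mul, map_inv]
  group

theorem sim_ur {L₀ L : LDs D Ω} (h : SimL L₀ L) {v : Pl K} (hv : v ∉ D.S0)
    (φ : Gal(Ω/K) →* P) : (∀ τ ∈ inr L v, φ τ = 1) ↔ ∀ τ ∈ inr L₀ v, φ τ = 1 := by
  obtain ⟨s, -, h2⟩ := h v hv
  constructor
  · intro h1 τ hτ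
    have h3 : s * τ * s⁻¹ ∈ inr L v := by
      rw [h2]
      have : s⁻¹ * (s * τ * s⁻¹) * s = τ := by group
      rw [this]
      exact hτ
    have h4 := h1 _ h3
    rw [map_mul, map_mul, map_inv] at h4
    have h5 : φ τ = (φ s)⁻¹ * (φ s * φ τ * (φ s)⁻¹) * φ s := by group
    rw [h5, h4]
    group
  · intro h1 τ hτ
    rw [sim_cj φ s τ, h1 _ ((h2 τ).1 hτ)]
    group

theorem sim_pw {L₀ L : LDs D Ω} (h : SimL L₀ L) {v : Pl K} (hv : v ∉ D.S0)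
    (φ : Gal(Ω/K) →* P) : (∀ τ ∈ inr L v, φ τ ^ p = 1) ↔ ∀ τ ∈ inr L₀ v, φ τ ^ p = 1 := by
  obtain ⟨s, -, h2⟩ := h v hv
  constructor
  · intro h1 τ hτ
    have h3 : s * τ * s⁻¹ ∈ inr L v := by
      rw [h2]
      have : s⁻¹ * (s * τ * s⁻¹) * s = τ := by group
      rw [this]
      exact hτ
    have h4 := h1 _ h3
    rw [map_mul, map_mul, map_inv, conj_pow] at h4
    have h5 : φ τ ^ p = (φ s)⁻¹ * (φ s * φ τ ^ p * (φ s)⁻¹) * φ s := by group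
    rw [h5, h4]
    group
  · intro h1 τ hτ
    rw [sim_cj φ s τ, conj_pow, h1 _ ((h2 τ).1 hτ)]
    group

theorem sim_ty {L₀ L : LDs D Ω} (h : SimL L₀ L) (c : CL p Nc P) (φ : Gal(Ω/K) →* P)
    (i : Fin Nc) (v : Pl K) : TyC c L φ i v ↔ TyC c L₀ φ i v := by
  unfold TyC
  refine and_congr_right fun hG => ?_
  refine and_congr ?_ (sim_pw h hG.1 φ)
  obtain ⟨s, h1, -⟩ := h v hG.1
  have h3 : IsConj (φ (L₀.t v)) (φ (L.t v)) := by
    rw [isConj_iff]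
    refine ⟨φ s, ?_⟩
    rw [h1, map_mul, map_mul, map_inv]
  exact ⟨fun h4 => h3.trans h4, fun h4 => h3.symm.trans h4⟩

theorem sim_tyn {L₀ L : LDs D Ω} (h : SimL L₀ L) (c : CL p Nc P) (E : Finset (Pl K))
    (T : ℝ) (φ : Gal(Ω/K) →* P) (i : Fin Nc) : tyn L c E T φ i = tyn L₀ c E T φ i := by
  unfold tyn
  simp only [sim_ty h c φ i]

theorem sim_pu {L₀ L : LDs D Ω} (h : SimL L₀ L) (c : CL p Nc P) (E : Finset (Pl K))
    (Y : ℝ) (φ : Gal(Ω/K) →* P) (hφ : φ ∈ PU L₀ c E Y) : φ ∈ PU L c E Y := by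
  obtain ⟨h1, h2, h3, h4⟩ := hφ
  refine ⟨h1, h2, fun v hv hE => ?_, fun T hT => h4 T fun v hv => ?_⟩
  · rcases h3 v hv hE with h5 | ⟨i, hi⟩
    · exact Or.inl ((sim_ur h hv φ).2 h5)
    · exact Or.inr ⟨i, (sim_ty h c φ i v).2 hi⟩
  · obtain ⟨h5, h6, h7⟩ := hT v hv
    exact ⟨h5, h6, fun h8 => h7 ((sim_ur h h5 φ).2 h8)⟩

end sim

end H35.UX
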