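import Pool.Agent.H35.CF.Ins

/-!
# H35-UX-INS: symmetrised insertion, single occurrences

`cf_symx`: as `cf_sym` (CF/Ins) for every weight `Φ` of the counts which vanishes unless every label `x` occurs at least `#{k : l k = x}` times.
-/

set_option autoImplicit false

open scoped Classical

noncomputable section

namespace H35.UX

open H35.CF

variable {V Λ : Type} [Fintype Λ]


omit [Fintype Λ] in
/-- the label `x` is given to one new place in `W` -/
private theorem ct_update (Z : Finset V) (W : V → Prop) (c : V → Option Λ) (w : V) (x : Λ)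
    (hw : w ∈ Z) (hW : W w) (hc : c w = none) :
    ct Z W (Function.update c w (some x)) = fun y => ct Z W c y + (if y = x then 1 else 0) := by
  funext y
  unfold ct
  by_cases hy : y = x
  · subst hy
    rw [if_pos rfl]
    have h1 : (pl Z (Function.update c w (some y)) y).filter W = insert w ((pl Z c y).filter W) := by
      ext v
      simp only [Finset.mem_filter, mem_pl, Finset.mem_insert]
      by_cases hv : v = w
      · subst hv
        simp [hw, hW]
      · rw [Function.update_of_ne hv]
        simp [hv]
    rw [h1, Finset.card_insert_of_notMem]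
    simp [mem_pl, hc]
  · rw [if_neg hy, add_zero]
    congr 1
    ext v
    simp only [Finset.mem_filter, mem_pl]
    by_cases hv : v = w
    · subst hv
      rw [Function.update_self, hc]
      simp [Ne.symm hy]
    · rw [Function.update_of_ne hv]

omit [Fintype Λ] in
private theorem up_none {m : ℕ} (c : V → Option Λ) (q : Fin m → V) (l : Fin m → Λ)
    (hq : Function.Injective q) (w : V) : up c q l w = none ↔ c w = none ∧ ∀ k, q k ≠ w := by
  constructor
  · intro h
    have h1 : ∀ k, q k ≠ w := by
      rintro k rfl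
      rw [up_of c q l hq k] at h
      exact Option.some_ne_none _ h
    rw [up_ne c q l w h1] at h
    exact ⟨h, h1⟩
  · rintro ⟨h, h1⟩
    rw [up_ne c q l w h1, h]

omit [Fintype Λ] in
/-- the last place of a tuple of new places -/
private theorem up_snoc {m : ℕ} (c : V → Option Λ) (q : Fin m → V) (w : V) (l : Fin (m + 1) → Λ)
    (hq : Function.Injective (Fin.snoc q w : Fin (m + 1) → V)) :
    Function.update (up c q fun k => l k.castSucc) w (some (l (Fin.last m))) =
      up c (Fin.snoc q w : Fin (m + 1) → V) l := by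
  have hq' : Function.Injective q := by
    intro i j hij
    have h1 : (Fin.snoc q w : Fin (m + 1) → V) i.castSucc = (Fin.snoc q w : Fin (m + 1) → V) j.castSucc := by
      rw [Fin.snoc_castSucc, Fin.snoc_castSucc]
      exact hij
    exact Fin.castSucc_injective _ (hq h1)
  funext v
  by_cases hv : v = w
  · subst hv
    rw [Function.update_self]
    have h1 := up_of c (Fin.snoc q v : Fin (m + 1) → V) l hq (Fin.last m)
    rw [Fin.snoc_last] at h1
    exact h1.symm
  · rw [Function.update_of_ne hv]
    by_cases h : ∃ k, q k = v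
    · obtain ⟨k, rfl⟩ := h
      rw [up_of c q _ hq' k]
      have h1 := up_of c (Fin.snoc q w : Fin (m + 1) → V) l hq k.castSucc
      rw [Fin.snoc_castSucc] at h1
      exact h1.symm
    · push Not at h
      rw [up_ne c q _ v h, up_ne c _ l v]
      intro k
      refine Fin.lastCases ?_ (fun k => ?_) k
      · rw [Fin.snoc_last]
        exact Ne.symm hv
      · rw [Fin.snoc_castSucc]
        exact h k

omit [Fintype Λ] in
private theorem snoc_inj {m : ℕ} {q : Fin m → V} {w : V} (hq : Function.Injective q)
    (h : ∀ k, q k ≠ w) : Function.Injective (Fin.snoc q w : Fin (m + 1) → V) := by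
  intro i j
  refine Fin.lastCases ?_ (fun i => ?_) i
  · refine Fin.lastCases ?_ (fun j => ?_) j
    · exact fun _ => rfl
    · intro h1
      rw [Fin.snoc_last, Fin.snoc_castSucc] at h1
      exact absurd h1.symm (h j)
  · refine Fin.lastCases ?_ (fun j => ?_) j
    · intro h1
      rw [Fin.snoc_last, Fin.snoc_castSucc] at h1
      exact absurd h1 (h i)
    · intro h1
      rw [Fin.snoc_castSucc, Fin.snoc_castSucc] at h1
      rw [hq h1]

omit [Fintype Λ] in
/-- sums over the tuples of new places, the last one split off -/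
private theorem fr_snoc (Z : Finset V) (W : V → Prop) (c : V → Option Λ) (m : ℕ)
    (l : Fin (m + 1) → Λ) (F : (V → Option Λ) → ℂ) :
    ∑ q ∈ Fr Z W c m, ∑ w ∈ Z.filter (fun v => W v ∧ up c q (fun k => l k.castSucc) v = none),
        F (Function.update (up c q fun k => l k.castSucc) w (some (l (Fin.last m)))) =
      ∑ q ∈ Fr Z W c (m + 1), F (up c q l) := by
  rw [Finset.sum_sigma']
  have key : ∀ (q : Fin m → V) (w : V), q ∈ Fr Z W c m →
      w ∈ Z.filter (fun v => W v ∧ up c q (fun k => l k.castSucc) v = none) →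
      (Fin.snoc q w : Fin (m + 1) → V) ∈ Fr Z W c (m + 1) := by
    intro q w hq hw
    rw [mem_fr] at hq ⊢
    rw [Finset.mem_filter, up_none c q _ hq.2 w] at hw
    refine ⟨fun k => ?_, snoc_inj hq.2 hw.2.2.2⟩
    refine Fin.lastCases ?_ (fun k => ?_) k
    · rw [Fin.snoc_last]
      exact ⟨hw.1, hw.2.1, hw.2.2.1⟩
    · rw [Fin.snoc_castSucc]
      exact hq.1 k
  refine Finset.sum_bij' (fun a _ => (Fin.snoc a.1 a.2 : Fin (m + 1) → V))
    (fun q _ => ⟨fun k => q k.castSucc, q (Fin.last m)⟩) ?_ ?_ ?_ ?_ ?_
  · rintro ⟨q, w⟩ h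
    rw [Finset.mem_sigma] at h
    exact key q w h.1 h.2
  · intro q hq
    rw [mem_fr] at hq
    have hi : Function.Injective fun k : Fin m => q k.castSucc :=
      hq.2.comp (Fin.castSucc_injective m)
    rw [Finset.mem_sigma, mem_fr, Finset.mem_filter, up_none c _ _ hi]
    exact ⟨⟨fun k => hq.1 k.castSucc, hi⟩, (hq.1 (Fin.last m)).1, (hq.1 (Fin.last m)).2.1,
      (hq.1 (Fin.last m)).2.2, fun k hk => absurd (hq.2 hk) (Fin.castSucc_lt_last k).ne⟩
  · rintro ⟨q, w⟩ h
    simp
  · intro q hq
    funext k
    refine Fin.lastCases ?_ (fun k => ?_) k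
    · simp
    · simp
  · rintro ⟨q, w⟩ h
    rw [Finset.mem_sigma] at h
    exact congrArg F (up_snoc c q w l (mem_fr.1 (key q w h.1 h.2)).2)

omit [Fintype Λ] in
private theorem card_snoc {m : ℕ} (l : Fin (m + 1) → Λ) (x : Λ) :
    (Finset.univ.filter fun k => l k = x).card =
      (Finset.univ.filter fun k : Fin m => l k.castSucc = x).card +
        (if x = l (Fin.last m) then 1 else 0) := by
  rw [Finset.card_filter, Finset.card_filter, Fin.sum_univ_castSucc]
  congr 1
  by_cases h : x = l (Fin.last m)
  · rw [if_pos h, if_pos h.symm]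
  · rw [if_neg h, if_neg (Ne.symm h)]

theorem cf_symx (Z : Finset V) (W : V → Prop) (m : ℕ) (l : Fin m → Λ) (Φ : (Λ → ℕ) → ℂ)
    (hΦ : ∀ ν, Φ ν ≠ 0 → ∀ k, (Finset.univ.filter fun j => l j = l k).card ≤ ν (l k)) :
    ∃ Φ' : (Λ → ℕ) → ℂ,
      (∀ ν, ‖Φ' ν‖ ≤ ‖Φ fun x => ν x + (Finset.univ.filter fun k => l k = x).card‖) ∧
      ∀ F : (V → Option Λ) → ℂ, ∑ c ∈ Cf Z Λ, Φ (ct Z W c) * F c =
        ∑ c ∈ Cf Z Λ, Φ' (ct Z W c) * ∑ q ∈ Fr Z W c m, F (up c q l) := by
  induction m generalizing Φ with
  | zero =>
    refine ⟨Φ, fun ν => ?_, fun F => ?_⟩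
    · simp
    · refine Finset.sum_congr rfl fun c _ => ?_
      refine congrArg (fun t => Φ (ct Z W c) * t) ?_
      have h1 : Fr Z W c 0 = {Fin.elim0} := by
        ext q
        rw [mem_fr, Finset.mem_singleton]
        constructor
        · intro _
          exact Subsingleton.elim _ _
        · intro _
          exact ⟨fun k => k.elim0, fun k => k.elim0⟩
      rw [h1, Finset.sum_singleton]
      refine congrArg F ?_
      funext v
      exact (up_ne c _ l v fun k => k.elim0).symm
  | succ m ih =>
    have hΦ1 : ∀ ν : Λ → ℕ, Φ (fun y => ν y + (if y = l (Fin.last m) then 1 else 0)) /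
        ((ν (l (Fin.last m)) : ℂ) + 1) ≠ 0 → ∀ k : Fin m,
          (Finset.univ.filter fun j : Fin m => l j.castSucc = l k.castSucc).card ≤
            ν (l k.castSucc) := by
      intro ν h k
      have h1 := hΦ _ (fun h0 => h (by rw [h0, zero_div])) k.castSucc
      rw [card_snoc] at h1
      beta_reduce at h1
      split_ifs at h1
      · omega
      · omega
    obtain ⟨Φ', hb, he⟩ := ih (fun k => l k.castSucc)
      (fun ν => Φ (fun y => ν y + (if y = l (Fin.last m) then 1 else 0)) /
        ((ν (l (Fin.last m)) : ℂ) + 1)) hΦ1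
    refine ⟨Φ', fun ν => (hb ν).trans ?_, fun F => ?_⟩
    · rw [norm_div]
      have h1 : (fun y => ν y + (Finset.univ.filter fun k : Fin m => l k.castSucc = y).card +
          (if y = l (Fin.last m) then 1 else 0)) =
          fun y => ν y + (Finset.univ.filter fun k => l k = y).card := by
        funext y
        rw [card_snoc, add_assoc]
      rw [h1]
      refine div_le_self (norm_nonneg _) ?_
      have h2 : ((ν (l (Fin.last m)) + (Finset.univ.filter fun k : Fin m =>
          l k.castSucc = l (Fin.last m)).card : ℕ) : ℂ) + 1 =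
          ((ν (l (Fin.last m)) + (Finset.univ.filter fun k : Fin m =>
          l k.castSucc = l (Fin.last m)).card + 1 : ℕ) : ℂ) := by
        push_cast
        rfl
      rw [h2, Complex.norm_natCast]
      exact_mod_cast Nat.le_add_left 1 _
    · have h1 : ∑ c ∈ Cf Z Λ, Φ (ct Z W c) * F c = ∑ c ∈ Cf Z Λ,
          ∑ w ∈ (pl Z c (l (Fin.last m))).filter W,
            Φ (ct Z W c) / (ct Z W c (l (Fin.last m)) : ℂ) * F c := by
        refine Finset.sum_congr rfl fun c _ => ?_
        rw [Finset.sum_const, nsmul_eq_mul]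
        show _ = (ct Z W c (l (Fin.last m)) : ℂ) * _
        by_cases h0 : Φ (ct Z W c) = 0
        · rw [h0, zero_div, zero_mul, mul_zero]
        · have h2 := hΦ _ h0 (Fin.last m)
          have h3 : (ct Z W c (l (Fin.last m)) : ℂ) ≠ 0 := by
            rw [Nat.cast_ne_zero]
            rw [card_snoc, if_pos rfl] at h2
            omega
          field_simp
      rw [h1, cf_ins Z W (l (Fin.last m)) fun c _ =>
        Φ (ct Z W c) / (ct Z W c (l (Fin.last m)) : ℂ) * F c]
      have h4 : ∀ c ∈ Cf Z Λ, ∑ w ∈ Z.filter (fun v => W v ∧ c v = none),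
          Φ (ct Z W (Function.update c w (some (l (Fin.last m))))) /
            (ct Z W (Function.update c w (some (l (Fin.last m)))) (l (Fin.last m)) : ℂ) *
            F (Function.update c w (some (l (Fin.last m)))) =
          Φ (fun y => ct Z W c y + (if y = l (Fin.last m) then 1 else 0)) /
            ((ct Z W c (l (Fin.last m)) : ℂ) + 1) *
            ∑ w ∈ Z.filter (fun v => W v ∧ c v = none),
              F (Function.update c w (some (l (Fin.last m)))) := by
        intro c _
        rw [Finset.mul_sum]
        refine Finset.sum_congr rfl fun w hw => ?_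
        rw [Finset.mem_filter] at hw
        rw [ct_update Z W c w _ hw.1 hw.2.1 hw.2.2]
        beta_reduce
        rw [if_pos rfl]
        push_cast
        rfl
      rw [Finset.sum_congr rfl h4, he]
      refine Finset.sum_congr rfl fun c _ => ?_
      rw [fr_snoc]

end H35.UX
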