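import Pool.Agent.H1.BD.Bad
import Pool.Agent.H35.UX.Ins

/-!
# H35-UX-BDX: from the box lemma to sums over configurations, single occurrences (copy of `H1.BD.bad`)
-/

set_option autoImplicit false

open scoped NumberField
open NumberField IsDedekindDomain H63.MA H57.AN H35.CF
open scoped Classical

noncomputable section

namespace H35.UX

open H1.BD

section main

variable (K : Type) [Field K] [NumberField K]

/-- from boxes to sums over configurations with a Lipschitz cut-off -/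
theorem badx (Λ : Type) [Fintype Λ] (m : ℕ) (b A ε : ℝ) (hb : 0 ≤ b) (hA : 0 ≤ A) (_hε : 0 < ε) :
    ∃ C₁ A' C : ℝ, 3 ≤ C₁ ∧ 0 ≤ A' ∧ 0 < C ∧ ∀ Y : ℝ, 3 ≤ Y →
      ∀ (Z : Finset (Pl K)) (W : Pl K → Prop), (∀ v, W v → Real.exp (Real.log Y ^ ε) < nm v) →
      ∀ (l : Fin m → Λ) (Φ : (Λ → ℕ) → ℂ), (∀ ν, ‖Φ ν‖ ≤ 1) →
        (∀ ν, Φ ν ≠ 0 → ∀ k, (Finset.univ.filter fun j => l j = l k).card ≤ ν (l k)) →
      ∀ ψ : ℝ → ℝ, (∀ t, |ψ t| ≤ 1) → (∀ t, 2 ≤ t → ψ t = 0) → (∀ s t, |ψ s - ψ t| ≤ |s - t|) →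
      ∀ F : (Pl K → Option Λ) → ℂ, (∀ c ∈ Cf Z Λ, ‖F c‖ ≤ b ^ (sp Z c).card) →
      (∀ lo hi : Fin m → ℝ, (∀ k, Real.exp (Real.log Y ^ ε) ≤ lo k ∧ lo k ≤ hi k ∧
          hi k ≤ 2 * lo k ∧ hi k ≤ Y ^ C₁) →
        ∑ c ∈ (Cf Z Λ).filter (fun c => nr (sp Z c) ≤ Y ^ C₁ ∧
            ((sp Z c).card : ℝ) ≤ C₁ * (1 + Real.log (Real.log Y))),
          (nr (sp Z c))⁻¹ * (∏ k, lo k)⁻¹ * ‖∑ q ∈ (Fr Z W c m).filter
            (fun q => ∀ k, lo k < nm (q k) ∧ (nm (q k) : ℝ) ≤ hi k), F (up c q l)‖ ≤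
          Real.log Y ^ (-A')) →
      ‖∑ c ∈ Cf Z Λ, Φ (ct Z W c) * ((ψ (nr (sp Z c) / Y) : ℝ) : ℂ) * F c‖ ≤
        C * Y * Real.log Y ^ (-A) := by
  obtain ⟨B, Cr, hB, hCr, hr⟩ := cnt_ran K Λ b hb A
  obtain ⟨Cp, Ap, hCp, hAp, hp⟩ := cnt_pow K Λ (b * Real.exp 1) (mul_nonneg hb (Real.exp_pos _).le)
  refine ⟨2 * B + 3, A + m * (1 + A + Ap), 2 * Cr + 2 * 5 ^ m +
    2 ^ (m + 1) * (m.factorial * (Cp * 2 ^ (m + 1) * (m + 3) ^ Ap)), by linarith, by positivity,
    by positivity, ?_⟩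
  intro Y hY Z W hW l Φ hΦ1 hΦ ψ hψ1 hψ2 hψ3 F hF hbox
  have hY0 : (0 : ℝ) < Y := by linarith
  obtain ⟨ℓ, hℓ⟩ : ∃ ℓ, ℓ = Real.log Y := ⟨_, rfl⟩
  have hl1 : 1 ≤ ℓ := by
    rw [hℓ, Real.le_log_iff_exp_le hY0]
    exact (Real.exp_one_lt_d9.le.trans (by norm_num)).trans hY
  have hl0 : 0 < ℓ := by linarith
  rw [← hℓ] at hbox hW ⊢
  have hll : 0 ≤ Real.log ℓ := Real.log_nonneg hl1
  obtain ⟨T, hT⟩ : ∃ T, T = Real.exp (ℓ ^ ε) := ⟨_, rfl⟩
  rw [← hT] at hbox hW
  have hT1 : 1 ≤ T := by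
    rw [hT]
    exact Real.one_le_exp (by positivity)
  obtain ⟨δ, hδ⟩ : ∃ δ, δ = ℓ ^ (-(A + Ap)) := ⟨_, rfl⟩
  have hδ0 : 0 < δ := by
    rw [hδ]
    positivity
  have hδ1 : δ ≤ 1 := by
    rw [hδ]
    exact Real.rpow_le_one_of_one_le_of_nonpos hl1 (by linarith)
  obtain ⟨J, hJ1, hJ2⟩ := grid Y ℓ δ T hY hℓ hδ0 hδ1 hT1
  -- truncation of the number of places
  obtain ⟨B₂, hB₂⟩ : ∃ B₂, B₂ = 2 * B * (1 + Real.log ℓ) := ⟨_, rfl⟩
  obtain ⟨F₁, hF₁⟩ : ∃ F₁ : (Pl K → Option Λ) → ℂ, F₁ = fun c =>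
    if ((sp Z c).card : ℝ) ≤ B₂ then F c else 0 := ⟨_, rfl⟩
  have hF₁b : ∀ c ∈ Cf Z Λ, ‖F₁ c‖ ≤ b ^ (sp Z c).card := by
    intro c hc
    rw [hF₁]
    beta_reduce
    split_ifs
    · exact hF c hc
    · rw [norm_zero]
      positivity
  have hψn : ∀ t, ‖((ψ t : ℝ) : ℂ)‖ ≤ 1 := fun t => by
    rw [Complex.norm_real, Real.norm_eq_abs]
    exact hψ1 t
  have htail : ‖∑ c ∈ Cf Z Λ, Φ (ct Z W c) * ((ψ (nr (sp Z c) / Y) : ℝ) : ℂ) * (F c - F₁ c)‖ ≤
      2 * Cr * Y * ℓ ^ (-A) := by
    refine (norm_sum_le _ _).trans ?_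
    have h2 : ∀ c ∈ Cf Z Λ, ‖Φ (ct Z W c) * ((ψ (nr (sp Z c) / Y) : ℝ) : ℂ) * (F c - F₁ c)‖ ≤
        if (nr (sp Z c) ≤ 2 * Y ∧ B * (1 + Real.log (Real.log (2 * Y))) < ((sp Z c).card : ℝ))
          then b ^ (sp Z c).card else 0 := by
      intro c hc
      rw [norm_mul, norm_mul]
      by_cases h3 : nr (sp Z c) ≤ 2 * Y
      · by_cases h4 : ((sp Z c).card : ℝ) ≤ B₂
        · rw [hF₁]
          beta_reduce
          rw [if_pos h4, sub_self, norm_zero, mul_zero]
          split_ifs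
          · positivity
          · exact le_rfl
        · rw [hF₁]
          beta_reduce
          rw [if_neg h4, sub_zero, if_pos]
          · calc ‖Φ (ct Z W c)‖ * ‖((ψ (nr (sp Z c) / Y) : ℝ) : ℂ)‖ * ‖F c‖
                ≤ 1 * 1 * b ^ (sp Z c).card :=
                  mul_le_mul (mul_le_mul (hΦ1 _) (hψn _) (norm_nonneg _) zero_le_one) (hF c hc)
                    (norm_nonneg _) (by norm_num)
              _ = b ^ (sp Z c).card := by ring
          · refine ⟨h3, lt_of_le_of_lt ?_ (not_le.1 h4)⟩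
            rw [hB₂]
            have h5 : Real.log (2 * Y) ≤ 2 * ℓ := by
              rw [Real.log_mul (by norm_num) hY0.ne', ← hℓ]
              have h := Real.log_two_lt_d9
              linarith
            have h6 : Real.log (Real.log (2 * Y)) ≤ 1 + Real.log ℓ := by
              refine (Real.log_le_log (Real.log_pos (by linarith)) h5).trans ?_
              rw [Real.log_mul (by norm_num) hl0.ne']
              have h := Real.log_two_lt_d9
              linarith
            nlinarith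
      · rw [hψ2 _ ?_]
        · rw [Complex.ofReal_zero, norm_zero, mul_zero, zero_mul]
          split_ifs
          · positivity
          · exact le_rfl
        · rw [le_div_iff₀ hY0]
          push Not at h3
          exact h3.le
    refine (Finset.sum_le_sum h2).trans ?_
    rw [← Finset.sum_filter]
    refine (hr Z (2 * Y) (by linarith)).1.trans ?_
    have h3 : Real.log (2 * Y) ^ (-A) ≤ ℓ ^ (-A) := by
      refine Real.rpow_le_rpow_of_nonpos hl0 ?_ (by linarith)
      rw [hℓ]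
      exact Real.log_le_log hY0 (by linarith)
    calc Cr * (2 * Y) * Real.log (2 * Y) ^ (-A) ≤ Cr * (2 * Y) * ℓ ^ (-A) :=
          mul_le_mul_of_nonneg_left h3 (by positivity)
      _ = 2 * Cr * Y * ℓ ^ (-A) := by ring
  -- insertion
  obtain ⟨Φ', hΦ', hins⟩ := cf_symx Z W m l Φ hΦ
  have hΦ'1 : ∀ ν, ‖Φ' ν‖ ≤ 1 := fun ν => (hΦ' ν).trans (hΦ1 _)
  have hmain : ‖∑ c ∈ Cf Z Λ, Φ (ct Z W c) * ((ψ (nr (sp Z c) / Y) : ℝ) : ℂ) * F₁ c‖ ≤
      (2 * 5 ^ m + 2 ^ (m + 1) * (m.factorial * (Cp * 2 ^ (m + 1) * (m + 3) ^ Ap))) * Y *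
        ℓ ^ (-A) := by
    have h2 : ∑ c ∈ Cf Z Λ, Φ (ct Z W c) * ((ψ (nr (sp Z c) / Y) : ℝ) : ℂ) * F₁ c =
        ∑ c ∈ Cf Z Λ, Φ' (ct Z W c) * ∑ q ∈ Fr Z W c m,
          ((ψ (nr (sp Z (up c q l)) / Y) : ℝ) : ℂ) * F₁ (up c q l) := by
      rw [← hins fun c => ((ψ (nr (sp Z c) / Y) : ℝ) : ℂ) * F₁ c]
      exact Finset.sum_congr rfl fun c _ => mul_assoc _ _ _
    rw [h2]
    refine (norm_sum_le _ _).trans ?_
    have h3 : ∀ c ∈ Cf Z Λ, ‖Φ' (ct Z W c) * ∑ q ∈ Fr Z W c m,
          ((ψ (nr (sp Z (up c q l)) / Y) : ℝ) : ℂ) * F₁ (up c q l)‖ ≤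
        (∑ j ∈ (Fintype.piFinset fun _ : Fin m => Finset.range J).filter
            (fun j => nr (sp Z c) * ∏ k, T * (1 + δ) ^ j k ≤ 2 * Y),
          ‖∑ q ∈ (Fr Z W c m).filter (fun q => ∀ k, T * (1 + δ) ^ j k < nm (q k) ∧
            (nm (q k) : ℝ) ≤ T * (1 + δ) ^ (j k + 1)), F₁ (up c q l)‖) +
        2 ^ (m + 1) * δ * ∑ q ∈ Fr Z W c m,
          (if nr (sp Z (up c q l)) ≤ 2 ^ (m + 1) * Y then ‖F₁ (up c q l)‖ else 0) := by
      intro c _
      rw [norm_mul]
      refine (mul_le_of_le_one_left (norm_nonneg _) (hΦ'1 _)).trans ?_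
      exact one_conf K Λ m Z W Y T δ hY hT1 hδ0 hδ1 hW J hJ2 l ψ hψ1 hψ2 hψ3 F₁ c
    refine (Finset.sum_le_sum h3).trans ?_
    rw [Finset.sum_add_distrib, ← Finset.mul_sum]
    -- the error term
    have herr : ∑ c ∈ Cf Z Λ, ∑ q ∈ Fr Z W c m,
          (if nr (sp Z (up c q l)) ≤ 2 ^ (m + 1) * Y then ‖F₁ (up c q l)‖ else 0) ≤
        m.factorial * (Cp * 2 ^ (m + 1) * (m + 3) ^ Ap) * Y * ℓ ^ Ap := by
      have h4 : ∑ c ∈ Cf Z Λ, ∑ q ∈ Fr Z W c m,
          (if nr (sp Z (up c q l)) ≤ 2 ^ (m + 1) * Y then ‖F₁ (up c q l)‖ else 0) ≤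
          ∑ c ∈ Cf Z Λ, ((sp Z c).card : ℝ) ^ m *
            (if nr (sp Z c) ≤ 2 ^ (m + 1) * Y then b ^ (sp Z c).card else 0) := by
        have h5 := rev Z W m l (fun c =>
          if nr (sp Z c) ≤ 2 ^ (m + 1) * Y then ‖F₁ c‖ else 0) fun c => by
            beta_reduce
            split_ifs
            · exact norm_nonneg _
            · exact le_rfl
        refine h5.trans (Finset.sum_le_sum fun c hc => mul_le_mul_of_nonneg_left ?_ (by positivity))
        split_ifs
        · exact hF₁b c hc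
        · exact le_rfl
      refine h4.trans ?_
      have h6 : ∀ c ∈ Cf Z Λ, ((sp Z c).card : ℝ) ^ m *
            (if nr (sp Z c) ≤ 2 ^ (m + 1) * Y then b ^ (sp Z c).card else 0) ≤
          m.factorial * (if nr (sp Z c) ≤ 2 ^ (m + 1) * Y then
            (b * Real.exp 1) ^ (sp Z c).card else 0) := by
        intro c _
        split_ifs
        · have h7 : ((sp Z c).card : ℝ) ^ m ≤ m.factorial * Real.exp 1 ^ (sp Z c).card := by
            have h8 := Real.pow_div_factorial_le_exp ((sp Z c).card : ℝ) (Nat.cast_nonneg _) m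
            rw [div_le_iff₀ (by positivity)] at h8
            rw [← Real.exp_nat_mul, mul_one, mul_comm]
            exact h8
          calc ((sp Z c).card : ℝ) ^ m * b ^ (sp Z c).card
              ≤ (m.factorial * Real.exp 1 ^ (sp Z c).card) * b ^ (sp Z c).card :=
                mul_le_mul_of_nonneg_right h7 (by positivity)
            _ = m.factorial * (b * Real.exp 1) ^ (sp Z c).card := by
                rw [mul_pow]
                ring
        · rw [mul_zero, mul_zero]
      refine (Finset.sum_le_sum h6).trans ?_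
      rw [← Finset.mul_sum, ← Finset.sum_filter]
      have h9 : (1 : ℝ) ≤ 2 ^ (m + 1) := one_le_pow₀ (by norm_num)
      have h10 := (hp Z (2 ^ (m + 1) * Y) (by nlinarith)).1
      have h11 : 1 + Real.log (2 ^ (m + 1) * Y) ≤ (m + 3) * ℓ := by
        rw [Real.log_mul (by positivity) hY0.ne', Real.log_pow, ← hℓ]
        have h12 : Real.log 2 ≤ 1 := by
          have := Real.log_two_lt_d9
          linarith
        have h13 : ((m + 1 : ℕ) : ℝ) * Real.log 2 ≤ (m + 1) * ℓ := by
          push_cast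
          exact mul_le_mul_of_nonneg_left (by linarith) (by positivity)
        nlinarith
      have h14 : (1 + Real.log (2 ^ (m + 1) * Y)) ^ Ap ≤ (m + 3) ^ Ap * ℓ ^ Ap := by
        rw [← Real.mul_rpow (by positivity) hl0.le]
        refine Real.rpow_le_rpow ?_ h11 hAp
        have h15 : 0 ≤ Real.log (2 ^ (m + 1) * Y) := Real.log_nonneg (by nlinarith)
        linarith
      calc (m.factorial : ℝ) * ∑ c ∈ (Cf Z Λ).filter (fun c => nr (sp Z c) ≤ 2 ^ (m + 1) * Y),
              (b * Real.exp 1) ^ (sp Z c).card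
          ≤ m.factorial * (Cp * (2 ^ (m + 1) * Y) * (1 + Real.log (2 ^ (m + 1) * Y)) ^ Ap) :=
            mul_le_mul_of_nonneg_left h10 (by positivity)
        _ ≤ m.factorial * (Cp * (2 ^ (m + 1) * Y) * ((m + 3) ^ Ap * ℓ ^ Ap)) :=
            mul_le_mul_of_nonneg_left (mul_le_mul_of_nonneg_left h14 (by positivity))
              (by positivity)
        _ = m.factorial * (Cp * 2 ^ (m + 1) * (m + 3) ^ Ap) * Y * ℓ ^ Ap := by ring
    have herr2 : 2 ^ (m + 1) * δ * ∑ c ∈ Cf Z Λ, ∑ q ∈ Fr Z W c m,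
          (if nr (sp Z (up c q l)) ≤ 2 ^ (m + 1) * Y then ‖F₁ (up c q l)‖ else 0) ≤
        2 ^ (m + 1) * (m.factorial * (Cp * 2 ^ (m + 1) * (m + 3) ^ Ap)) * Y * ℓ ^ (-A) := by
      refine (mul_le_mul_of_nonneg_left herr (by positivity)).trans (le_of_eq ?_)
      have h4 : δ * ℓ ^ Ap = ℓ ^ (-A) := by
        rw [hδ, ← Real.rpow_add hl0]
        congr 1
        ring
      rw [← h4]
      ring
    -- the boxes
    have hbx : ∑ c ∈ Cf Z Λ, ∑ j ∈ (Fintype.piFinset fun _ : Fin m => Finset.range J).filter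
            (fun j => nr (sp Z c) * ∏ k, T * (1 + δ) ^ j k ≤ 2 * Y),
          ‖∑ q ∈ (Fr Z W c m).filter (fun q => ∀ k, T * (1 + δ) ^ j k < nm (q k) ∧
            (nm (q k) : ℝ) ≤ T * (1 + δ) ^ (j k + 1)), F₁ (up c q l)‖ ≤
        2 * 5 ^ m * Y * ℓ ^ (-A) := by
      have h30 : ∀ c ∈ Cf Z Λ, ∑ j ∈ (Fintype.piFinset fun _ : Fin m => Finset.range J).filter
            (fun j => nr (sp Z c) * ∏ k, T * (1 + δ) ^ j k ≤ 2 * Y),
          ‖∑ q ∈ (Fr Z W c m).filter (fun q => ∀ k, T * (1 + δ) ^ j k < nm (q k) ∧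
            (nm (q k) : ℝ) ≤ T * (1 + δ) ^ (j k + 1)), F₁ (up c q l)‖ =
          ∑ j ∈ Fintype.piFinset fun _ : Fin m => Finset.range J,
            (if nr (sp Z c) * ∏ k, T * (1 + δ) ^ j k ≤ 2 * Y then
            ‖∑ q ∈ (Fr Z W c m).filter (fun q => ∀ k, T * (1 + δ) ^ j k < nm (q k) ∧
              (nm (q k) : ℝ) ≤ T * (1 + δ) ^ (j k + 1)), F₁ (up c q l)‖ else 0) := by
        intro c _
        rw [Finset.sum_filter]
      rw [Finset.sum_congr rfl h30, Finset.sum_comm]
      have h4 : ∀ j ∈ Fintype.piFinset fun _ : Fin m => Finset.range J,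
          ∑ c ∈ Cf Z Λ, (if nr (sp Z c) * ∏ k, T * (1 + δ) ^ j k ≤ 2 * Y then
            ‖∑ q ∈ (Fr Z W c m).filter (fun q => ∀ k, T * (1 + δ) ^ j k < nm (q k) ∧
              (nm (q k) : ℝ) ≤ T * (1 + δ) ^ (j k + 1)), F₁ (up c q l)‖ else 0) ≤
          2 * Y * ℓ ^ (-(A + m * (1 + A + Ap))) := by
        intro j _
        have hpos : ∀ i : ℕ, 1 ≤ T * (1 + δ) ^ i := fun i =>
          one_le_mul_of_one_le_of_one_le hT1 (one_le_pow₀ (by linarith))
        have hprod : 1 ≤ ∏ k, T * (1 + δ) ^ j k := Finset.one_le_prod fun k _ => hpos _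
        by_cases h5 : ∏ k, T * (1 + δ) ^ j k ≤ 2 * Y
        · have h6 : ∀ k, T ≤ T * (1 + δ) ^ j k ∧ T * (1 + δ) ^ j k ≤ T * (1 + δ) ^ (j k + 1) ∧
              T * (1 + δ) ^ (j k + 1) ≤ 2 * (T * (1 + δ) ^ j k) ∧
              T * (1 + δ) ^ (j k + 1) ≤ Y ^ (2 * B + 3) := by
            intro k
            have h7 : 1 ≤ (1 + δ) ^ j k := one_le_pow₀ (by linarith)
            have h8 : T * (1 + δ) ^ (j k + 1) = (1 + δ) * (T * (1 + δ) ^ j k) := by
              rw [pow_succ]
              ring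
            have h9 : T * (1 + δ) ^ j k ≤ ∏ k, T * (1 + δ) ^ j k := by
              rw [← Finset.mul_prod_erase Finset.univ (fun k => T * (1 + δ) ^ j k)
                (Finset.mem_univ k)]
              refine le_mul_of_one_le_right (by linarith [hpos (j k)]) ?_
              exact Finset.one_le_prod fun i _ => hpos _
            have h10 := hpos (j k)
            refine ⟨le_mul_of_one_le_right (by linarith) h7, ?_, ?_, ?_⟩
            · rw [h8]
              exact le_mul_of_one_le_left (by linarith) (by linarith)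
            · rw [h8]
              exact mul_le_mul_of_nonneg_right (by linarith) (by linarith)
            · have h11 : T * (1 + δ) ^ (j k + 1) ≤ 4 * Y := by
                rw [h8]
                nlinarith
              refine h11.trans ?_
              have h12 : Y ^ (3 : ℝ) ≤ Y ^ (2 * B + 3) :=
                Real.rpow_le_rpow_of_exponent_le (by linarith) (by linarith)
              refine le_trans ?_ h12
              have h13 : Y ^ (3 : ℝ) = Y ^ 3 := by
                exact_mod_cast Real.rpow_natCast Y 3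
              rw [h13]
              nlinarith [mul_nonneg hY0.le (sq_nonneg (Y - 2)), sq_nonneg (Y - 2)]
          have h14 := hbox (fun k => T * (1 + δ) ^ j k) (fun k => T * (1 + δ) ^ (j k + 1)) h6
          beta_reduce at h14
          have h15 : ∀ c ∈ Cf Z Λ, (if nr (sp Z c) * ∏ k, T * (1 + δ) ^ j k ≤ 2 * Y then
              ‖∑ q ∈ (Fr Z W c m).filter (fun q => ∀ k, T * (1 + δ) ^ j k < nm (q k) ∧
                (nm (q k) : ℝ) ≤ T * (1 + δ) ^ (j k + 1)), F₁ (up c q l)‖ else 0) ≤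
              2 * Y * (if nr (sp Z c) ≤ Y ^ (2 * B + 3) ∧
                ((sp Z c).card : ℝ) ≤ (2 * B + 3) * (1 + Real.log ℓ) then
                (nr (sp Z c))⁻¹ * (∏ k, T * (1 + δ) ^ j k)⁻¹ *
                ‖∑ q ∈ (Fr Z W c m).filter (fun q => ∀ k, T * (1 + δ) ^ j k < nm (q k) ∧
                  (nm (q k) : ℝ) ≤ T * (1 + δ) ^ (j k + 1)), F (up c q l)‖ else 0) := by
            intro c _
            have hn1 : 1 ≤ nr (sp Z c) := one_le_nr _
            by_cases h16 : nr (sp Z c) * ∏ k, T * (1 + δ) ^ j k ≤ 2 * Y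
            · rw [if_pos h16]
              by_cases h17 : ((sp Z c).card : ℝ) + m ≤ B₂
              · have h18 : ∀ q ∈ (Fr Z W c m).filter (fun q => ∀ k, T * (1 + δ) ^ j k < nm (q k) ∧
                    (nm (q k) : ℝ) ≤ T * (1 + δ) ^ (j k + 1)), F₁ (up c q l) = F (up c q l) := by
                  intro q hq
                  rw [Finset.mem_filter] at hq
                  rw [hF₁]
                  beta_reduce
                  rw [if_pos]
                  rw [sp_up_card Z W c q l hq.1]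
                  push_cast
                  exact h17
                rw [Finset.sum_congr rfl h18, if_pos]
                · have h19 : 1 ≤ 2 * Y * ((nr (sp Z c))⁻¹ * (∏ k, T * (1 + δ) ^ j k)⁻¹) := by
                    rw [← mul_inv, ← div_eq_mul_inv, one_le_div (by positivity)]
                    exact h16
                  calc ‖∑ q ∈ (Fr Z W c m).filter (fun q => ∀ k, T * (1 + δ) ^ j k < nm (q k) ∧
                        (nm (q k) : ℝ) ≤ T * (1 + δ) ^ (j k + 1)), F (up c q l)‖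
                      ≤ (2 * Y * ((nr (sp Z c))⁻¹ * (∏ k, T * (1 + δ) ^ j k)⁻¹)) *
                        ‖∑ q ∈ (Fr Z W c m).filter (fun q => ∀ k, T * (1 + δ) ^ j k < nm (q k) ∧
                        (nm (q k) : ℝ) ≤ T * (1 + δ) ^ (j k + 1)), F (up c q l)‖ :=
                        le_mul_of_one_le_left (norm_nonneg _) h19
                    _ = _ := by ring
                · constructor
                  · have h20 : nr (sp Z c) ≤ 2 * Y := by
                      refine le_trans ?_ h16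
                      exact le_mul_of_one_le_right (by linarith) hprod
                    refine h20.trans ?_
                    have h12 : Y ^ (3 : ℝ) ≤ Y ^ (2 * B + 3) :=
                      Real.rpow_le_rpow_of_exponent_le (by linarith) (by linarith)
                    refine le_trans ?_ h12
                    have h13 : Y ^ (3 : ℝ) = Y ^ 3 := by
                      exact_mod_cast Real.rpow_natCast Y 3
                    rw [h13]
                    nlinarith [mul_nonneg hY0.le (sq_nonneg (Y - 2)), sq_nonneg (Y - 2)]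
                  · rw [hB₂] at h17
                    have h21 : (0 : ℝ) ≤ m := Nat.cast_nonneg _
                    nlinarith
              · have h18 : ∀ q ∈ (Fr Z W c m).filter (fun q => ∀ k, T * (1 + δ) ^ j k < nm (q k) ∧
                    (nm (q k) : ℝ) ≤ T * (1 + δ) ^ (j k + 1)), F₁ (up c q l) = 0 := by
                  intro q hq
                  rw [Finset.mem_filter] at hq
                  rw [hF₁]
                  beta_reduce
                  rw [if_neg]
                  rw [sp_up_card Z W c q l hq.1]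
                  push_cast
                  exact h17
                rw [Finset.sum_eq_zero h18, norm_zero]
                refine mul_nonneg (by linarith) ?_
                split_ifs
                · positivity
                · exact le_rfl
            · rw [if_neg h16]
              refine mul_nonneg (by linarith) ?_
              split_ifs
              · positivity
              · exact le_rfl
          refine (Finset.sum_le_sum h15).trans ?_
          rw [← Finset.mul_sum, ← Finset.sum_filter]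
          exact mul_le_mul_of_nonneg_left h14 (by linarith)
        · rw [Finset.sum_eq_zero]
          · positivity
          · intro c _
            rw [if_neg]
            intro h6
            refine h5 (le_trans ?_ h6)
            exact le_mul_of_one_le_left (by linarith) (one_le_nr _)
      refine (Finset.sum_le_sum h4).trans ?_
      rw [Finset.sum_const, nsmul_eq_mul, Fintype.card_piFinset, Finset.prod_const,
        Finset.card_univ, Fintype.card_fin, Finset.card_range]
      push_cast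
      have h5 : (J : ℝ) ≤ 5 * ℓ ^ (1 + A + Ap) := by
        refine hJ1.trans (le_of_eq ?_)
        rw [hδ, Real.rpow_neg hl0.le, div_inv_eq_mul, mul_assoc]
        congr 1
        rw [add_assoc 1 A Ap, Real.rpow_add hl0 1 (A + Ap), Real.rpow_one]
      have h6 : (J : ℝ) ^ m ≤ 5 ^ m * ℓ ^ (m * (1 + A + Ap)) := by
        refine (pow_le_pow_left₀ (Nat.cast_nonneg _) h5 m).trans (le_of_eq ?_)
        rw [mul_pow, ← Real.rpow_natCast (ℓ ^ (1 + A + Ap)), ← Real.rpow_mul hl0.le, mul_comm (1 + A + Ap)]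
      calc (J : ℝ) ^ m * (2 * Y * ℓ ^ (-(A + m * (1 + A + Ap))))
          ≤ (5 ^ m * ℓ ^ (m * (1 + A + Ap))) * (2 * Y * ℓ ^ (-(A + m * (1 + A + Ap)))) :=
            mul_le_mul_of_nonneg_right h6 (by positivity)
        _ = 2 * 5 ^ m * Y * (ℓ ^ (m * (1 + A + Ap)) * ℓ ^ (-(A + m * (1 + A + Ap)))) := by ring
        _ = 2 * 5 ^ m * Y * ℓ ^ (-A) := by
            rw [← Real.rpow_add hl0]
            congr 2
            ring
    refine (add_le_add hbx herr2).trans (le_of_eq ?_)
    ring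
  have hall : ∑ c ∈ Cf Z Λ, Φ (ct Z W c) * ((ψ (nr (sp Z c) / Y) : ℝ) : ℂ) * F c =
      ∑ c ∈ Cf Z Λ, Φ (ct Z W c) * ((ψ (nr (sp Z c) / Y) : ℝ) : ℂ) * F₁ c +
      ∑ c ∈ Cf Z Λ, Φ (ct Z W c) * ((ψ (nr (sp Z c) / Y) : ℝ) : ℂ) * (F c - F₁ c) := by
    rw [← Finset.sum_add_distrib]
    exact Finset.sum_congr rfl fun c _ => by ring
  rw [hall]
  refine (norm_add_le _ _).trans ((add_le_add hmain htail).trans (le_of_eq ?_))
  ring

end main

end H35.UX
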