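import Pool.Agent.H35.UX.Ext
import Pool.Agent.H35.UB.Lnk

/-!
# H35-UX-LNK: a linked tuple of labels which occur (single occurrences; copy of H35/UB/Lnk)
-/

set_option autoImplicit false

open scoped Classical commutatorElement
open H63.MA H35.UB

noncomputable section

namespace H35.UX

variable {P : Type} [Group P] [Fintype P] {p Nc n : ℕ} [NeZero p] {Λ : Type} [Fintype Λ]

theorem lnkx (hp : p.Prime) (S : LS Nc P Λ) (N : Subgroup P) [N.Normal]
    (hn : Nk N (n + 1) = ⊥) (R : Finset (Fin Nc)) (W : Λ → P → ℝ) (b : ℝ)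
    (hW : WOk p S N n R W b) (M : ℕ) (hM : (n + 2) * Fintype.card (Le p Λ N n) ≤ M)
    (Lkd : (Fin (n + 2) → Lt p P N) → Prop)
    (hpair : ∀ (l : Fin (n + 2) → Lt p P N) (χ' : P → ZMod p), (∀ k, (l k).ok n) →
      (Lt.mk (l 0).g (l 0).f χ').ok n → (∃ u, (l 0).χ (bru l u) ≠ χ' (bru l u)) →
      Lkd l ∨ Lkd (Function.update l 0 ⟨(l 0).g, (l 0).f, χ'⟩))
    (ν : Le p Λ N n → ℕ) (h1 : PatN S R M ν) (h2 : BadX S R ν) :
    (∃ x : Le p Λ N n, S.cls x.1 ∈ R ∧ 0 < ν x ∧
      ∀ y : P, (y : P ⧸ N) = x.2.1 → Wh N n (W x.1) x.2.2 y = 0) ∨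
    ∃ l : Fin (n + 2) → Le p Λ N n, (∀ k, S.cls (l k).1 ∈ R) ∧ (∀ k, (tl S (l k)).ok n) ∧
      Lkd (fun k => tl S (l k)) ∧
      ∀ k, (Finset.univ.filter fun j => l j = l k).card ≤ ν (l k) := by
  by_cases hcon : ∃ x : Le p Λ N n, S.cls x.1 ∈ R ∧ 0 < ν x ∧
      ∀ y : P, (y : P ⧸ N) = x.2.1 → Wh N n (W x.1) x.2.2 y = 0
  · exact Or.inl hcon
  right
  push Not at hcon
  obtain ⟨x₀, q₀, χ₀, χ₀', hx₀, hne, hν, hν'⟩ := h2
  -- frequent labels satisfy the conditions
  have hok : ∀ x : Le p Λ N n, S.cls x.1 ∈ R → 1 ≤ ν x →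
      (tl S x).ok n ∧ ∃ y, W x.1 y ≠ 0 := by
    intro x hx hνx
    obtain ⟨y, hy, hne⟩ := hcon x hx (by omega)
    exact tl_ok hp S N hn R W b hW x hx y hy hne
  -- a frequent label in every class of `R`
  have hcls : ∀ i ∈ R, ∃ x : Le p Λ N n, S.cls x.1 = i ∧ n + 2 ≤ ν x := by
    intro i hi
    by_contra hno
    push Not at hno
    have h3 := (h1 i).1 hi
    have h4 : ∑ x ∈ Finset.univ.filter (fun x : Le p Λ N n => S.cls x.1 = i), ν x ≤
        ∑ _x ∈ Finset.univ.filter (fun x : Le p Λ N n => S.cls x.1 = i), (n + 1) :=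
      Finset.sum_le_sum fun x hx => by
        have := hno x (Finset.mem_filter.1 hx).2
        omega
    rw [Finset.sum_const, smul_eq_mul] at h4
    have h5 : (Finset.univ.filter (fun x : Le p Λ N n => S.cls x.1 = i)).card ≤
        Fintype.card (Le p Λ N n) := Finset.card_le_univ _
    have h6 : 0 < Fintype.card (Le p Λ N n) := Fintype.card_pos_iff.2 ⟨(x₀, q₀, χ₀)⟩
    have h7 := Nat.mul_le_mul_right (n + 1) h5
    have h8 : Fintype.card (Le p Λ N n) * (n + 1) < (n + 2) * Fintype.card (Le p Λ N n) := by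
      nlinarith
    omega
  have hnon : Nonempty (Le p Λ N n) := ⟨(x₀, q₀, χ₀)⟩
  choose! xx hxx hνx using hcls
  have hspan := hW.span (fun i => if i ∈ R then (xx i).1 else x₀) (fun i hi => by
    simp only [if_pos hi]
    exact ⟨hxx i hi, (hok (xx i) (by rw [hxx i hi]; exact hi) (le_trans (by omega) (hνx i hi))).2⟩)
  let J : Type := {i : Fin Nc // i ∈ R}
  let g : J → P := fun j => S.val (xx j.1).1
  have hg : ∀ j, g j ∈ N := fun j =>
    (hok (xx j.1) (by rw [hxx j.1 j.2]; exact j.2) (le_trans (by omega) (hνx j.1 j.2))).1.1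
  have hrange : {y | ∃ i ∈ R, y = S.val (if i ∈ R then (xx i).1 else x₀)} = Set.range g := by
    ext y
    constructor
    · rintro ⟨i, hi, rfl⟩
      rw [if_pos hi]
      exact ⟨⟨i, hi⟩, rfl⟩
    · rintro ⟨j, rfl⟩
      refine ⟨j.1, j.2, ?_⟩
      rw [if_pos j.2]
  rw [hrange] at hspan
  have hdiff : ∃ u ∈ Nk N n, xt χ₀ u ≠ xt χ₀' u := by
    by_contra hall
    push Not at hall
    apply hne
    refine MonoidHom.ext fun u => ?_
    have h3 := hall u.1 u.2
    unfold xt at h3
    rw [dif_pos u.2, dif_pos u.2] at h3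
    exact Multiplicative.toAdd.injective h3
  obtain ⟨j, u, hu⟩ := spn2 N n hn g hg hspan (xt χ₀) (xt χ₀')
    (fun a ha c hc => xt_add χ₀ a c ha hc) (fun a ha c hc => xt_add χ₀' a c ha hc) hdiff
  obtain ⟨l, hl⟩ : ∃ l : Fin (n + 2) → Le p Λ N n,
      l = Fin.cons (α := fun _ => Le p Λ N n) (x₀, q₀, χ₀) (fun k => xx (j k).1) := ⟨_, rfl⟩
  have hl0 : l 0 = (x₀, q₀, χ₀) := by
    rw [hl]
    rfl
  have hls : ∀ k : Fin (n + 1), l k.succ = xx (j k).1 := by
    intro k
    rw [hl]
    rfl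
  have hlR : ∀ k, S.cls (l k).1 ∈ R := by
    intro k
    refine Fin.cases ?_ (fun k => ?_) k
    · rw [hl0]
      exact hx₀
    · rw [hls, hxx _ (j k).2]
      exact (j k).2
  have hmul : ∀ l' : Fin (n + 2) → Le p Λ N n, 1 ≤ ν (l' 0) →
      (∀ k : Fin (n + 1), n + 2 ≤ ν (l' k.succ)) →
      ∀ k, (Finset.univ.filter fun j => l' j = l' k).card ≤ ν (l' k) := by
    intro l' h0 hs k
    by_cases h4 : ∃ k' : Fin (n + 1), l' k'.succ = l' k
    · obtain ⟨k', h5⟩ := h4
      have h6 := hs k'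
      rw [h5] at h6
      refine le_trans ((Finset.card_le_univ _).trans ?_) h6
      rw [Fintype.card_fin]
    · push Not at h4
      have hk0 : k = 0 := by
        by_contra hk
        obtain ⟨k', rfl⟩ := Fin.exists_succ_eq.2 hk
        exact h4 k' rfl
      have h5 : (Finset.univ.filter fun j => l' j = l' k) ⊆ {0} := by
        intro j hj
        rw [Finset.mem_singleton]
        by_contra hj0
        obtain ⟨j', rfl⟩ := Fin.exists_succ_eq.2 hj0
        exact h4 j' (Finset.mem_filter.1 hj).2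
      refine (Finset.card_le_card h5).trans ?_
      rw [Finset.card_singleton, hk0]
      exact h0
  have hlν : ∀ k, 1 ≤ ν (l k) := by
    intro k
    refine Fin.cases ?_ (fun k => ?_) k
    · rw [hl0]
      exact hν
    · rw [hls]
      exact le_trans (by omega) (hνx _ (j k).2)
  have hlok : ∀ k, (tl S (l k)).ok n := fun k => (hok (l k) (hlR k) (hlν k)).1
  have hok' : (tl S ((x₀, q₀, χ₀') : Le p Λ N n)).ok n := (hok _ hx₀ hν').1
  have hbru : bru (fun k => tl S (l k)) u =
      brk (List.ofFn fun k : Fin (n + 1) => u k.rev * g (j k.rev) * (u k.rev)⁻¹) := by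
    unfold bru
    congr 1
    refine congrArg List.ofFn (funext fun k => ?_)
    show u k.rev * S.val (l k.rev.succ).1 * (u k.rev)⁻¹ = _
    rw [hls]
  have h0 : tl S (l 0) = ⟨S.val x₀, q₀, xt χ₀⟩ := by
    rw [hl0]
    rfl
  rcases hpair (fun k => tl S (l k)) (xt χ₀') hlok (by
    rw [h0]
    exact hok') ⟨u, by
      rw [hbru]
      rw [h0]
      exact hu⟩ with h3 | h3
  · exact ⟨l, hlR, hlok, h3, hmul l (hlν 0) (fun k => by rw [hls]; exact hνx _ (j k).2)⟩
  · refine ⟨Function.update l 0 (x₀, q₀, χ₀'), fun k => ?_, fun k => ?_, ?_, hmul _ ?_ fun k => ?_⟩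
    · by_cases hk : k = 0
      · subst hk
        rw [Function.update_self]
        exact hx₀
      · rw [Function.update_of_ne hk]
        exact hlR k
    · by_cases hk : k = 0
      · subst hk
        rw [Function.update_self]
        exact hok'
      · rw [Function.update_of_ne hk]
        exact hlok k
    · have h4 : (fun k => tl S (Function.update l 0 (x₀, q₀, χ₀') k)) =
          Function.update (fun k => tl S (l k)) 0
            ⟨(tl S (l 0)).g, (tl S (l 0)).f, xt χ₀'⟩ := by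
        funext k
        by_cases hk : k = 0
        · subst hk
          rw [Function.update_self, Function.update_self, h0]
          rfl
        · rw [Function.update_of_ne hk, Function.update_of_ne hk]
      rw [h4]
      exact h3
    · rw [Function.update_self]
      exact hν'
    · rw [Function.update_of_ne (Fin.succ_ne_zero k), hls]
      exact hνx _ (j k).2

end H35.UX
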