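import Pool.Agent.H35.UX.Goo
import Pool.Agent.H35.UX.Bad
import Pool.Agent.H35.UX.Lnk

/-!
# H35-UX-ALS: the abstract level step at the large primes WITHOUT LOSS

`alsx`: `SAx(W, V) ≤ C SAx(wav W, V) + Y (log Y)^(-A₂)`, given the box lemma `BLatX` for this `Y` and these words; the weights `V` of the other primes stay.
-/

set_option autoImplicit false

open scoped NumberField
open IsDedekindDomain
open scoped Classical

noncomputable section

namespace H35.UX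

open H63.MA H38.BB H38.BG H57.PC H57.BRA H77.WD H77.WE H77.PC3 H35.CF H35.UB

section lin

variable {K : Type} [Field K] [NumberField K] {Ω : Type} [Field Ω] [Algebra K Ω]
  {p : ℕ} [NeZero p] {ζ : K} {D : RD0 K p ζ} {P : Type} [Group P] [Fintype P] {Nc n : ℕ}
  {Λ : Type} [Fintype Λ]

theorem sex_sum {ι : Type} (s : Finset ι) (S : LS Nc P Λ) (L : LDs D Ω) (A : GS D Ω) (X : Pl K → FW A)
    (N : Subgroup P) [N.Normal] (R : Finset (Fin Nc)) (T : ℝ) (Zw E : Finset (Pl K))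
    (e : Pl K → P) (W V : Λ → P → ℝ) (Φ : ι → (Le p Λ N n → ℕ) → ℂ) (Y : ℝ) :
    SEx S L A X N n R T Zw E e W V (fun ν => ∑ i ∈ s, Φ i ν) Y =
      ∑ i ∈ s, SEx S L A X N n R T Zw E e W V (Φ i) Y := by
  unfold SEx
  rw [Finset.sum_comm' (t' := Cf (Zg D Zw E) (Le p Λ N n)) (s' := fun _ => s)
    (fun x y => by tauto)]
  refine Finset.sum_congr rfl fun f _ => ?_
  rw [Finset.sum_comm]
  refine Finset.sum_congr rfl fun α _ => ?_
  split_ifs with h
  · rw [Finset.sum_mul, Finset.sum_mul]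
  · rw [Finset.sum_const_zero]

theorem sex_zero (S : LS Nc P Λ) (L : LDs D Ω) (A : GS D Ω) (X : Pl K → FW A)
    (N : Subgroup P) [N.Normal] (R : Finset (Fin Nc)) (T : ℝ) (Zw E : Finset (Pl K))
    (e : Pl K → P) (W V : Λ → P → ℝ) (Φ : (Le p Λ N n → ℕ) → ℂ) (Y : ℝ)
    (h : ∀ ν, Φ ν ≠ 0 → ∃ x : Le p Λ N n, S.cls x.1 ∈ R ∧ 0 < ν x ∧
      ∀ y : P, (y : P ⧸ N) = x.2.1 → Wh N n (W x.1) x.2.2 y = 0) :
    SEx S L A X N n R T Zw E e W V Φ Y = 0 := by
  unfold SEx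
  refine Finset.sum_eq_zero fun f _ => Finset.sum_eq_zero fun α _ => ?_
  split_ifs with hH
  · by_cases h1 : Φ (ct (Zg D Zw E) (fun v => T < (nm v : ℝ)) f) = 0
    · rw [h1, zero_mul, zero_mul]
    · obtain ⟨x, hx1, hx2, hx3⟩ := h _ h1
      unfold ct at hx2
      obtain ⟨v, hv⟩ := Finset.card_pos.1 hx2
      rw [Finset.mem_filter, mem_pl] at hv
      refine mul_eq_zero_of_right _ (Finset.prod_eq_zero hv.1.1 ?_)
      rw [hv.1.2]
      change wex S N n R T W V v x _ = 0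
      unfold wex
      rw [if_pos ⟨hx1, hv.2⟩]
      split_ifs with h2
      · exact hx3 _ h2
      · rfl
  · rfl

end lin

variable {K : Type} [Field K] [NumberField K] {Ω : Type} [Field Ω] [Algebra K Ω]
  {p : ℕ} [NeZero p] {ζ : K} {P : Type} [Group P] [Fintype P] {Nc n : ℕ}
  {Λ : Type} [Fintype Λ]

theorem alsx (hp : p.Prime) (D : RD0 K p ζ) (A : GS D Ω)
    (S : LS Nc P Λ) (N : Subgroup P) [N.Normal] (hn : Nk N (n + 1) = ⊥)
    (hV : ∀ u ∈ Nk N n, u ^ p = 1) (R : Finset (Fin Nc))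
    (M : ℕ) (hM : (n + 2) * Fintype.card (Le p Λ N n) ≤ M)
    (W V : Λ → P → ℝ) (b : ℝ) (hW : WOk p S N n R W b) (hV0 : ∀ x y, 0 ≤ V x y ∧ V x y ≤ b)
    (A₁ A₂ ε : ℝ) (hε : 0 < ε) (hε1 : ε < 1) :
    ∃ C C₁ A₀ Y₀ : ℝ, 1 ≤ C ∧ 2 ≤ C₁ ∧ 0 ≤ A₀ ∧ 3 ≤ Y₀ ∧ ∀ C₁' A₀' : ℝ, C₁ ≤ C₁' → A₀ ≤ A₀' →
      ∀ Y : ℝ, Y₀ ≤ Y → ∀ (L : LDs D Ω) (X : Pl K → FW A) (Zw E : Finset (Pl K)) (e : Pl K → P),
      EOk A₁ Y Zw E → BLatX L A X Zw E N n C₁' A₀' ε Y →
      SAx S L A X N R M (T0 ε Y) Zw E e W V Y ≤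
        C * SAx S L A X N R M (T0 ε Y) Zw E e (fun x => wav N n (W x)) V Y +
          Y * Real.log Y ^ (-A₂) := by
  obtain ⟨C, hCd⟩ : ∃ C : ℝ, C = (Fintype.card (Λ × (P ⧸ N) → Xc p N n) : ℝ) := ⟨_, rfl⟩
  have hC : 1 ≤ C := by
    rw [hCd]
    exact_mod_cast Fintype.card_pos
  obtain ⟨C₁, A₀, Y₂, hC₁, hA₀, hY₂, hbad⟩ := badl hp D A S N hn R W V b hW hV0 A₁ (A₂ + 1) ε
    hε hε1
  obtain ⟨H, hH⟩ : ∃ H : ℝ, H = Fintype.card (Fin (n + 2) → Le p Λ N n) + 1 := ⟨_, rfl⟩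
  refine ⟨C, C₁, A₀, max Y₂ (Real.exp H), hC, hC₁, hA₀, hY₂.trans (le_max_left _ _),
    fun C₁' A₀' hC₁' hA₀' Y hY L X Zw E e hE hbl => ?_⟩
  have hYb : Y₂ ≤ Y := (le_max_left _ _).trans hY
  have hYH : Real.exp H ≤ Y := (le_max_right _ _).trans hY
  have hY0 : 0 < Y := by linarith
  have hlH : H ≤ Real.log Y := by
    rw [← Real.log_exp H]
    exact Real.log_le_log (Real.exp_pos _) hYH
  have hl0 : 0 < Real.log Y := Real.log_pos (by linarith)
  obtain ⟨Lkd, hpair, hbox⟩ := hbl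
  obtain ⟨G, hG⟩ : ∃ G : (Fin (n + 2) → Le p Λ N n) → (Le p Λ N n → ℕ) → Prop,
      G = fun l ν => (∀ k, S.cls (l k).1 ∈ R) ∧ (∀ k, (tl S (l k)).ok n) ∧
        Lkd (fun k => tl S (l k)) ∧
        ∀ k, (Finset.univ.filter fun j => l j = l k).card ≤ ν (l k) := ⟨_, rfl⟩
  obtain ⟨cf, hcf⟩ : ∃ cf : (Le p Λ N n → ℕ) → Option (Fin (n + 2) → Le p Λ N n),
      cf = fun ν => if h : ∃ l, G l ν then some h.choose else none := ⟨_, rfl⟩
  have hcf1 : ∀ ν l, cf ν = some l → G l ν := by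
    intro ν l h
    rw [hcf] at h
    beta_reduce at h
    by_cases h1 : ∃ l, G l ν
    · rw [dif_pos h1] at h
      rw [← Option.some.inj h]
      exact h1.choose_spec
    · rw [dif_neg h1] at h
      exact absurd h (by simp)
  have hcf2 : ∀ ν, cf ν = none → ¬ ∃ l, G l ν := by
    intro ν h h1
    rw [hcf] at h
    beta_reduce at h
    rw [dif_pos h1] at h
    exact absurd h (by simp)
  obtain ⟨Φ, hΦ⟩ : ∃ Φ : Option (Option (Fin (n + 2) → Le p Λ N n)) → (Le p Λ N n → ℕ) → ℂ,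
      Φ = fun o ν => o.elim (if PatN S R M ν ∧ ¬ BadX S R ν then 1 else 0) fun o' =>
        if (PatN S R M ν ∧ BadX S R ν) ∧ cf ν = o' then 1 else 0 := ⟨_, rfl⟩
  have hsum : (fun ν => if PatN S R M ν then (1 : ℂ) else 0) = fun ν => ∑ o, Φ o ν := by
    funext ν
    rw [hΦ, Fintype.sum_option]
    change _ = (if PatN S R M ν ∧ ¬ BadX S R ν then 1 else 0) +
      ∑ o' : Option (Fin (n + 2) → Le p Λ N n),
        if (PatN S R M ν ∧ BadX S R ν) ∧ cf ν = o' then 1 else 0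
    by_cases h1 : PatN S R M ν
    · by_cases h2 : BadX S R ν
      · rw [if_pos h1, if_neg fun h => h.2 h2, zero_add, Finset.sum_eq_single (cf ν)]
        · rw [if_pos ⟨⟨h1, h2⟩, rfl⟩]
        · intro o _ ho
          exact if_neg fun h => ho h.2.symm
        · intro h
          exact absurd (Finset.mem_univ _) h
      · rw [if_pos h1, if_pos ⟨h1, h2⟩, Finset.sum_eq_zero, add_zero]
        intro o _
        exact if_neg fun h => h2 h.1.2
    · rw [if_neg h1, if_neg fun h => h1 h.1, Finset.sum_eq_zero, add_zero]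
      intro o _
      exact if_neg fun h => h1 h.1.1
  have hext := extx (n := n) hp S L A X N hn hV R M (T0 ε Y) Zw E e W V Y
  rw [hsum, sex_sum, Fintype.sum_option, Fintype.sum_option] at hext
  have hn1 : SEx S L A X N n R (T0 ε Y) Zw E e W V (Φ (some none)) Y = 0 := by
    refine sex_zero S L A X N R (T0 ε Y) Zw E e W V _ Y fun ν hν => ?_
    rw [hΦ] at hν
    have hν' : (PatN S R M ν ∧ BadX S R ν) ∧ cf ν = none := by
      by_contra h
      exact hν (if_neg h)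
    rcases lnkx hp S N hn R W b hW M hM Lkd hpair ν hν'.1.1 hν'.1.2 with h | ⟨l, hl⟩
    · exact h
    · refine absurd ⟨l, ?_⟩ (hcf2 ν hν'.2)
      rw [hG]
      exact hl
  have hl1 : ∀ l : Fin (n + 2) → Le p Λ N n,
      ‖SEx S L A X N n R (T0 ε Y) Zw E e W V (Φ (some (some l))) Y‖ ≤
        Y * Real.log Y ^ (-(A₂ + 1)) := by
    intro l
    have hkey : ∀ ν, Φ (some (some l)) ν ≠ 0 → G l ν := by
      intro ν hν
      rw [hΦ] at hν
      refine hcf1 ν l ?_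
      by_contra h
      exact hν (if_neg fun h2 => h h2.2)
    by_cases hex : ∃ ν, Φ (some (some l)) ν ≠ 0
    · obtain ⟨ν, hν⟩ := hex
      have hGl := hkey ν hν
      rw [hG] at hGl
      refine hbad C₁' A₀' hC₁' hA₀' Y hYb L X Zw E e hE l hGl.1 hGl.2.1
        (hbox _ hGl.2.1 hGl.2.2.1) _ ?_ ?_
      · intro ν'
        rw [hΦ]
        change ‖(if _ then (1 : ℂ) else 0)‖ ≤ 1
        split_ifs
        · rw [norm_one]
        · rw [norm_zero]
          exact zero_le_one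
      · intro ν' hν'
        have := hkey ν' hν'
        rw [hG] at this
        exact this.2.2.2
    · push Not at hex
      have h0 : SEx S L A X N n R (T0 ε Y) Zw E e W V (Φ (some (some l))) Y = 0 :=
        sex_zero S L A X N R (T0 ε Y) Zw E e W V _ Y fun ν hν => absurd (hex ν) hν
      rw [h0, norm_zero]
      exact mul_nonneg hY0.le (Real.rpow_nonneg hl0.le _)
  have hg1 := goox A S N R M W V b hW hV0 Y L X (T0 ε Y) Zw E e
  rw [← hCd] at hg1
  have hnone : Φ none = fun ν => if PatN S R M ν ∧ ¬ BadX S R ν then (1 : ℂ) else 0 := by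
    rw [hΦ]
    rfl
  rw [hnone, hn1, zero_add] at hext
  have hnn : SAx S L A X N R M (T0 ε Y) Zw E e W V Y ≤
      ‖((SAx S L A X N R M (T0 ε Y) Zw E e W V Y : ℝ) : ℂ)‖ := by
    rw [Complex.norm_real]
    exact Real.le_norm_self _
  refine hnn.trans ?_
  rw [hext]
  refine (norm_add_le _ _).trans ?_
  have hs : ‖∑ l : Fin (n + 2) → Le p Λ N n,
      SEx S L A X N n R (T0 ε Y) Zw E e W V (Φ (some (some l))) Y‖ ≤
      Fintype.card (Fin (n + 2) → Le p Λ N n) * (Y * Real.log Y ^ (-(A₂ + 1))) := by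
    refine (norm_sum_le _ _).trans ((Finset.sum_le_sum fun l _ => hl1 l).trans ?_)
    rw [Finset.sum_const, Finset.card_univ, nsmul_eq_mul]
  have hfin : Fintype.card (Fin (n + 2) → Le p Λ N n) * (Y * Real.log Y ^ (-(A₂ + 1))) +
      Y * Real.log Y ^ (-(A₂ + 1)) ≤ Y * Real.log Y ^ (-A₂) := by
    have e1 : -(A₂ + 1) = -A₂ + (-1 : ℝ) := by ring
    rw [e1, Real.rpow_add hl0, Real.rpow_neg_one]
    have hr : 0 ≤ Y * Real.log Y ^ (-A₂) := mul_nonneg hY0.le (Real.rpow_nonneg hl0.le _)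
    have h5 : H * (Real.log Y)⁻¹ ≤ 1 := by
      rw [← div_eq_mul_inv, div_le_one hl0]
      exact hlH
    calc _ = (Y * Real.log Y ^ (-A₂)) * (H * (Real.log Y)⁻¹) := by
          rw [hH]
          ring
      _ ≤ (Y * Real.log Y ^ (-A₂)) * 1 := mul_le_mul_of_nonneg_left h5 hr
      _ = _ := mul_one _
  have hnn2 : 0 ≤ Y * Real.log Y ^ (-(A₂ + 1)) :=
    mul_nonneg hY0.le (Real.rpow_nonneg hl0.le _)
  linarith

end H35.UX
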