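import Pool.Agent.H35.UX.Defs

/-!
# H35-UX-EXT: expansion in characters at the large primes of rich classes (weights at all primes, words `X`)

* `wex`, `SEx`: the extended weights and sums. `BadX`: two different characters which occur with the same `(x, q)`, the class of `x` in `R`.
* `extx`: `SAx = SEx` with the indicator function of the pattern.
-/

set_option autoImplicit false

open scoped NumberField
open IsDedekindDomain
open scoped Classical

noncomputable section

namespace H35.UX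

open H63.MA H38.BB H38.BG H57.PC H57.BRA H77.WD H77.WE H77.PC3 H35.CF H35.UB

/-- two different characters which occur -/
def BadX {P Λ : Type} [Group P] {p n Nc : ℕ} (S : LS Nc P Λ) {N : Subgroup P} [N.Normal]
    (R : Finset (Fin Nc)) (ν : Le p Λ N n → ℕ) : Prop :=
  ∃ (x : Λ) (q : P ⧸ N) (χ χ' : Xc p N n), S.cls x ∈ R ∧ χ ≠ χ' ∧ 1 ≤ ν (x, q, χ) ∧
    1 ≤ ν (x, q, χ')

section loc

variable {K : Type} [Field K] [NumberField K] {Ω : Type} [Field Ω] [Algebra K Ω]
  {p : ℕ} [NeZero p] {ζ : K} {D : RD0 K p ζ} {P : Type} [Group P] [Fintype P] {Nc n : ℕ}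
  {Λ : Type} [Fintype Λ]

/-- the weight of an extended label -/
def wex (S : LS Nc P Λ) (N : Subgroup P) [N.Normal] (n : ℕ) (R : Finset (Fin Nc)) (T : ℝ)
    (W V : Λ → P → ℝ) (v : Pl K) (x : Le p Λ N n) (y : P) : ℂ :=
  if RL S.cls R T v x.1 then (if (y : P ⧸ N) = x.2.1 then Wh N n (W x.1) x.2.2 y else 0)
  else if x.2.1 = 1 ∧ x.2.2 = 1 then (V x.1 y : ℂ) else 0

/-- the sum over the extended configurations -/
def SEx (S : LS Nc P Λ) (L : LDs D Ω) (A : GS D Ω) (X : Pl K → FW A) (N : Subgroup P) [N.Normal]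
    (n : ℕ) (R : Finset (Fin Nc)) (T : ℝ) (Zw E : Finset (Pl K)) (e : Pl K → P)
    (W V : Λ → P → ℝ) (Φ : (Le p Λ N n → ℕ) → ℂ) (Y : ℝ) : ℂ :=
  ∑ f ∈ Cf (Zg D Zw E) (Le p Λ N n), ∑ α : Fin A.g → P,
    if Hs L A E N (sp (Zg D Zw E) f) (ev A (lab E e (fun x => S.val x.1) f) α) then
      Φ (ct (Zg D Zw E) (fun v => T < (nm v : ℝ)) f) * (psi (nc (Zg D Zw E) f / Y) : ℂ) *
        om (Zg D Zw E) (fun v x => wex S N n R T W V v x
          (ev A (lab E e (fun x => S.val x.1) f) α (X v))) f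
    else 0

section hlp

variable {N : Subgroup P} [N.Normal]

theorem wex_sum (hp : p.Prime) (S : LS Nc P Λ) (hn : Nk N (n + 1) = ⊥)
    (hV : ∀ u ∈ Nk N n, u ^ p = 1)
    (R : Finset (Fin Nc)) (T : ℝ) (W V : Λ → P → ℝ) (v : Pl K) (y : Λ) (z : P) :
    ∑ x ∈ Finset.univ.filter (fun x : Le p Λ N n => x.1 = y), wex S N n R T W V v x z =
      ((if RL S.cls R T v y then W y z else V y z : ℝ) : ℂ) := by
  have h1 : ∀ g : Le p Λ N n → ℂ, ∑ x ∈ Finset.univ.filter (fun x : Le p Λ N n => x.1 = y), g x =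
      ∑ x : (P ⧸ N) × Xc p N n, g (y, x) := by
    intro g
    rw [Finset.sum_filter, Fintype.sum_prod_type]
    rw [Finset.sum_eq_single y]
    · refine Finset.sum_congr rfl fun x _ => ?_
      rw [if_pos rfl]
    · intro z _ hz
      refine Finset.sum_eq_zero fun x _ => ?_
      rw [if_neg hz]
    · intro h
      exact absurd (Finset.mem_univ _) h
  rw [h1]
  unfold wex
  by_cases hR : RL S.cls R T v y
  · simp only [if_pos hR]
    rw [Fintype.sum_prod_type, Finset.sum_eq_single ((z : P ⧸ N))]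
    · simp only [if_true]
      exact wh_sum hp N n hn hV (W y) z
    · intro q _ hq
      refine Finset.sum_eq_zero fun x _ => ?_
      exact if_neg fun h => hq h.symm
    · intro h
      exact absurd (Finset.mem_univ _) h
  · simp only [if_neg hR]
    rw [Finset.sum_eq_single ((1 : P ⧸ N), (1 : Xc p N n))]
    · rw [if_pos ⟨rfl, rfl⟩]
    · intro x _ hx
      exact if_neg fun h => hx (Prod.ext h.1 h.2)
    · intro h
      exact absurd (Finset.mem_univ _) h

end hlp

theorem extx (hp : p.Prime) (S : LS Nc P Λ) (L : LDs D Ω)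
    (A : GS D Ω) (X : Pl K → FW A) (N : Subgroup P) [N.Normal] (hn : Nk N (n + 1) = ⊥)
    (hV : ∀ u ∈ Nk N n, u ^ p = 1)
    (R : Finset (Fin Nc)) (M : ℕ) (T : ℝ) (Zw E : Finset (Pl K)) (e : Pl K → P)
    (W V : Λ → P → ℝ) (Y : ℝ) :
    (SAx S L A X N R M T Zw E e W V Y : ℂ) =
      SEx S L A X N n R T Zw E e W V (fun ν => if PatN S R M ν then 1 else 0) Y := by
  unfold SAx SEx
  rw [Finset.sum_comm, Finset.sum_comm (s := Cf (Zg D Zw E) (Le p Λ N n)), Complex.ofReal_sum]
  refine Finset.sum_congr rfl fun α _ => ?_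
  rw [Complex.ofReal_sum]
  have h1 := cf_fib (Zg D Zw E) (Prod.fst : Le p Λ N n → Λ)
    (fun c => if Pat S.cls R (Zg D Zw E) T M c ∧
        Hs L A E N (sp (Zg D Zw E) c) (ev A (lab E e S.val c) α) then
        (psi (nc (Zg D Zw E) c / Y) : ℂ) else 0)
    (fun c v x => wex S N n R T W V v x (ev A (lab E e S.val c) α (X v)))
  have h2 : ∀ c ∈ Cf (Zg D Zw E) Λ, ((if Pat S.cls R (Zg D Zw E) T M c ∧
        Hs L A E N (sp (Zg D Zw E) c) (ev A (lab E e S.val c) α) then
      psi (nc (Zg D Zw E) c / Y) * om (Zg D Zw E) (fun v x =>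
        if RL S.cls R T v x then W x (ev A (lab E e S.val c) α (X v))
        else V x (ev A (lab E e S.val c) α (X v))) c
    else 0 : ℝ) : ℂ) = (if Pat S.cls R (Zg D Zw E) T M c ∧
        Hs L A E N (sp (Zg D Zw E) c) (ev A (lab E e S.val c) α) then
        (psi (nc (Zg D Zw E) c / Y) : ℂ) else 0) *
      om (Zg D Zw E) (fun v y => ∑ x ∈ Finset.univ.filter (fun x : Le p Λ N n => x.1 = y),
        wex S N n R T W V v x (ev A (lab E e S.val c) α (X v))) c := by
    intro c _
    simp only [wex_sum hp S hn hV R T W V]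
    rw [← om_cast]
    split_ifs with h
    · rw [Complex.ofReal_mul]
    · rw [Complex.ofReal_zero, zero_mul]
  rw [Finset.sum_congr rfl h2]
  refine Eq.trans h1.symm (Finset.sum_congr rfl fun f _ => ?_)
  rw [lab_mp, sp_mp]
  beta_reduce
  have h3 : PatN S R M (ct (Zg D Zw E) (fun v => T < (nm v : ℝ)) f) ↔
      Pat S.cls R (Zg D Zw E) T M (mp Prod.fst f) := by
    unfold PatN Pat
    simp only [cn_ct]
  have h4 : nc (Zg D Zw E) (mp Prod.fst f) = nc (Zg D Zw E) f := by
    unfold nc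
    rw [sp_mp]
  rw [h4]
  by_cases hH : Hs L A E N (sp (Zg D Zw E) f) (ev A (lab E e S.val (mp Prod.fst f)) α)
  · rw [if_pos hH]
    by_cases hP : Pat S.cls R (Zg D Zw E) T M (mp Prod.fst f)
    · rw [if_pos ⟨hP, hH⟩, if_pos (h3.2 hP), one_mul]
    · rw [if_neg fun h => hP h.1, if_neg fun h => hP (h3.1 h), zero_mul, zero_mul, zero_mul]
  · rw [if_neg hH, if_neg fun h => hH h.2, zero_mul]

end loc

end H35.UX
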