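import Pool.Agent.H35.UX.Ub

/-!
# H35-UX-GOO: the good part of the level step, without loss

* `fib_cardx`: over a configuration `f'` there are at most `#(Λ × P ⧸ N → Xc)` extended configurations without two characters at the same `(x, q)`.
* `goox`: the part of `SEx` with pattern `R` and without such pairs is at most a constant times `SAx` with the weights `wav W` at the large primes of rich classes.
-/

set_option autoImplicit false

open scoped NumberField
open IsDedekindDomain
open scoped Classical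

noncomputable section

namespace H35.UX

open H63.MA H38.BB H38.BG H57.PC H57.BRA H77.WD H77.WE H77.PC3 H35.CF H35.UB H1.BD

section fib

variable {K : Type} [Field K] [NumberField K] {p : ℕ} [NeZero p] {P : Type} [Group P] [Fintype P]
  {Nc n : ℕ} {Λ : Type} [Fintype Λ]

theorem wex_ne {S : LS Nc P Λ} {N : Subgroup P} [N.Normal] {R : Finset (Fin Nc)} {T : ℝ}
    {W V : Λ → P → ℝ} {v : Pl K} {x : Le p Λ N n} {y : P} (h : wex S N n R T W V v x y ≠ 0) :
    (RL S.cls R T v x.1 ∧ x.2.1 = (y : P ⧸ N)) ∨ (¬ RL S.cls R T v x.1 ∧ x.2.1 = 1 ∧ x.2.2 = 1) := by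
  unfold wex at h
  by_cases h1 : RL S.cls R T v x.1
  · rw [if_pos h1] at h
    left
    refine ⟨h1, ?_⟩
    by_contra h2
    exact h (if_neg fun h3 => h2 h3.symm)
  · rw [if_neg h1] at h
    right
    refine ⟨h1, ?_⟩
    by_contra h2
    exact h (if_neg h2)

/-- the character which belongs to `(x, q)` -/
private def gx (S : LS Nc P Λ) {N : Subgroup P} [N.Normal] (R : Finset (Fin Nc)) (T : ℝ)
    (Z : Finset (Pl K)) (f : Pl K → Option (Le p Λ N n)) (b : Λ × (P ⧸ N)) : Xc p N n :=
  if h : ∃ χ : Xc p N n, 1 ≤ ct Z (fun v => T < (nm v : ℝ)) f (b.1, b.2, χ) ∧ S.cls b.1 ∈ R then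
    h.choose else 1

theorem fib_cardx {S : LS Nc P Λ} {N : Subgroup P} [N.Normal] {R : Finset (Fin Nc)} (T : ℝ)
    (W V : Λ → P → ℝ) (Z : Finset (Pl K)) (f' : Pl K → Option Λ) (y : Pl K → P) :
    ((Cf Z (Le p Λ N n)).filter fun f => mp Prod.fst f = f' ∧
      ¬ BadX S R (ct Z (fun v => T < (nm v : ℝ)) f) ∧
      om Z (fun v x => wex S N n R T W V v x (y v)) f ≠ 0).card ≤
      Fintype.card (Λ × (P ⧸ N) → Xc p N n) := by
  rw [← Finset.card_univ]
  have hf : ∀ f : Pl K → Option (Le p Λ N n), mp Prod.fst f = f' →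
      om Z (fun v x => wex S N n R T W V v x (y v)) f ≠ 0 → ∀ v ∈ Z, ∀ x, f' v = some x →
      ∃ q χ, f v = some (x, q, χ) ∧ ((RL S.cls R T v x ∧ q = (y v : P ⧸ N)) ∨
        (¬ RL S.cls R T v x ∧ q = 1 ∧ χ = 1)) := by
    intro f h1 h2 v hv x hx
    rw [← h1] at hx
    unfold mp at hx
    rw [Option.map_eq_some_iff] at hx
    obtain ⟨⟨x', q, χ⟩, h3, h4⟩ := hx
    obtain rfl : x' = x := h4
    refine ⟨q, χ, h3, ?_⟩
    have h5 : wex S N n R T W V v (x', q, χ) (y v) ≠ 0 := by
      intro h6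
      refine h2 (Finset.prod_eq_zero hv ?_)
      rw [h3]
      exact h6
    exact wex_ne h5
  have hg : ∀ f : Pl K → Option (Le p Λ N n), ¬ BadX S R (ct Z (fun v => T < (nm v : ℝ)) f) →
      ∀ v ∈ Z, ∀ x q χ, f v = some (x, q, χ) → RL S.cls R T v x →
      gx S R T Z f (x, q) = χ := by
    intro f hb v hv x q χ h1 h2
    have h3 : 1 ≤ ct Z (fun v => T < (nm v : ℝ)) f (x, q, χ) := by
      unfold ct
      rw [Nat.one_le_iff_ne_zero, Ne, Finset.card_eq_zero]
      intro h4
      have h5 : v ∈ (pl Z f (x, q, χ)).filter fun v => T < (nm v : ℝ) := by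
        rw [Finset.mem_filter, mem_pl]
        exact ⟨⟨hv, h1⟩, h2.2⟩
      rw [h4] at h5
      exact absurd h5 (Finset.notMem_empty _)
    have h4 : ∃ χ : Xc p N n, 1 ≤ ct Z (fun v => T < (nm v : ℝ)) f (x, q, χ) ∧ S.cls x ∈ R :=
      ⟨χ, h3, h2.1⟩
    unfold gx
    rw [dif_pos h4]
    by_contra h5
    exact hb ⟨x, q, h4.choose, χ, h2.1, h5, h4.choose_spec.1, h3⟩
  refine Finset.card_le_card_of_injOn (fun f => gx S R T Z f) (fun f _ => Finset.mem_univ _) ?_
  intro f hf1 g hg1 hfg
  rw [Finset.mem_coe, Finset.mem_filter] at hf1 hg1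
  obtain ⟨h1, h2, hb1, h4⟩ := hf1
  obtain ⟨g1, g2, hb2, g4⟩ := hg1
  rw [mem_cf] at h1 g1
  beta_reduce at hfg
  funext v
  by_cases hv : v ∈ Z
  · by_cases hn : f' v = none
    · have k1 : f v = none := by
        have : (f v).map Prod.fst = none := (congrFun h2 v).trans hn
        exact Option.map_eq_none_iff.1 this
      have k2 : g v = none := by
        have : (g v).map Prod.fst = none := (congrFun g2 v).trans hn
        exact Option.map_eq_none_iff.1 this
      rw [k1, k2]
    · obtain ⟨x, hx⟩ := Option.ne_none_iff_exists'.1 hn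
      obtain ⟨q, χ, h5, h6⟩ := hf f h2 h4 v hv x hx
      obtain ⟨q', χ', g5, g6⟩ := hf g g2 g4 v hv x hx
      rcases h6 with h6 | h6 <;> rcases g6 with g6 | g6
      · have e1 := hg f hb1 v hv x q χ h5 h6.1
        have e2 := hg g hb2 v hv x q' χ' g5 g6.1
        have e3 : q = q' := by rw [h6.2, g6.2]
        subst e3
        rw [h5, g5, ← e1, ← e2, hfg]
      · exact absurd h6.1 g6.1
      · exact absurd g6.1 h6.1
      · rw [h5, g5, h6.2.1, h6.2.2, g6.2.1, g6.2.2]
  · rw [h1 v hv, g1 v hv]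

theorem fib_boundx {S : LS Nc P Λ} {N : Subgroup P} [N.Normal] {R : Finset (Fin Nc)} (T : ℝ)
    (W V : Λ → P → ℝ) {b : ℝ} (hW : WOk p S N n R W b) (hV0 : ∀ x y, 0 ≤ V x y ∧ V x y ≤ b)
    (Z : Finset (Pl K)) (f' : Pl K → Option Λ) (y : Pl K → P) :
    ∑ f ∈ (Cf Z (Le p Λ N n)).filter (fun f => mp Prod.fst f = f'),
      (if BadX S R (ct Z (fun v => T < (nm v : ℝ)) f) then 0 else
        ‖om Z (fun v x => wex S N n R T W V v x (y v)) f‖) ≤
      (Fintype.card (Λ × (P ⧸ N) → Xc p N n) : ℝ) * om Z (fun v x => if RL S.cls R T v x then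
        wav N n (W x) (y v) else V x (y v)) f' := by
  have h1 : ∀ f ∈ (Cf Z (Le p Λ N n)).filter (fun f => mp Prod.fst f = f'),
      (if BadX S R (ct Z (fun v => T < (nm v : ℝ)) f) then 0 else
        ‖om Z (fun v x => wex S N n R T W V v x (y v)) f‖) ≤
      if ¬ BadX S R (ct Z (fun v => T < (nm v : ℝ)) f) ∧
        om Z (fun v x => wex S N n R T W V v x (y v)) f ≠ 0 then
        om Z (fun v x => if RL S.cls R T v x then wav N n (W x) (y v) else V x (y v)) f' else 0 := by
    intro f hf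
    have hf' := (Finset.mem_filter.1 hf).2
    by_cases h2 : BadX S R (ct Z (fun v => T < (nm v : ℝ)) f)
    · rw [if_pos h2, if_neg fun h => h.1 h2]
    · rw [if_neg h2]
      by_cases h3 : om Z (fun v x => wex S N n R T W V v x (y v)) f = 0
      · rw [if_neg fun h => h.2 h3, h3, norm_zero]
      · rw [if_pos ⟨h2, h3⟩, om_norm]
        unfold om
        refine Finset.prod_le_prod (fun v _ => ?_) fun v _ => ?_
        · cases f v with
          | none => exact zero_le_one
          | some x => exact norm_nonneg _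
        · rw [← hf']
          unfold mp
          cases f v with
          | none => exact le_rfl
          | some x => exact wex_le hW hV0 v x (y v)
  refine (Finset.sum_le_sum h1).trans ?_
  rw [← Finset.sum_filter, Finset.filter_filter, Finset.sum_const, nsmul_eq_mul]
  have h4 : 0 ≤ om Z (fun v x => if RL S.cls R T v x then wav N n (W x) (y v)
      else V x (y v)) f' := by
    refine Finset.prod_nonneg fun v _ => ?_
    cases f' v with
    | none => exact zero_le_one
    | some x =>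
      change 0 ≤ if RL S.cls R T v x then wav N n (W x) (y v) else V x (y v)
      split_ifs
      · unfold wav
        exact div_nonneg (Finset.sum_nonneg fun u _ => (hW.w0 _ _).1) (Nat.cast_nonneg _)
      · exact (hV0 _ _).1
  refine mul_le_mul_of_nonneg_right ?_ h4
  exact_mod_cast fib_cardx (S := S) T W V Z f' y

end fib

variable {K : Type} [Field K] [NumberField K] {Ω : Type} [Field Ω] [Algebra K Ω]
  {p : ℕ} [NeZero p] {ζ : K} {P : Type} [Group P] [Fintype P] {Nc n : ℕ}
  {Λ : Type} [Fintype Λ]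

/-- the good part of the level step -/
theorem goox {D : RD0 K p ζ} (A : GS D Ω) (S : LS Nc P Λ)
    (N : Subgroup P) [N.Normal] (R : Finset (Fin Nc)) (M : ℕ)
    (W V : Λ → P → ℝ) (b : ℝ) (hW : WOk p S N n R W b) (hV0 : ∀ x y, 0 ≤ V x y ∧ V x y ≤ b)
    (Y : ℝ) (L : LDs D Ω) (X : Pl K → FW A) (T : ℝ)
    (Zw E : Finset (Pl K)) (e : Pl K → P) :
    ‖SEx S L A X N n R T Zw E e W V (fun ν => if PatN S R M ν ∧ ¬ BadX S R ν then 1 else 0) Y‖ ≤
      (Fintype.card (Λ × (P ⧸ N) → Xc p N n) : ℝ) *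
        SAx S L A X N R M T Zw E e (fun x => wav N n (W x)) V Y := by
  unfold SEx SAx
  rw [Finset.mul_sum, Finset.sum_comm]
  have hcm : ∑ f ∈ Cf (Zg D Zw E) Λ, (Fintype.card (Λ × (P ⧸ N) → Xc p N n) : ℝ) *
      ∑ α : Fin A.g → P, (if Pat S.cls R (Zg D Zw E) T M f ∧
        Hs L A E N (sp (Zg D Zw E) f) (ev A (lab E e S.val f) α) then
      psi (nc (Zg D Zw E) f / Y) * om (Zg D Zw E) (fun v x =>
        if RL S.cls R T v x then wav N n (W x) (ev A (lab E e S.val f) α (X v))
        else V x (ev A (lab E e S.val f) α (X v))) f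
      else 0) = ∑ α : Fin A.g → P, ∑ f ∈ Cf (Zg D Zw E) Λ,
      (Fintype.card (Λ × (P ⧸ N) → Xc p N n) : ℝ) * (if Pat S.cls R (Zg D Zw E) T M f ∧
        Hs L A E N (sp (Zg D Zw E) f) (ev A (lab E e S.val f) α) then
      psi (nc (Zg D Zw E) f / Y) * om (Zg D Zw E) (fun v x =>
        if RL S.cls R T v x then wav N n (W x) (ev A (lab E e S.val f) α (X v))
        else V x (ev A (lab E e S.val f) α (X v))) f
      else 0) := by
    rw [Finset.sum_comm]
    exact Finset.sum_congr rfl fun f _ => Finset.mul_sum _ _ _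
  rw [hcm]
  refine (norm_sum_le _ _).trans (Finset.sum_le_sum fun α _ => ?_)
  refine (norm_sum_le _ _).trans ?_
  have hmap : ∀ c ∈ Cf (Zg D Zw E) (Le p Λ N n), mp Prod.fst c ∈ Cf (Zg D Zw E) Λ := by
    intro c hc
    rw [mem_cf] at hc ⊢
    intro v hv
    show (c v).map _ = none
    rw [hc v hv]
    rfl
  rw [← Finset.sum_fiberwise_of_maps_to hmap]
  refine Finset.sum_le_sum fun f' _ => ?_
  have h3 : ∀ f : Pl K → Option (Le p Λ N n), mp Prod.fst f = f' →
      (PatN S R M (ct (Zg D Zw E) (fun v => T < (nm v : ℝ)) f) ↔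
      Pat S.cls R (Zg D Zw E) T M f') := by
    rintro f rfl
    unfold PatN Pat
    simp only [cn_ct]
  by_cases hc : Pat S.cls R (Zg D Zw E) T M f' ∧
      Hs L A E N (sp (Zg D Zw E) f') (ev A (lab E e S.val f') α)
  · rw [if_pos hc]
    have h4 := mul_le_mul_of_nonneg_left (fib_boundx (S := S) T W V hW hV0 (Zg D Zw E) f'
      (fun v => ev A (lab E e S.val f') α (X v)))
      (psi_nonneg (nc (Zg D Zw E) f' / Y))
    refine le_trans ?_ (h4.trans (le_of_eq (by ring)))
    rw [Finset.mul_sum]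
    refine Finset.sum_le_sum fun f hf => ?_
    have hf' := (Finset.mem_filter.1 hf).2
    rw [lab_mp, ← sp_mp (Zg D Zw E) (Prod.fst : Le p Λ N n → Λ) f, hf', if_pos hc.2]
    have h5 : nc (Zg D Zw E) f = nc (Zg D Zw E) f' := by
      unfold nc
      rw [← hf', sp_mp]
    beta_reduce
    by_cases hb : BadX S R (ct (Zg D Zw E) (fun v => T < (nm v : ℝ)) f)
    · rw [if_pos hb, if_neg fun h => h.2 hb, zero_mul, zero_mul, norm_zero, mul_zero]
    · rw [if_neg hb, if_pos ⟨(h3 f hf').2 hc.1, hb⟩, one_mul, norm_mul, Complex.norm_real,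
        Real.norm_of_nonneg (psi_nonneg _), h5]
  · rw [if_neg hc, mul_zero]
    refine (Finset.sum_eq_zero fun f hf => ?_).le
    have hf' := (Finset.mem_filter.1 hf).2
    rw [lab_mp, ← sp_mp (Zg D Zw E) (Prod.fst : Le p Λ N n → Λ) f, hf']
    beta_reduce
    by_cases hH : Hs L A E N (sp (Zg D Zw E) f') (ev A (lab E e S.val f') α)
    · rw [if_pos hH, if_neg fun h => hc ⟨(h3 f hf').1 h.1, hH⟩, zero_mul, zero_mul, norm_zero]
    · rw [if_neg hH, norm_zero]

end H35.UX
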