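import Pool.Agent.H35.UX.Stp
import Pool.Agent.H35.UB.Top

/-!
# H35-UX-TOP: from the homomorphisms to the configurations with weights at all primes, words `X` (U2 of UBX)
-/

set_option autoImplicit false

open scoped NumberField
open IsDedekindDomain
open scoped Classical

noncomputable section

namespace H35.UX

open H38.ML H63.MA H38.BB H38.BG H57.PC H57.BRA H77.WD H77.WE H77.PC3 H35.CF H35.UB

variable {K : Type} [Field K] [NumberField K] {Ω : Type} [Field Ω] [Algebra K Ω]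
  {p : ℕ} {ζ : K} {D : RD0 K p ζ} {P : Type} [Group P] {Nc : ℕ}

/-- the labels of a homomorphism -/
private def tf (L : LDs D Ω) (c : CL p Nc P) (Z : Finset (Pl K)) (φ : Gal(Ω/K) →* P)
    (v : Pl K) : Option (Px c) :=
  if h : v ∈ Z ∧ ∃ i, IsConj (φ (L.t v)) (c.g i) then some ⟨φ (L.t v), h.2⟩ else none

private theorem mem_zg {Zw E : Finset (Pl K)} {v : Pl K} :
    v ∈ Zg D Zw E ↔ (v ∈ Zw ∧ v ∉ E) ∧ D.Gd v := by
  unfold Zg
  rw [Finset.mem_filter, Finset.mem_sdiff]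

private theorem tt_S0 (L : LDs D Ω) {v : Pl K} (hv : v ∈ D.S0) : L.t v = 1 := by
  unfold LDs.t
  rw [dif_neg (not_not.2 hv)]

private theorem cj_ne (c : CL p Nc P) {x : P} {i : Fin Nc} (h : IsConj x (c.g i)) : x ≠ 1 := by
  rintro rfl
  exact c.ne i (isConj_one_right.1 h)

private theorem psi_one {t : ℝ} (h : t ≤ 1) : H35.UB.psi t = 1 := by
  unfold H35.UB.psi
  rw [max_eq_right (by linarith), min_eq_left (by linarith)]

section pe

variable {L : LDs D Ω} {c : CL p Nc P} {E : Finset (Pl K)} {e : Pl K → P} {R : Finset (Fin Nc)}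
  {M : ℕ} {T Y C₁ : ℝ} {Zw : Finset (Pl K)} {φ : Gal(Ω/K) →* P}

/-- the ramified primes are typed and small -/
private theorem pe_ty (hφ : φ ∈ PE L c E e R M T Y) (hY : 3 ≤ Y) (hC : 1 ≤ C₁)
    (hZ : ZwOk D C₁ Y Zw) {v : Pl K} (hv : v ∉ D.S0) (hvE : v ∉ E) (h1 : φ (L.t v) ≠ 1) :
    v ∈ Zg D Zw E ∧ ∃ i, TyC c L φ i v := by
  obtain ⟨-, -, -, h2, h3, -⟩ := hφ
  have hn : ¬ ∀ τ ∈ inr L v, φ τ = 1 := fun h => h1 (h _ (H63.BU.uinr_t L v))
  obtain ⟨i, hi⟩ := (h2 v hv hvE).resolve_left hn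
  refine ⟨mem_zg.2 ⟨⟨?_, hvE⟩, hi.1⟩, i, hi⟩
  refine hZ.2 v hi.1 ?_
  have h4 := h3 {v} (fun w hw => by
    rw [Finset.mem_singleton] at hw
    subst hw
    exact ⟨hv, hvE, hn⟩)
  rw [Finset.prod_singleton] at h4
  refine h4.trans ?_
  calc Y = Y ^ (1 : ℝ) := (Real.rpow_one Y).symm
    _ ≤ Y ^ C₁ := Real.rpow_le_rpow_of_exponent_le (by linarith) hC

private theorem pe_lab (hφ : φ ∈ PE L c E e R M T Y) (hY : 3 ≤ Y) (hC : 1 ≤ C₁)
    (hZ : ZwOk D C₁ Y Zw) (v : Pl K) :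
    lab E e (LSx c).val (tf L c (Zg D Zw E) φ) v = φ (L.t v) := by
  unfold lab
  by_cases hvE : v ∈ E
  · rw [if_pos hvE]
    exact (hφ.2.2.1 v hvE).symm
  · rw [if_neg hvE]
    unfold tf
    by_cases h : v ∈ Zg D Zw E ∧ ∃ i, IsConj (φ (L.t v)) (c.g i)
    · rw [dif_pos h]
      rfl
    · rw [dif_neg h]
      show (1 : P) = φ (L.t v)
      by_contra h1
      have hv : v ∉ D.S0 := by
        intro h2
        rw [tt_S0 L h2, map_one] at h1
        exact h1 rfl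
      obtain ⟨h3, i, h4⟩ := pe_ty hφ hY hC hZ hv hvE (Ne.symm h1)
      exact h ⟨h3, i, h4.2.1⟩

private theorem pe_ev (hφ : φ ∈ PE L c E e R M T Y) (hY : 3 ≤ Y) (hC : 1 ≤ C₁)
    (hZ : ZwOk D C₁ Y Zw) (A : GS D Ω) :
    ev A (lab E e (LSx c).val (tf L c (Zg D Zw E) φ)) (fun i => φ (A.a i)) = hat L A φ := by
  unfold ev hat
  congr 1
  funext x
  cases x with
  | inl v => exact pe_lab hφ hY hC hZ v
  | inr i => rfl

private theorem pe_hon (hφ : φ ∈ PE L c E e R M T Y) (hY : 3 ≤ Y) (hC : 1 ≤ C₁)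
    (hZ : ZwOk D C₁ Y Zw) : HonE L E (sp (Zg D Zw E) (tf L c (Zg D Zw E) φ)) φ := by
  refine ⟨hφ.1, fun v hv hvE => ?_⟩
  by_cases h1 : φ (L.t v) = 1
  · rw [h1, one_pow]
    exact ⟨rfl, fun _ => rfl⟩
  · obtain ⟨h3, i, h4⟩ := pe_ty hφ hY hC hZ hv hvE h1
    refine ⟨h4.2.2 _ (H63.BU.uinr_t L v), fun h5 => absurd ?_ h5⟩
    rw [mem_sp]
    refine ⟨h3, ?_⟩
    unfold tf
    rw [dif_pos ⟨h3, i, h4.2.1⟩]
    exact Option.some_ne_none _

private theorem pe_some (hφ : φ ∈ PE L c E e R M T Y) (hY : 3 ≤ Y) (hC : 1 ≤ C₁)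
    (hZ : ZwOk D C₁ Y Zw) {v : Pl K} {x : Px c} (h : tf L c (Zg D Zw E) φ v = some x) :
    v ∈ Zg D Zw E ∧ x.1 = φ (L.t v) ∧ ∀ τ ∈ inr L v, φ τ ^ p = 1 := by
  unfold tf at h
  by_cases h1 : v ∈ Zg D Zw E ∧ ∃ i, IsConj (φ (L.t v)) (c.g i)
  · rw [dif_pos h1] at h
    have h2 := Option.some.inj h
    obtain ⟨i, hi⟩ := h1.2
    have h3 := mem_zg.1 h1.1
    obtain ⟨-, j, hj⟩ := pe_ty hφ hY hC hZ h3.2.1 h3.1.2 (cj_ne c hi)
    exact ⟨h1.1, (congrArg Subtype.val h2).symm, hj.2.2⟩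
  · rw [dif_neg h1] at h
    exact absurd h (by simp)

private theorem pe_cn (hφ : φ ∈ PE L c E e R M T Y) (hY : 3 ≤ Y) (hC : 1 ≤ C₁)
    (hZ : ZwOk D C₁ Y Zw) (i : Fin Nc) :
    cn (LSx c).cls (Zg D Zw E) T (tf L c (Zg D Zw E) φ) i = tyn L c E T φ i := by
  unfold cn tyn
  rw [← Set.ncard_coe_finset]
  congr 1
  ext v
  rw [Finset.coe_filter, Set.mem_ofPred_eq, Set.mem_ofPred_eq]
  constructor
  · rintro ⟨h1, h2, h3⟩
    rw [Option.map_eq_some_iff] at h3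
    obtain ⟨x, h4, h5⟩ := h3
    obtain ⟨-, h6, h7⟩ := pe_some hφ hY hC hZ h4
    have h8 : IsConj x.1 (c.g i) := (cid_iff x i).1 h5
    rw [h6] at h8
    exact ⟨(mem_zg.1 h1).1.2, h2, (mem_zg.1 h1).2, h8, h7⟩
  · rintro ⟨h1, h2, h3⟩
    obtain ⟨h4, -⟩ := pe_ty hφ hY hC hZ h3.1.1 h1 (cj_ne c h3.2.1)
    refine ⟨h4, h2, ?_⟩
    have h5 : v ∈ Zg D Zw E ∧ ∃ i, IsConj (φ (L.t v)) (c.g i) := ⟨h4, i, h3.2.1⟩
    rw [Option.map_eq_some_iff]
    refine ⟨⟨φ (L.t v), h5.2⟩, ?_, (cid_iff _ i).2 h3.2.1⟩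
    unfold tf
    rw [dif_pos h5]

private theorem pe_nc (hφ : φ ∈ PE L c E e R M T Y) (hY : 3 ≤ Y) (hC : 1 ≤ C₁)
    (hZ : ZwOk D C₁ Y Zw) : nc (Zg D Zw E) (tf L c (Zg D Zw E) φ) ≤ Y := by
  unfold nc nr
  refine hφ.2.2.2.2.1 _ fun v hv => ?_
  rw [mem_sp] at hv
  obtain ⟨x, hx⟩ := Option.ne_none_iff_exists'.1 hv.2
  obtain ⟨h1, h2, -⟩ := pe_some hφ hY hC hZ hx
  have h3 := mem_zg.1 h1
  refine ⟨h3.2.1, h3.1.2, fun h4 => ?_⟩
  obtain ⟨i, hi⟩ := x.2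
  refine cj_ne c hi ?_
  rw [h2]
  exact h4 _ (H63.BU.uinr_t L v)

end pe

/-- from the homomorphisms to the configurations, with weights -/
theorem topx [IsAlgClosure K Ω] [Fintype P] (hp : p.Prime) (hζ : IsPrimitiveRoot ζ p)
    (hP : IsPGroup p P) (L : LDs D Ω) (A : GS D Ω) (Fr : FR L) (c : CL p Nc P) (i₀ : Fin Nc)
    (R : Finset (Fin Nc)) (k M : ℕ) (hk : Nk (NR c R) k = ⊥) (ω : Px c → P ⧸ NR c R → ℝ)
    (hω : ∀ i q, 0 ≤ ω i q ∧ ω i q ≤ 1) (V : Px c → P → ℝ) (hV0 : ∀ g x, 0 ≤ V g x)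
    (hV1 : ∀ g x, g.1 * x = x * g.1 → 1 ≤ V g x)
    (T C₁ Y : ℝ) (hY : 3 ≤ Y) (hC : 1 ≤ C₁) (Zw E : Finset (Pl K))
    (e : Pl K → P) (hZ : ZwOk D C₁ Y Zw) (hE : E ⊆ Zw) (X : Pl K → FW A)
    (hX : ∀ φ : Gal(Ω/K) →* P, Unz L Zw φ → ∀ v ∈ Zw, hat L A φ (X v) = φ (Fr.F v))
    (κ : (Gal(Ω/K) →* P) → ℝ) (Rs : Finset (Gal(Ω/K) →* P))
    (hRs : ∀ φ ∈ Rs, φ ∈ PE L c E e R M T Y ∧ ∀ (s : Finset (Pl K)) (y : Pl K → Px c),
      (∀ v ∈ s, v ∉ E ∧ T < (nm v : ℝ) ∧ cid (y v) ∈ R ∧ (y v).1 = φ (L.t v) ∧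
        TyC c L φ (cid (y v)) v) →
      κ φ ≤ ∏ v ∈ s, ω (y v) (φ (Fr.F v) : P ⧸ NR c R)) :
    ∑ φ ∈ Rs, κ φ ≤ SAx (LSx c) L A X (NR c R) R M T Zw E e (WG c (NR c R) ω k) V Y := by
  obtain ⟨Z, hZd⟩ : ∃ Z, Z = Zg D Zw E := ⟨_, rfl⟩
  obtain ⟨F, hF⟩ : ∃ F : (Gal(Ω/K) →* P) → (Pl K → Option (Px c)) × (Fin A.g → P),
      F = fun φ => (tf L c (Zg D Zw E) φ, fun i => φ (A.a i)) := ⟨_, rfl⟩
  obtain ⟨tm, htm⟩ : ∃ tm : (Pl K → Option (Px c)) × (Fin A.g → P) → ℝ, tm = fun x =>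
      if Pat (LSx c).cls R (Zg D Zw E) T M x.1 ∧
        Hs L A E (NR c R) (sp (Zg D Zw E) x.1) (ev A (lab E e (LSx c).val x.1) x.2) then
      H35.UB.psi (nc (Zg D Zw E) x.1 / Y) * om (Zg D Zw E) (fun v y =>
        if RL (LSx c).cls R T v y then WG c (NR c R) ω k y
          (ev A (lab E e (LSx c).val x.1) x.2 (X v))
        else V y (ev A (lab E e (LSx c).val x.1) x.2 (X v))) x.1
      else 0 := ⟨_, rfl⟩
  have hSA : SAx (LSx c) L A X (NR c R) R M T Zw E e (WG c (NR c R) ω k) V Y =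
      ∑ x ∈ Cf (Zg D Zw E) (Px c) ×ˢ (Finset.univ : Finset (Fin A.g → P)), tm x := by
    rw [Finset.sum_product, htm]
    rfl
  have hmem : ∀ φ ∈ Rs,
      F φ ∈ Cf (Zg D Zw E) (Px c) ×ˢ (Finset.univ : Finset (Fin A.g → P)) := by
    intro φ _
    rw [Finset.mem_product, hF]
    refine ⟨?_, Finset.mem_univ _⟩
    rw [mem_cf]
    intro v hv
    show tf L c (Zg D Zw E) φ v = none
    unfold tf
    rw [dif_neg fun h => hv h.1]
  have hinj : Set.InjOn F Rs := by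
    intro φ hφ' φ' hφ'' h
    have hφ := (hRs φ hφ').1
    have hφ2 := (hRs φ' hφ'').1
    have h1 : tf L c (Zg D Zw E) φ = tf L c (Zg D Zw E) φ' := by
      rw [hF] at h
      exact congrArg Prod.fst h
    have h2 : (fun i => φ (A.a i)) = fun i => φ' (A.a i) := by
      rw [hF] at h
      exact congrArg Prod.snd h
    refine hon_eqU hp hζ L A (E ∪ sp (Zg D Zw E) (tf L c (Zg D Zw E) φ)) φ φ'
      (pe_hon hφ hY hC hZ).unz ?_ (hP.to_subgroup _) (hP.to_subgroup _) (fun v _ => ?_)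
      (fun i => congrFun h2 i)
    · rw [h1]
      exact (pe_hon hφ2 hY hC hZ).unz
    · rw [← pe_lab hφ hY hC hZ v, ← pe_lab hφ2 hY hC hZ v, h1]
  have hpos : ∀ x, 0 ≤ tm x := by
    intro x
    rw [htm]
    dsimp only
    split_ifs
    · refine mul_nonneg (psi_nonneg _) (om_nonneg _ _ (fun v y => ?_) _)
      split_ifs
      · exact (wg_bd c _ ω hω _ _ _).1
      · exact hV0 _ _
    · exact le_rfl
  have hone : ∀ φ ∈ Rs, κ φ ≤ tm (F φ) := by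
    intro φ hφ'
    obtain ⟨hφ, hκ⟩ := hRs φ hφ'
    have hev := pe_ev hφ hY hC hZ A
    have hh := pe_hon hφ hY hC hZ
    have hh2 : Unz L Zw φ := by
      have h1 := (hh.mono (Finset.Subset.refl E) fun v hv =>
        (mem_zg.1 (mem_sp.1 hv).1).1.1 : HonE L E Zw φ).unz
      rwa [Finset.union_eq_right.2 hE] at h1
    rw [htm, hF]
    dsimp only
    rw [hev, if_pos]
    · rw [psi_one ((div_le_one (by linarith)).2 (pe_nc hφ hY hC hZ)), one_mul]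
      -- the large primes of rich classes
      obtain ⟨s, hs⟩ : ∃ s : Finset (Pl K), s = (Zg D Zw E).filter fun v =>
        ∃ x, tf L c (Zg D Zw E) φ v = some x ∧ RL (LSx c).cls R T v x := ⟨_, rfl⟩
      obtain ⟨j, hj⟩ : ∃ j : Pl K → Px c,
          ∀ v x, tf L c (Zg D Zw E) φ v = some x → j v = x := by
        refine ⟨fun v => (tf L c (Zg D Zw E) φ v).elim ⟨c.g i₀, i₀, IsConj.refl _⟩ id,
          fun v x hx => ?_⟩
        beta_reduce
        rw [hx]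
        rfl
      have h1 := hκ s j (fun v hv => by
        rw [hs, Finset.mem_filter] at hv
        obtain ⟨hv1, x, hx, hxR⟩ := hv
        obtain ⟨h2, h3, h4⟩ := pe_some hφ hY hC hZ hx
        rw [hj v x hx]
        refine ⟨(mem_zg.1 hv1).1.2, hxR.2, hxR.1, h3, (mem_zg.1 hv1).2, ?_, h4⟩
        rw [← h3]
        exact cid_spec x)
      refine h1.trans ?_
      unfold om
      rw [hs, Finset.prod_filter]
      refine Finset.prod_le_prod (fun v _ => ?_) fun v hv => ?_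
      · split_ifs
        · exact (hω _ _).1
        · exact zero_le_one
      · cases hx : tf L c (Zg D Zw E) φ v with
        | none =>
          rw [if_neg]
          · exact le_rfl
          · rintro ⟨x, h2, -⟩
            exact absurd h2 (by simp)
        | some x =>
          obtain ⟨h2, h3, h4⟩ := pe_some hφ hY hC hZ hx
          have hX1 : hat L A φ (X v) = φ (Fr.F v) := hX φ hh2 v (mem_zg.1 h2).1.1
          have hcom : x.1 * φ (Fr.F v) = φ (Fr.F v) * x.1 := by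
            rw [h3]
            exact (Fr.com v (mem_zg.1 h2).2.1 P φ hφ.1 h4).symm
          change _ ≤ (if RL (LSx c).cls R T v x then WG c (NR c R) ω k x (hat L A φ (X v))
            else V x (hat L A φ (X v)))
          rw [hX1]
          by_cases hR : RL (LSx c).cls R T v x
          · rw [if_pos hR, if_pos ⟨x, rfl, hR⟩]
            unfold WG
            rw [gd_bot _ _ hk, if_pos hcom, mul_one, hj v x hx]
          · rw [if_neg hR, if_neg]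
            · exact hV1 _ _ hcom
            · rintro ⟨x', h5, h6⟩
              rw [← Option.some.inj h5] at h6
              exact hR h6
    · refine ⟨fun i => ?_, (QuotientGroup.mk' (NR c R)).comp φ, hh.comp _, ?_, hat_comp L A _ φ⟩
      · rw [pe_cn hφ hY hC hZ i]
        exact hφ.2.2.2.2.2 i
      · exact (QuotientGroup.mk'_surjective _).comp hφ.2.1
  rw [hSA]
  have h1 : ∑ φ ∈ Rs, κ φ ≤ ∑ x ∈ Rs.image F, tm x := by
    rw [Finset.sum_image fun φ hφ φ' hφ' h => hinj hφ hφ' h]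
    exact Finset.sum_le_sum hone
  refine h1.trans (Finset.sum_le_sum_of_subset_of_nonneg (fun x hx => ?_) fun x _ _ => hpos x)
  rw [Finset.mem_image] at hx
  obtain ⟨φ, hφ, rfl⟩ := hx
  exact hmem φ hφ

end H35.UX
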