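import Pool.Agent.H35.UX.Ext
import Pool.Agent.H1.BD.Ub

/-!
# H35-UX-UB: the boxes of a configuration (weights at all primes, words `X`; copy of H1/BD/Ub)
-/

set_option autoImplicit false

open scoped NumberField
open IsDedekindDomain
open scoped Classical

noncomputable section

namespace H35.UX

open H63.MA H38.BB H38.BG H57.PC H57.BRA H77.WD H77.WE H77.PC3 H35.CF H35.UB H1.BD

section box

variable {K : Type} [Field K] [NumberField K] {Ω : Type} [Field Ω] [Algebra K Ω]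
  {p : ℕ} [NeZero p] {ζ : K} {D : RD0 K p ζ} {P : Type} [Group P] [Fintype P] {Nc n : ℕ}
  {Λ : Type} [Fintype Λ]

/-- the box of a configuration -/
def bxdx (S : LS Nc P Λ) (L : LDs D Ω) (A : GS D Ω) (N : Subgroup P) [N.Normal] (n : ℕ)
    (R : Finset (Fin Nc)) (T : ℝ) (Zw E : Finset (Pl K)) (e : Pl K → P) (W V : Λ → P → ℝ) (b : ℝ)
    (lo hi : Fin (n + 2) → ℝ) (c : Pl K → Option (Le p Λ N n)) (α : Fin A.g → P) :
    Bd A P N n where
  s := sp (Zg D Zw E) c ∪ E
  g := lab E e (fun x => S.val x.1) c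
  α := α
  φ := if h : Hs L A E N (sp (Zg D Zw E) c) (ev A (lab E e (fun x => S.val x.1) c) α) then
    h.choose else 1
  G := fun v y => if v ∈ E then 1 else (c v).elim 1 fun x => wex S N n R T W V v x y / b
  lo := lo
  hi := hi

theorem wex_le {S : LS Nc P Λ} {N : Subgroup P} [N.Normal] {R : Finset (Fin Nc)} {T : ℝ}
    {W V : Λ → P → ℝ} {b : ℝ} (hW : WOk p S N n R W b) (hV0 : ∀ x y, 0 ≤ V x y ∧ V x y ≤ b)
    (v : Pl K) (x : Le p Λ N n) (y : P) :
    ‖wex S N n R T W V v x y‖ ≤ if RL S.cls R T v x.1 then wav N n (W x.1) y else V x.1 y := by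
  have h0 : 0 ≤ wav N n (W x.1) y := by
    unfold wav
    exact div_nonneg (Finset.sum_nonneg fun u _ => (hW.w0 _ _).1) (Nat.cast_nonneg _)
  unfold wex
  by_cases h1 : RL S.cls R T v x.1
  · rw [if_pos h1, if_pos h1]
    split_ifs with h2
    · exact wh_le N n _ (fun z => (hW.w0 _ _).1) _ _
    · rw [norm_zero]
      exact h0
  · rw [if_neg h1, if_neg h1]
    split_ifs with h2
    · rw [Complex.norm_real, Real.norm_of_nonneg (hV0 _ _).1]
    · rw [norm_zero]
      exact (hV0 _ _).1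

theorem wex_b {S : LS Nc P Λ} {N : Subgroup P} [N.Normal] {R : Finset (Fin Nc)} {T : ℝ}
    {W V : Λ → P → ℝ} {b : ℝ} (hW : WOk p S N n R W b) (hV0 : ∀ x y, 0 ≤ V x y ∧ V x y ≤ b)
    (v : Pl K) (x : Le p Λ N n) (y : P) :
    ‖wex S N n R T W V v x y‖ ≤ b := by
  refine (wex_le hW hV0 v x y).trans ?_
  split_ifs
  · exact (wav_bd hW _ _).2
  · exact (hV0 _ _).2

theorem bxdx_sum (S : LS Nc P Λ) (L : LDs D Ω) (A : GS D Ω) (X : Pl K → FW A) (N : Subgroup P)
    [N.Normal] (R : Finset (Fin Nc)) (T : ℝ) (Zw E : Finset (Pl K)) (e : Pl K → P)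
    (W V : Λ → P → ℝ) (b : ℝ) (hb : 0 < b) (l : Fin (n + 2) → Le p Λ N n)
    (hl : ∀ k, S.cls (l k).1 ∈ R) (lo hi : Fin (n + 2) → ℝ) (hlo : ∀ k, T ≤ lo k)
    (c : Pl K → Option (Le p Λ N n)) (α : Fin A.g → P) :
    ∑ q ∈ (Fr (Zg D Zw E) (fun v => T < (nm v : ℝ)) c (n + 2)).filter
        (fun q => ∀ k, lo k < nm (q k) ∧ (nm (q k) : ℝ) ≤ hi k),
      om (Zg D Zw E) (fun v x => wex S N n R T W V v x
        (ev A (lab E e (fun x => S.val x.1) (up c q l)) α (X v))) (up c q l) =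
      (b : ℂ) ^ ((sp (Zg D Zw E) c).card + (n + 2)) *
        smX (bxdx S L A N n R T Zw E e W V b lo hi c α) X Zw (fun k => tl S (l k)) (bxk N W b l) := by
  have hb' : (b : ℂ) ≠ 0 := by exact_mod_cast hb.ne'
  have hset : (Fr (Zg D Zw E) (fun v => T < (nm v : ℝ)) c (n + 2)).filter
        (fun q => ∀ k, lo k < nm (q k) ∧ (nm (q k) : ℝ) ≤ hi k) =
      (bxdx S L A N n R T Zw E e W V b lo hi c α).bx Zw := by
    ext q
    unfold Bd.bx bxdx
    dsimp only
    rw [Finset.mem_filter, mem_fr, Finset.mem_filter, Fintype.mem_piFinset]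
    constructor
    · rintro ⟨⟨h1, h2⟩, h3⟩
      refine ⟨fun k => ?_, h2⟩
      obtain ⟨h4, h5, h6⟩ := h1 k
      unfold Zg at h4
      rw [Finset.mem_filter, Finset.mem_sdiff] at h4
      rw [Finset.mem_filter]
      refine ⟨h4.1.1, h4.2, fun h7 => ?_, (h3 k).1, (h3 k).2⟩
      rw [Finset.mem_union, mem_sp] at h7
      rcases h7 with h7 | h7
      · exact h7.2 h6
      · exact h4.1.2 h7
    · rintro ⟨h1, h2⟩
      refine ⟨⟨fun k => ?_, h2⟩, fun k => ?_⟩
      · have h3 := h1 k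
        rw [Finset.mem_filter] at h3
        obtain ⟨h4, h5, h6, h7, h8⟩ := h3
        rw [Finset.mem_union, mem_sp] at h6
        push Not at h6
        have h9 : q k ∈ Zg D Zw E := by
          unfold Zg
          rw [Finset.mem_filter, Finset.mem_sdiff]
          exact ⟨⟨h4, h6.2⟩, h5⟩
        exact ⟨h9, (hlo k).trans_lt h7, h6.1 h9⟩
      · have h3 := h1 k
        rw [Finset.mem_filter] at h3
        exact h3.2.2.2
  unfold smX
  rw [← hset, Finset.mul_sum]
  refine Finset.sum_congr rfl fun q hq => ?_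
  rw [Finset.mem_filter] at hq
  obtain ⟨hq1, hq2⟩ := hq
  have hqE : ∀ k, q k ∉ E := by
    intro k
    have h4 := ((mem_fr.1 hq1).1 k).1
    unfold Zg at h4
    rw [Finset.mem_filter, Finset.mem_sdiff] at h4
    exact h4.1.2
  have hth : (bxdx S L A N n R T Zw E e W V b lo hi c α).th (fun k => tl S (l k)) q =
      ev A (lab E e (fun x => S.val x.1) (up c q l)) α := by
    unfold Bd.th bxdx
    dsimp only
    congr 1
    funext v
    rw [lab_up E e (fun x : Le p Λ N n => S.val x.1) c q l hqE]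
    rfl
  rw [hth, om_up _ _ c q l hq1]
  have hdis : Disjoint (sp (Zg D Zw E) c) E := by
    rw [Finset.disjoint_left]
    intro v h1 h2
    rw [mem_sp] at h1
    unfold Zg at h1
    rw [Finset.mem_filter, Finset.mem_sdiff] at h1
    exact h1.1.1.2 h2
  have h1 : ∏ v ∈ (bxdx S L A N n R T Zw E e W V b lo hi c α).s,
      (bxdx S L A N n R T Zw E e W V b lo hi c α).G v
        (ev A (lab E e (fun x => S.val x.1) (up c q l)) α (X v)) =
      (∏ v ∈ sp (Zg D Zw E) c, (c v).elim 1 fun x => wex S N n R T W V v x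
        (ev A (lab E e (fun x => S.val x.1) (up c q l)) α (X v))) /
        (b : ℂ) ^ (sp (Zg D Zw E) c).card := by
    unfold bxdx
    dsimp only
    rw [Finset.prod_union hdis, ← Finset.prod_const, ← Finset.prod_div_distrib]
    have h2 : ∏ v ∈ E, (if v ∈ E then (1 : ℂ) else (c v).elim 1 fun x => wex S N n R T W V v x
        (ev A (lab E e (fun x => S.val x.1) (up c q l)) α (X v)) / b) = 1 :=
      Finset.prod_eq_one fun v hv => if_pos hv
    rw [h2, mul_one]
    refine Finset.prod_congr rfl fun v hv => ?_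
    have h3 : v ∉ E := fun h => Finset.disjoint_left.1 hdis hv h
    rw [if_neg h3]
    have h4 := (mem_sp.1 hv).2
    cases h5 : c v with
    | none => exact absurd h5 h4
    | some x => rfl
  have h2 : ∏ k, bxk N W b l k (ev A (lab E e (fun x => S.val x.1) (up c q l)) α
        (X (q k))) =
      (∏ k, wex S N n R T W V (q k) (l k) (ev A (lab E e (fun x => S.val x.1) (up c q l)) α
        (X (q k)))) / (b : ℂ) ^ (n + 2) := by
    rw [show (b : ℂ) ^ (n + 2) = ∏ _k : Fin (n + 2), (b : ℂ) by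
      rw [Finset.prod_const, Finset.card_univ, Fintype.card_fin], ← Finset.prod_div_distrib]
    refine Finset.prod_congr rfl fun k _ => ?_
    unfold bxk wex
    have h3 : RL S.cls R T (q k) (l k).1 := ⟨hl k, (hlo k).trans_lt (hq2 k).1⟩
    rw [if_pos h3]
  rw [h1, h2, pow_add]
  field_simp


/-- the sum over the variable places for one configuration -/
theorem bxdx_norm (S : LS Nc P Λ) (L : LDs D Ω) (A : GS D Ω) (X : Pl K → FW A) (N : Subgroup P)
    [N.Normal] (R : Finset (Fin Nc)) (T : ℝ) (Zw E : Finset (Pl K)) (e : Pl K → P)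
    (W V : Λ → P → ℝ) (b : ℝ) (hb : 0 < b) (l : Fin (n + 2) → Le p Λ N n)
    (hl : ∀ k, S.cls (l k).1 ∈ R) (hN : ∀ k, S.val (l k).1 ∈ N)
    (lo hi : Fin (n + 2) → ℝ) (hlo : ∀ k, T ≤ lo k)
    (c : Pl K → Option (Le p Λ N n)) :
    ‖∑ q ∈ (Fr (Zg D Zw E) (fun v => T < (nm v : ℝ)) c (n + 2)).filter
        (fun q => ∀ k, lo k < nm (q k) ∧ (nm (q k) : ℝ) ≤ hi k),
      ∑ α : Fin A.g → P, (if Hs L A E N (sp (Zg D Zw E) (up c q l))
          (ev A (lab E e (fun x => S.val x.1) (up c q l)) α) then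
        om (Zg D Zw E) (fun v x => wex S N n R T W V v x
          (ev A (lab E e (fun x => S.val x.1) (up c q l)) α (X v))) (up c q l)
        else 0)‖ ≤
      b ^ ((sp (Zg D Zw E) c).card + (n + 2)) *
        ∑ α : Fin A.g → P, (if Hs L A E N (sp (Zg D Zw E) c)
          (ev A (lab E e (fun x => S.val x.1) c) α) then
        ‖smX (bxdx S L A N n R T Zw E e W V b lo hi c α) X Zw (fun k => tl S (l k)) (bxk N W b l)‖ else 0) := by
  rw [Finset.sum_comm, Finset.mul_sum]
  refine (norm_sum_le _ _).trans (Finset.sum_le_sum fun α _ => ?_)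
  have h1 : ∀ q ∈ (Fr (Zg D Zw E) (fun v => T < (nm v : ℝ)) c (n + 2)).filter
        (fun q => ∀ k, lo k < nm (q k) ∧ (nm (q k) : ℝ) ≤ hi k),
      (if Hs L A E N (sp (Zg D Zw E) (up c q l))
          (ev A (lab E e (fun x => S.val x.1) (up c q l)) α) then
        om (Zg D Zw E) (fun v x => wex S N n R T W V v x
          (ev A (lab E e (fun x => S.val x.1) (up c q l)) α (X v))) (up c q l)
        else 0) = if Hs L A E N (sp (Zg D Zw E) c)
          (ev A (lab E e (fun x => S.val x.1) c) α) then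
        om (Zg D Zw E) (fun v x => wex S N n R T W V v x
          (ev A (lab E e (fun x => S.val x.1) (up c q l)) α (X v))) (up c q l)
        else 0 := by
    intro q hq
    rw [Finset.mem_filter] at hq
    have h2 := hs_up L A E e (fun x : Le p Λ N n => S.val x.1) N (Zg D Zw E) _ c q l hq.1
      (fun k => by
        have h4 := ((mem_fr.1 hq.1).1 k).1
        unfold Zg at h4
        rw [Finset.mem_filter, Finset.mem_sdiff] at h4
        exact h4.1.2) hN α
    by_cases h3 : Hs L A E N (sp (Zg D Zw E) c) (ev A (lab E e (fun x => S.val x.1) c) α)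
    · rw [if_pos h3, if_pos (h2.2 h3)]
    · rw [if_neg h3, if_neg fun h4 => h3 (h2.1 h4)]
  rw [Finset.sum_congr rfl h1]
  by_cases h3 : Hs L A E N (sp (Zg D Zw E) c) (ev A (lab E e (fun x => S.val x.1) c) α)
  · simp only [if_pos h3]
    rw [bxdx_sum S L A X N R T Zw E e W V b hb l hl lo hi hlo c α, norm_mul, norm_pow,
      Complex.norm_real, Real.norm_of_nonneg hb.le]
  · simp only [if_neg h3]
    rw [Finset.sum_const_zero, norm_zero, mul_zero]


/-- the box inequality for the family of all configurations -/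
theorem bxdx_fam (S : LS Nc P Λ) (L : LDs D Ω) (A : GS D Ω) (X : Pl K → FW A) (N : Subgroup P)
    [N.Normal] (hn : Nk N (n + 1) = ⊥) (R : Finset (Fin Nc)) (ε Y C C₁ A₀ : ℝ)
    (Zw E : Finset (Pl K)) (e : Pl K → P) (W V : Λ → P → ℝ) (b : ℝ) (hW : WOk p S N n R W b)
    (hV0 : ∀ x y, 0 ≤ V x y ∧ V x y ≤ b) (l : Fin (n + 2) → Le p Λ N n)
    (hbl : BLbX L A X Zw E N n C₁ A₀ ε Y (fun k => tl S (l k))) (hE : E ⊆ Zw)
    (B : ℝ)
    (hnr : ∀ t : Finset (Pl K), nr t ≤ Y ^ C → nr (t ∪ E) ≤ Y ^ C₁)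
    (hcd : ∀ t : Finset (Pl K), (t.card : ℝ) ≤ B →
      ((t ∪ E).card : ℝ) ≤ C₁ * Real.log (Real.log Y))
    (hct : ∀ k : ℕ, (k : ℝ) ≤ B →
      (Fintype.card (Fin A.g → P) : ℝ) * (Fintype.card (Le p Λ N n) : ℝ) ^ k ≤ Real.log Y ^ C₁)
    (lo hi : Fin (n + 2) → ℝ)
    (hlh : ∀ k, T0 ε Y ≤ lo k ∧ lo k ≤ hi k ∧ hi k ≤ 2 * lo k ∧ hi k ≤ Y ^ C₁)
    (hlY : 0 ≤ Real.log Y) :
    ∑ c ∈ (Cf (Zg D Zw E) (Le p Λ N n)).filter (fun c => nr (sp (Zg D Zw E) c) ≤ Y ^ C ∧
        ((sp (Zg D Zw E) c).card : ℝ) ≤ B),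
      ∑ α : Fin A.g → P, (if Hs L A E N (sp (Zg D Zw E) c)
          (ev A (lab E e (fun x => S.val x.1) c) α) then
        (nr (sp (Zg D Zw E) c ∪ E))⁻¹ * (∏ k, lo k)⁻¹ *
        ‖smX (bxdx S L A N n R (T0 ε Y) Zw E e W V b lo hi c α) X Zw (fun k => tl S (l k)) (bxk N W b l)‖ else 0) ≤ Real.log Y ^ (-A₀) := by
  obtain ⟨hk1, hk2, hk3⟩ := bxk_ok S N hn R W b hW l
  have hb0 : 0 < b := lt_of_lt_of_le one_pos hW.b1
  have hdis : ∀ c : Pl K → Option (Le p Λ N n), Disjoint (sp (Zg D Zw E) c) E := by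
    intro c
    rw [Finset.disjoint_left]
    intro v h1 h2
    rw [mem_sp] at h1
    unfold Zg at h1
    rw [Finset.mem_filter, Finset.mem_sdiff] at h1
    exact h1.1.1.2 h2
  obtain ⟨I, hI⟩ : ∃ I, I = (((Cf (Zg D Zw E) (Le p Λ N n)).filter
      (fun c => nr (sp (Zg D Zw E) c) ≤ Y ^ C ∧ ((sp (Zg D Zw E) c).card : ℝ) ≤ B)) ×ˢ
      (Finset.univ : Finset (Fin A.g → P))).filter (fun i => Hs L A E N (sp (Zg D Zw E) i.1)
          (ev A (lab E e (fun x => S.val x.1) i.1) i.2)) := ⟨_, rfl⟩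
  have hmI : ∀ i ∈ I, (i.1 ∈ Cf (Zg D Zw E) (Le p Λ N n) ∧ nr (sp (Zg D Zw E) i.1) ≤ Y ^ C ∧
      ((sp (Zg D Zw E) i.1).card : ℝ) ≤ B) ∧ Hs L A E N (sp (Zg D Zw E) i.1)
          (ev A (lab E e (fun x => S.val x.1) i.1) i.2) := by
    intro i hm
    rw [hI, Finset.mem_filter, Finset.mem_product, Finset.mem_filter] at hm
    exact ⟨hm.1.1, hm.2⟩
  have h := hbl (bxk N W b l) hk1 hk2 hk3 _ I
    (fun i => bxdx S L A N n R (T0 ε Y) Zw E e W V b lo hi i.1 i.2) ?_ ?_ ?_ ?_
  · refine le_trans (le_of_eq ?_) h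
    rw [← Finset.sum_product', hI, Finset.sum_filter]
    rfl
  · intro i hm
    obtain ⟨⟨h1, h2, h3⟩, -⟩ := hmI i hm
    refine ⟨Finset.subset_union_right, Finset.union_subset ?_ hE, hnr _ h2, hcd _ h3⟩
    intro v hv
    have h4 := (mem_sp.1 hv).1
    unfold Zg at h4
    rw [Finset.mem_filter, Finset.mem_sdiff] at h4
    exact h4.1.1
  · intro i hm
    obtain ⟨⟨h1, h2, h3⟩, h5⟩ := hmI i hm
    have hφ : (bxdx S L A N n R (T0 ε Y) Zw E e W V b lo hi i.1 i.2).φ = h5.choose := dif_pos h5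
    refine ⟨?_, ?_, ?_, ?_, ?_⟩
    · intro v hv
      show lab E e (fun x => S.val x.1) i.1 v = 1
      have hv' : v ∉ sp (Zg D Zw E) i.1 ∧ v ∉ E := by
        constructor
        · exact fun h6 => hv (Finset.mem_union_left _ h6)
        · exact fun h6 => hv (Finset.mem_union_right _ h6)
      have h6 : i.1 v = none := by
        by_contra h7
        by_cases h8 : v ∈ Zg D Zw E
        · exact hv'.1 (mem_sp.2 ⟨h8, h7⟩)
        · exact h7 (mem_cf.1 h1 v h8)
      unfold lab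
      rw [if_neg hv'.2, h6]
      rfl
    · rw [hφ]
      exact h5.choose_spec.1.mono (Finset.Subset.refl E) Finset.subset_union_left
    · rw [hφ]
      exact h5.choose_spec.2.1
    · rw [hφ]
      exact h5.choose_spec.2.2
    · intro v x
      show ‖(if v ∈ E then (1 : ℂ) else (i.1 v).elim 1 fun x' =>
        wex S N n R (T0 ε Y) W V v x' x / b)‖ ≤ 1
      split_ifs with h6
      · exact norm_one.le
      · cases h7 : i.1 v with
        | none => exact norm_one.le
        | some x' =>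
          show ‖wex S N n R (T0 ε Y) W V v x' x / b‖ ≤ 1
          rw [norm_div, Complex.norm_real, Real.norm_of_nonneg hb0.le, div_le_one hb0]
          exact wex_b hW hV0 v x' x
  · intro i hm k
    exact hlh k
  · intro m
    have h1 : I.filter (fun i => (bxdx S L A N n R (T0 ε Y) Zw E e W V b lo hi i.1 i.2).s = m) ⊆
        ((Cf (Zg D Zw E) (Le p Λ N n)).filter fun c => sp (Zg D Zw E) c = m \ E) ×ˢ
          (Finset.univ : Finset (Fin A.g → P)) := by
      intro i hm
      rw [Finset.mem_filter] at hm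
      rw [Finset.mem_product, Finset.mem_filter]
      refine ⟨⟨(hmI i hm.1).1.1, ?_⟩, Finset.mem_univ _⟩
      have h2 : sp (Zg D Zw E) i.1 ∪ E = m := hm.2
      rw [← h2, Finset.union_sdiff_cancel_right (hdis i.1)]
    rcases (I.filter (fun i =>
      (bxdx S L A N n R (T0 ε Y) Zw E e W V b lo hi i.1 i.2).s = m)).eq_empty_or_nonempty with h2 | h2
    · rw [h2, Finset.card_empty, Nat.cast_zero]
      exact Real.rpow_nonneg hlY _
    · obtain ⟨i, hm⟩ := h2
      have h3 := (Finset.mem_filter.1 (Finset.mem_product.1 (h1 hm)).1).2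
      have h4 : ((m \ E).card : ℝ) ≤ B := by
        rw [← h3]
        exact (hmI i (Finset.mem_filter.1 hm).1).1.2.2
      refine le_trans ?_ (hct _ h4)
      have h5 := (Finset.card_le_card h1).trans (le_of_eq (Finset.card_product _ _))
      rw [Finset.card_univ] at h5
      have h6 := h5.trans (Nat.mul_le_mul_right _ (cnt_sp (Zg D Zw E) (m \ E)))
      rw [mul_comm] at h6
      exact_mod_cast h6

end box

end H35.UX
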